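import Pool.Agent.EXG.Hf

/-!
# EXG-Dual: the chains detect the classes

PLAN. `dual`: if `x ∉ range (dl S)` then `Submodule.exists_dual_map_eq_bot_of_notMem` gives a functional `f` on `S.Rep → F2` with
`f x ≠ 0` and `f (dl S ε) = 0` for all `ε`; write `f y = ∑ r, y r * u r` (`LinearMap.pi_apply_eq_sum_univ`). Put
`P p = u (S.rep p)`: `NInv S P` (`rep_nxt`), `P r.1 = u r` (`rep_rep`), so `f y = pr S y P`. `Cyc P`: for a dart `x` take
`ε = Pi.single (erep x) 1`: `0 = pr S (dl S ε) P = ∑ p : Flag G, pull ε p * P p` (`sum_rep` and `NInv`), which is the sum of `P`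
over the four flags `(x, true)`, `(x, false)`, `(x.symm, true)`, `(x.symm, false)` (the flags `p` with `erep p.1 = erep x`). So
`P` is in `Ch S` and `pr S x P = f x ≠ 0`, contradiction.
`exists_odd`: otherwise `pr S (bad S κ) Q = 0` for all `Q` in `Ch S` (`f2_cases`), so `bad S κ = dl S ε`; then
`κ' p = κ p + pull ε p` is a band orientation without bad corners (see the proof of `lower_bounds`, Helper58/OG/Lw), so
`S` is orientable (for a flag `p` use the corner `S.rep p`).
-/

set_option autoImplicit false

open Finset

namespace Pool.Agent.EXG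

open Pool.Agent.Helper35.OG Pool.Agent.Helper58.OG

variable {V : Type} [Fintype V] [DecidableEq V] {G : SimpleGraph V} [DecidableRel G.Adj]
variable (S : GMap G)

/-- the pairing of the pull-back of a function on the edges with a function on the flags -/
private theorem sum_pull (ε : ERep G → F2) (P : Flag G → F2) :
    ∑ p : Flag G, pull ε p * P p =
      ∑ e : ERep G, ε e * ((P (e.1, true) + P (e.1, false)) + (P (e.1.symm, true) + P (e.1.symm, false))) := by
  rw [Fintype.sum_prod_type]
  have h1 : ∀ d : G.Dart, ∑ b : Bool, pull ε (d, b) * P (d, b) = ε (erep d) * (P (d, true) + P (d, false)) := by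
    intro d
    rw [Fintype.sum_bool, mul_add]
    rfl
  rw [Finset.sum_congr rfl (fun d _ => h1 d),
    sum_half (fun x : G.Dart => x.symm) (fun x => x.symm_symm) symm_ne dord dord_inj]
  apply Finset.sum_congr rfl
  intro e _
  rw [erep_symm, erep_rep]
  ring

theorem dual (x : S.Rep → F2) (h : ∀ P, Ch S P → pr S x P = 0) : x ∈ LinearMap.range (dl S) := by
  classical
  by_contra hx
  obtain ⟨f, hf1, hf2⟩ := Submodule.exists_dual_map_eq_bot_of_notMem hx inferInstance
  have hf3 : ∀ ε : ERep G → F2, f (dl S ε) = 0 := by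
    intro ε
    have h1 : f (dl S ε) ∈ (LinearMap.range (dl S)).map f := Submodule.mem_map_of_mem ⟨ε, rfl⟩
    rw [hf2] at h1
    exact (Submodule.mem_bot F2).1 h1
  let u : S.Rep → F2 := fun r => f (fun j => if r = j then 1 else 0)
  have hu : ∀ y : S.Rep → F2, f y = ∑ r, y r * u r := by
    intro y
    exact LinearMap.pi_apply_eq_sum_univ f y
  let P : Flag G → F2 := fun p => u (S.rep p)
  have hN : NInv S P := by
    intro p
    show u (S.rep (S.nxt p)) = u (S.rep p)
    rw [rep_nxt]
  have hPr : ∀ r : S.Rep, P r.1 = u r := by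
    intro r
    show u (S.rep r.1) = u r
    rw [rep_rep]
  have hpr : ∀ y : S.Rep → F2, pr S y P = f y := by
    intro y
    rw [hu]
    unfold pr
    exact Finset.sum_congr rfl (fun r _ => by rw [hPr])
  have hsum : ∀ ε : ERep G → F2, ∑ p : Flag G, pull ε p * P p = 0 := by
    intro ε
    rw [← hf3 ε, ← hpr, sum_rep S]
    unfold pr
    apply Finset.sum_congr rfl
    intro r _
    rw [hN r.1]
    show _ = (pull ε r.1 + pull ε (S.nxt r.1)) * P r.1
    ring
  have hg : ∀ d : G.Dart, (P (d, true) + P (d, false)) + (P (d.symm, true) + P (d.symm, false)) = 0 := by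
    intro d
    have h1 := hsum (Pi.single (erep d) 1)
    rw [sum_pull, Finset.sum_eq_single (erep d) (fun e _ he => by rw [Pi.single_eq_of_ne he, zero_mul])
      (fun hne => absurd (Finset.mem_univ _) hne), Pi.single_eq_same, one_mul] at h1
    rcases erep_eq d with h2 | h2
    · rw [h2] at h1
      exact h1
    · rw [h2, d.symm_symm, add_comm] at h1
      exact h1
  have hC : Cyc P := by
    rintro ⟨d, b⟩
    have h1 := hg d
    have h2 : P (d.symm, true) + P (d.symm, false) = P (d, true) + P (d, false) := by
      calc P (d.symm, true) + P (d.symm, false) =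
          ((P (d, true) + P (d, false)) + (P (d.symm, true) + P (d.symm, false))) + (P (d, true) + P (d, false)) := by
            rw [add_comm (P (d, true) + P (d, false)) _, add_assoc, f2_add_self, add_zero]
        _ = P (d, true) + P (d, false) := by rw [h1, zero_add]
    cases b
    · show P (d.symm, true) + P (d.symm, false) = P (d, false) + P (d, true)
      rw [h2, add_comm]
    · show P (d.symm, false) + P (d.symm, true) = P (d, true) + P (d, false)
      rw [← h2, add_comm]
  exact hf1 (by rw [← hpr]; exact h P ⟨hN, hC⟩)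

theorem bad_notMem (hS : ¬ S.Orientable) {κ : Flag G → F2} (hκ : IsBand κ) : bad S κ ∉ LinearMap.range (dl S) := by
  rintro ⟨ε, hε⟩
  apply hS
  let κ' : Flag G → F2 := fun p => κ p + pull ε p
  have hκ' : IsBand κ' := by
    intro p
    constructor
    · intro h
      have h2 : κ (across p) + pull ε (across p) = κ p + pull ε p := h
      rw [pull_across] at h2
      exact (hκ p).1 (add_right_cancel h2)
    · intro h
      have h2 : κ (side p) + pull ε (side p) = κ p + pull ε p := h
      rw [pull_side] at h2
      exact (hκ p).2 (add_right_cancel h2)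
  have hbad : ∀ r : S.Rep, κ' (S.nxt r.1) ≠ κ' r.1 := by
    intro r hr
    have h1 := (bad_eq_one S).2 hr
    have h2 : pull ε r.1 + pull ε (S.nxt r.1) = bad S κ r := congrFun hε r
    have h3 : bad S κ' r = 0 := by
      show 1 + (κ r.1 + pull ε r.1) + (κ (S.nxt r.1) + pull ε (S.nxt r.1)) = 0
      calc 1 + (κ r.1 + pull ε r.1) + (κ (S.nxt r.1) + pull ε (S.nxt r.1)) =
          bad S κ r + (pull ε r.1 + pull ε (S.nxt r.1)) := by unfold bad; ring
        _ = 0 := by rw [h2]; exact f2_add_self _
    rw [h3] at h1
    exact zero_ne_one h1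
  refine ⟨κ', hκ', fun p hp => ?_⟩
  rcases rep_eq S p with h | h
  · apply hbad (S.rep p)
    rw [h]
    exact hp
  · apply hbad (S.rep p)
    rw [h, S.nxt_nxt]
    exact hp.symm

theorem exists_odd (hS : ¬ S.Orientable) {κ : Flag G → F2} (hκ : IsBand κ) :
    ∃ Q, Ch S Q ∧ pr S (bad S κ) Q = 1 := by
  by_contra hcon
  push Not at hcon
  apply bad_notMem S hS hκ
  apply dual
  intro P hP
  rcases f2_cases (pr S (bad S κ) P) with h | h
  · exact h
  · exact absurd h (hcon P hP)

end Pool.Agent.EXG
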