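import Pool.Agent.Helper35.OG.Reduce
import Pool.Agent.Helper35.OG.Lower
import Pool.Agent.Helper58.OG.Lw
import Pool.Agent.Helper58.OG.Up

/-!
# EXG: exact orientable genus under a gap condition. Definitions for the proofs.

`X` is the type of the points (faces of `S`), `E` the type of the edges (arcs), `a e`, `b e` the ends of `e`, `lam` the
set of the edges of the graph. `bd`, `dg`, `vts`, `ind`, `supp`, `par` are in Helper35/OG/{Multi, Reduce}; `InKer`, `qq`,
`pol` in Helper58/OG/Ker.
-/

set_option autoImplicit false

open Finset

namespace Pool.Agent.EXG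

open Pool.Agent.Helper35.OG Pool.Agent.Helper58.OG

section graphs

variable {X E : Type} [Fintype X] [DecidableEq X] [Fintype E] [DecidableEq E] (a b : E → X)

/-- The kernel of the adjacency matrix of `lam`. -/
def kerA (lam : Finset E) : Submodule F2 (X → F2) where
  carrier := {A | InKer a b lam A}
  add_mem' := by
    intro A B hA hB
    exact inKer_add a b hA hB
  zero_mem' := inKer_zero a b lam
  smul_mem' := by
    intro r A hA v
    have h := hA v
    show ∑ u, adj a b lam v u * (r * A u) = 0
    calc ∑ u, adj a b lam v u * (r * A u) = r * ∑ u, adj a b lam v u * A u := by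
          rw [Finset.mul_sum]
          exact Finset.sum_congr rfl (fun u _ => by ring)
      _ = 0 := by rw [h, mul_zero]

theorem mem_kerA {lam : Finset E} {A : X → F2} : A ∈ kerA a b lam ↔ InKer a b lam A := Iff.rfl

/-- `lam` has no loops and no parallel edges. -/
def Simp (lam : Finset E) : Prop :=
  (∀ e ∈ lam, a e ≠ b e) ∧ ∀ e ∈ lam, ∀ e' ∈ lam, par a b e e' → e = e'

/-- `R` has even degree at every point outside `U`. -/
def EvenOff (U : Finset X) (R : Finset E) : Prop := ∀ v, v ∉ U → bd a b (ind R) v = 0

/-- `R` is a circuit of the graph in which the points of `U` are identified. -/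
def Circ (U : Finset X) (R : Finset E) : Prop :=
  R.Nonempty ∧ EvenOff a b U R ∧ ∀ D ⊆ R, EvenOff a b U D → D = ∅ ∨ D = R

/-- The points outside `U` which are joined to `U` by an edge of `lam`. -/
def nearU (lam : Finset E) (U W : Finset X) : Finset X :=
  W.filter fun v => ∃ e ∈ lam, (a e = v ∧ b e ∈ U) ∨ (b e = v ∧ a e ∈ U)

variable {H : Type} [AddCommGroup H] [Module F2 H] (c : (E → F2) →ₗ[F2] H)

/-- First width condition: even sets of class `ω` have at least `N` points. -/
def W1 (lam : Finset E) (ω : H) (N : ℕ) : Prop :=
  ∀ mu ⊆ lam, bd a b (ind mu) = 0 → c (ind mu) = ω → N ≤ (vts a b mu).card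

/-- Second width condition: two even sets of nonzero classes with sum `ω` have together at least `N + g` points. -/
def W2 (lam : Finset E) (ω : H) (Ng : ℕ) : Prop :=
  ∀ mu ⊆ lam, ∀ nu ⊆ lam, bd a b (ind mu) = 0 → bd a b (ind nu) = 0 → c (ind mu) ≠ 0 → c (ind nu) ≠ 0 →
    c (ind mu) + c (ind nu) = ω → Ng ≤ (vts a b mu).card + (vts a b nu).card

end graphs

section maps

variable {V : Type} [Fintype V] [DecidableEq V] {G : SimpleGraph V} [DecidableRel G.Adj]

/-- The boundary of `P` (a function on the darts) comes from a set of edges. -/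
def Cyc (P : Flag G → F2) : Prop := ∀ p, P (across p) + P (side (across p)) = P p + P (side p)

/-- The corner chains of `S` whose boundary is a cycle of the graph. -/
def Ch (S : GMap G) (P : Flag G → F2) : Prop := NInv S P ∧ Cyc P

/-- The intersection form of a map on its chains. -/
noncomputable def qe (P Q : Flag G → F2) : F2 :=
  ∑ e : ERep G, (Q (e.1, true) + Q (e.1, false)) * (P (e.1, true) + P (across (e.1, true)))

variable (S T : GMap G)

/-- The value of a chain across an arc. -/
noncomputable def xx (P : Flag G → F2) (j : Arc S T) : F2 := P (a0 S T j).1 + P (b0 S T j).1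

/-- The pairing of a function on the corners with a chain. -/
noncomputable def pr (x : S.Rep → F2) (P : Flag G → F2) : F2 := ∑ r : S.Rep, x r * P r.1

/-- The number of faces met by a set of corners. -/
noncomputable def nf (x : S.Rep → F2) : ℕ :=
  (Finset.univ.filter fun f : S.Face => ∃ r : S.Rep, S.face r.1 = f ∧ x r ≠ 0).card

/-- The result of the cleaning: a simple set of arcs with the same adjacencies, the same class and the same form. -/
structure Clean (lam : Finset (Arc S T)) : Prop where
  simp : Simp (fa S T) (fb S T) lam
  adj_eq : ∀ f g, adj (fa S T) (fb S T) lam f g = adj (fa S T) (fb S T) Finset.univ f g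
  bd_eq : bd (fa S T) (fb S T) (ind lam) = 0
  cls_eq : cls S T (ind lam) = cls S T (ind Finset.univ)
  hf_eq : ∀ P Q : Flag G → F2, Ch S P → Ch S Q → hf T P Q = ∑ j ∈ lam, xx S T P j * xx S T Q j

end maps

end Pool.Agent.EXG
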