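import Pool.Agent.EXG.Asm
import Pool.Agent.Helper35.OG.Parity

/-!
# EXG-Main: the exact orientable genus (assembly)
-/

set_option autoImplicit false

namespace Pool.Agent.EXG

open Pool.Agent.Helper35.OG Pool.Agent.Helper58.OG

theorem main {V : Type} [Finite V] [Nontrivial V] (G : SimpleGraph V) (hG : G.Connected) (S : GMap G)
    (hS : ¬ S.Orientable) (h3 : 3 ≤ faceDefect S)
    (hgap : S.eg = 1 ∨ SplitWidth S ((faceDefect S : ℤ) + 4 * S.eg + 9)) :
    (∃ M : GMap G, M.Orientable ∧ M.eg = 2 * (orientableGenus G : ℤ)) ∧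
      (orientableGenus G : ℤ) = ((faceDefect S : ℤ) + S.eg - 1) / 2 := by
  classical
  have := Fintype.ofFinite V
  -- an orientable map has even nonnegative Euler genus
  have hnat : ∀ M : GMap G, M.Orientable → ∃ g : ℕ, M.eg = 2 * (g : ℤ) := by
    intro M hM
    obtain ⟨g, hg⟩ := even_eg hG M hM
    have h0 : ((([] : List (M.Face × M.Face)).length : ℕ) : ℤ) ≤ M.eg :=
      tri_bound M M hG [] (by intro p hp; simp at hp) List.Pairwise.nil
    have h1 : (0 : ℤ) ≤ M.eg := h0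
    refine ⟨g.toNat, ?_⟩
    omega
  obtain ⟨T, hT, hTeg⟩ := upper_bound S hS
  obtain ⟨g, hg⟩ := hnat T hT
  have hmem : orientableGenus G ∈ {g : ℕ | ∃ M : GMap G, M.Orientable ∧ M.eg = 2 * (g : ℤ)} :=
    Nat.sInf_mem ⟨g, T, hT, hg⟩
  have hle : orientableGenus G ≤ g := Nat.sInf_le ⟨T, hT, hg⟩
  obtain ⟨M, hM, hMeg⟩ := hmem
  have hrep : GapRep S ((faceDefect S : ℤ) + 4 * S.eg + 9) := by
    rcases hgap with h | h
    · exact gap_one S hG hS h _
    · exact gap_rep S h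
  have hlow := lower_exact hG S M hM hS h3 hrep
  refine ⟨⟨M, hM, hMeg⟩, ?_⟩
  omega

end Pool.Agent.EXG
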