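import Pool.Agent.EXG.KDim

/-!
# EXG-QFb (theorem `qf_one`): a quadratic form on the kernel of the adjacency matrix

Let `Q A = φ (qq lam A)`, a quadratic form on `kerA` with polar form `J A B = φ (pol lam A B)` (`qq_add`, `pol_sum` in
Helper58/OG/Ker). `Q 1 = φ (ind lam) = 1` (`qq lam 1 = ind lam`). `hN` says: `Q A = 0` if `A` is supported on fewer than `N`
points.

PLAN. `exists_basis` (Helper58/OG/Ker) gives `B` and kernel vectors `a_x = A x` (`x ∉ B`), `a_x` supported on `B ∪ {x}`,
`a_x = 0` for `x ∈ B`; `basis_card`: `B.card + finrank = card X`. As in `lemmaP` (same file): `1 = ∑_x a_x`.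
Both statements are proved by contradiction.

`qf_two`: suppose `B.card + 3 ≤ N`. Then `Q (a_x) = 0` (support `≤ B.card + 1 < N`) and `Q (a_x + a_y) = 0` (support
`≤ B.card + 2 < N`), so `J (a_x) (a_y) = 0` (`qq_add`) for all `x, y`. By induction on a finset `s` (as in `qq_sum_mem`,
Helper58/OG/Ker) `Q (∑_{x ∈ s} a_x) = 0`. So `Q 1 = 0`, contradiction.

`qf_one`: suppose `B.card + 2 ≤ N`. `Q (a_x) = 0` as before. Choose a point `b0`: if `B` is nonempty `b0 ∈ B`, otherwise
any `b0` (if `X` is empty then `ind lam = 0` as `lam` is empty, contradiction). For `x ≠ y` not in `B` with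
`a_x b0 = a_y b0`: the sum `a_x + a_y` vanishes at `b0`, so (case `b0 ∈ B`) its support is in `(B \ {b0}) ∪ {x, y}`, of at most
`B.card + 1 < N` points, and in the case `B = ∅` the support has at most `2 < 3 ≤ N` points in any case; so
`Q (a_x + a_y) = 0` and `J (a_x) (a_y) = 0`. (For `x = y`: `J A A = φ (2 ...) = 0`: `pol lam A A = 0` in characteristic 2.) Let
`A1 = ∑_{x ∉ B, a_x b0 = 1} a_x`, `A0 = ∑_{x ∉ B, a_x b0 = 0} a_x`: `1 = A1 + A0`, `Q A1 = Q A0 = 0` by induction
(all the polar terms vanish), `Q 1 = Q A1 + Q A0 + J A1 A0 = J A1 A0 = J A1 1 + J A1 A1 = 0` by `hpol` and `pol lam A A = 0`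
(`J` is additive in the second variable: `pol_sum` or directly). Contradiction. (If `B = ∅` all `J (a_x) (a_y)` vanish, the same
computation works.)
-/

set_option autoImplicit false

open Finset

namespace Pool.Agent.EXG

open Pool.Agent.Helper35.OG Pool.Agent.Helper58.OG

variable {X E : Type} [Fintype X] [DecidableEq X] [Fintype E] [DecidableEq E] (a b : E → X)

private theorem pol_self (lam : Finset E) (A : X → F2) : pol a b lam A A = 0 := by
  funext e
  show ind lam e * (A (a e) * A (b e) + A (a e) * A (b e)) = 0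
  rw [f2_add_self, mul_zero]

theorem qf_one (lam : Finset E) (hlam : bd a b (ind lam) = 0) (φ : (E → F2) →ₗ[F2] F2) (hφ : φ (ind lam) = 1) (N : ℕ)
    (hN : ∀ A : X → F2, InKer a b lam A → φ (qq a b lam A) = 1 → N ≤ (supp A).card) (h3 : 3 ≤ N)
    (hpol : ∀ A : X → F2, InKer a b lam A → φ (pol a b lam A (fun _ => 1)) = 0) :
    Module.finrank F2 (kerA a b lam) + N ≤ Fintype.card X + 1 := by
  classical
  by_contra hcon
  obtain ⟨B, hB, A, hA⟩ := exists_basis a b lam
  have hcard := basis_card a b lam B hB A (fun x => ⟨(hA x).1, (hA x).2.1, (hA x).2.2.2⟩)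
  have hBN : B.card + 2 ≤ N := by omega
  have hsmall : ∀ D : X → F2, InKer a b lam D → (supp D).card < N → φ (qq a b lam D) = 0 := by
    intro D hD hc
    rcases f2_cases (φ (qq a b lam D)) with h | h
    · exact h
    · exact absurd (hN D hD h) (by omega)
  have hQ : ∀ x, φ (qq a b lam (A x)) = 0 := by
    intro x
    apply hsmall _ (hA x).1
    have hsub : supp (A x) ⊆ insert x B := by
      intro y hy
      rw [mem_supp] at hy
      by_contra h
      rw [Finset.mem_insert, not_or] at h
      exact hy ((hA x).2.2.2 y h.2 h.1)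
    have h1 := Finset.card_le_card hsub
    have h2 := Finset.card_insert_le x B
    omega
  have hb : ∃ b0 : X, ∀ x, x ∉ B → ∀ y, y ∉ B → A x b0 = A y b0 →
      φ (qq a b lam (fun z => A x z + A y z)) = 0 := by
    by_cases hBe : B.Nonempty
    · obtain ⟨b0, hb0⟩ := hBe
      refine ⟨b0, fun x hx y hy hxy => ?_⟩
      apply hsmall _ (inKer_add a b (hA x).1 (hA y).1)
      have hsub : supp (fun z => A x z + A y z) ⊆ insert x (insert y (B.erase b0)) := by
        intro z hz
        rw [mem_supp] at hz
        by_contra h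
        rw [Finset.mem_insert, Finset.mem_insert, not_or, not_or, Finset.mem_erase, not_and_or,
          not_not] at h
        obtain ⟨h1, h2, h3⟩ := h
        apply hz
        rcases h3 with h3 | h3
        · rw [h3, hxy, f2_add_self]
        · rw [(hA x).2.2.2 z h3 h1, (hA y).2.2.2 z h3 h2, add_zero]
      have h1 := Finset.card_le_card hsub
      have h2 := Finset.card_insert_le x (insert y (B.erase b0))
      have h3 := Finset.card_insert_le y (B.erase b0)
      have h4 := Finset.card_erase_add_one hb0
      omega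
    · rw [Finset.not_nonempty_iff_eq_empty] at hBe
      have hX : Nonempty X := by
        by_contra hX
        rw [not_nonempty_iff] at hX
        have h0 : ind lam = 0 := by
          funext e
          exact (hX.false (a e)).elim
        rw [h0, map_zero] at hφ
        exact zero_ne_one hφ
      obtain ⟨b0⟩ := hX
      refine ⟨b0, fun x hx y hy hxy => ?_⟩
      apply hsmall _ (inKer_add a b (hA x).1 (hA y).1)
      have hsub : supp (fun z => A x z + A y z) ⊆ {x, y} := by
        intro z hz
        rw [mem_supp] at hz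
        by_contra h
        rw [Finset.mem_insert, Finset.mem_singleton, not_or] at h
        have h3 : z ∉ B := by rw [hBe]; exact Finset.notMem_empty z
        exact hz (by rw [(hA x).2.2.2 z h3 h.1, (hA y).2.2.2 z h3 h.2, add_zero])
      have h1 := Finset.card_le_card hsub
      have h2 : ({x, y} : Finset X).card ≤ 2 := Finset.card_le_two
      omega
  obtain ⟨b0, hb0⟩ := hb
  have hJ : ∀ x, x ∉ B → ∀ y, y ∉ B → A x b0 = A y b0 → φ (pol a b lam (A x) (A y)) = 0 := by
    intro x hx y hy hxy
    have h := hb0 x hx y hy hxy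
    rw [qq_add, map_add, map_add, hQ x, hQ y, zero_add, zero_add] at h
    exact h
  have hsum : ∀ (t : F2) (s : Finset X), (∀ x ∈ s, x ∉ B ∧ A x b0 = t) →
      φ (qq a b lam (fun z => ∑ x ∈ s, A x z)) = 0 := by
    intro t s
    induction s using Finset.induction_on with
    | empty =>
      intro _
      have h1 : qq a b lam (fun y => ∑ x ∈ (∅ : Finset X), A x y) = 0 := by
        funext e
        show ind lam e * ((∑ x ∈ (∅ : Finset X), A x (a e)) * (∑ x ∈ (∅ : Finset X), A x (b e))) = 0
        rw [Finset.sum_empty, zero_mul, mul_zero]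
      rw [h1, map_zero]
    | insert x s hx ih =>
      intro h
      have h1 : (fun y => ∑ z ∈ insert x s, A z y) = fun y => A x y + ∑ z ∈ s, A z y := by
        funext y
        rw [Finset.sum_insert hx]
      rw [h1, qq_add, map_add, map_add, pol_sum, map_sum, hQ x,
        ih (fun z hz => h z (Finset.mem_insert_of_mem hz)), zero_add, zero_add]
      apply Finset.sum_eq_zero
      intro z hz
      have h2 := h x (Finset.mem_insert_self x s)
      have h3 := h z (Finset.mem_insert_of_mem hz)
      exact hJ x h2.1 z h3.1 (h2.2.trans h3.2.symm)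
  -- the two halves
  set S1 : Finset X := univ.filter fun x => x ∉ B ∧ A x b0 = 1 with hS1
  set S0 : Finset X := univ.filter fun x => x ∉ B ∧ A x b0 = 0 with hS0
  have hQ1 := hsum 1 S1 (fun x hx => (Finset.mem_filter.1 hx).2)
  have hQ0 := hsum 0 S0 (fun x hx => (Finset.mem_filter.1 hx).2)
  have hone : (fun _ : X => (1 : F2)) = fun y => ∑ x, A x y := by
    have h1 := hB (fun y => 1 + ∑ x, A x y) (inKer_add a b (inKer_one a b hlam)
      (inKer_sum a b Finset.univ (fun x _ => (hA x).1))) (by
        intro y hy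
        rw [Finset.sum_eq_single y, (hA y).2.1 hy]
        · rfl
        · intro x _ hxy
          exact (hA x).2.2.2 y hy hxy.symm
        · intro h; exact absurd (Finset.mem_univ _) h)
    funext y
    have h2 : 1 + ∑ x, A x y = 0 := congrFun h1 y
    calc (1 : F2) = 1 + (∑ x, A x y + ∑ x, A x y) := by rw [f2_add_self, add_zero]
      _ = (1 + ∑ x, A x y) + ∑ x, A x y := by ring
      _ = ∑ x, A x y := by rw [h2, zero_add]
  have hsplit : (fun _ : X => (1 : F2)) = fun y => (fun y => ∑ x ∈ S1, A x y) y +
      (fun y => ∑ x ∈ S0, A x y) y := by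
    rw [hone]
    funext y
    show ∑ x, A x y = ∑ x ∈ S1, A x y + ∑ x ∈ S0, A x y
    rw [hS1, hS0, Finset.sum_filter, Finset.sum_filter, ← Finset.sum_add_distrib]
    apply Finset.sum_congr rfl
    intro x _
    by_cases hx : x ∈ B
    · rw [if_neg (fun h => h.1 hx), if_neg (fun h => h.1 hx), (hA x).2.2.1 hx, add_zero]
    · rcases f2_cases (A x b0) with h | h
      · rw [if_neg (fun h' => zero_ne_one (h.symm.trans h'.2)), if_pos ⟨hx, h⟩, zero_add]
      · rw [if_pos ⟨hx, h⟩, if_neg (fun h' => one_ne_zero (h.symm.trans h'.2)), add_zero]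
  have hk1 : InKer a b lam (fun y => ∑ x ∈ S1, A x y) := inKer_sum a b S1 (fun x _ => (hA x).1)
  have hp : φ (pol a b lam (fun y => ∑ x ∈ S1, A x y) (fun y => ∑ x ∈ S0, A x y)) = 0 := by
    have h1 := hpol _ hk1
    rw [hsplit] at h1
    have h2 : pol a b lam (fun y => ∑ x ∈ S1, A x y) (fun y => (fun y => ∑ x ∈ S1, A x y) y +
        (fun y => ∑ x ∈ S0, A x y) y) = pol a b lam (fun y => ∑ x ∈ S1, A x y)
        (fun y => ∑ x ∈ S1, A x y) + pol a b lam (fun y => ∑ x ∈ S1, A x y)
        (fun y => ∑ x ∈ S0, A x y) := by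
      funext e
      rw [Pi.add_apply]
      unfold pol
      ring
    rw [h2, pol_self, zero_add] at h1
    exact h1
  have hfin : φ (ind lam) = 0 := by
    have h1 : ind lam = qq a b lam (fun _ => 1) := by
      funext e
      show ind lam e = ind lam e * (1 * 1)
      rw [mul_one, mul_one]
    rw [h1, hsplit, qq_add, map_add, map_add, hQ1, hQ0, hp, add_zero, add_zero]
  rw [hfin] at hφ
  exact zero_ne_one hφ

end Pool.Agent.EXG
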