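import Pool.Agent.EXG.CaseA
import Pool.Agent.EXG.QF

/-!
# EXG-CaseD: the rank of the adjacency matrix

PLAN. Common lemma (private): if `InKer lam A` then `ν = supp (qq lam A)` is an even subset of `lam` (`ind_supp`, `bd_qq`;
`qq lam A e ≠ 0` implies `e ∈ lam`, `A (fa e) ≠ 0`, `A (fb e) ≠ 0`), so its class is `0` or `cls (ind univ)`; in the second case
`W1` gives `N ≤ (vts ν).card ≤ (supp A).card` (`vts ν ⊆ supp A` by `dg_pos`).

`rank_two`: `cls (ind univ) ≠ 0`, so there is a linear functional `θ` on the quotient with `θ (cls (ind univ)) = 1`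
(`Submodule.exists_dual_map_eq_bot_of_notMem` for `⊥`, or `Module.exists_dual_forall_apply_eq_zero_iff` / a basis argument).
Apply `qf_two` to `φ = θ ∘ cls`: `φ (ind lam) = 1` (`Clean.cls_eq`); `φ (qq A) = 1` implies that the class is not `0`.

`case_odd`: apply `qf_one` to `φ u = ∑ j, u j * xx S T P j`. `φ (ind lam) = φ (ind univ)` (`sum_cls`, `Clean.cls_eq`)
`= pr S (tt (ind univ)) P = pr S (bad S κ) P = 1` (`pr_tt`, `tt_univ`). If `φ (qq A) = 1` then the class of `qq A` is not `0`
(`sum_cls` with `u' = 0`), so it is `cls (ind univ)` and the common lemma applies. `φ (pol lam A 1) =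
∑ j ∈ lam, (A (fa j) + A (fb j)) * xx P j = hf T (A ∘ face) P` (`Clean.hf_eq`, `ch_fac`, `xx_fac`) `= hf T P (A ∘ face)`
(`hf_symm`) `= qe P (A ∘ face)` (`qe_face`) `= qe (A ∘ face) P = 0` (`qe_symm`, `qe_fac`).
-/

set_option autoImplicit false

open Finset

namespace Pool.Agent.EXG

open Pool.Agent.Helper35.OG Pool.Agent.Helper58.OG

variable {V : Type} [Fintype V] [DecidableEq V] {G : SimpleGraph V} [DecidableRel G.Adj]
variable (S T : GMap G)

private theorem width_of {lam : Finset (Arc S T)}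
    (h01 : ∀ ν ⊆ lam, bd (fa S T) (fb S T) (ind ν) = 0 →
      cls S T (ind ν) = 0 ∨ cls S T (ind ν) = cls S T (ind Finset.univ)) {N : ℕ}
    (hN : W1 (fa S T) (fb S T) (cls S T) lam (cls S T (ind Finset.univ)) N) {A : S.Face → F2}
    (hA : InKer (fa S T) (fb S T) lam A) (hne : cls S T (qq (fa S T) (fb S T) lam A) ≠ 0) :
    N ≤ (supp A).card := by
  have hs : supp (qq (fa S T) (fb S T) lam A) ⊆ lam := by
    intro e he
    rw [mem_supp] at he
    by_contra hc
    apply he
    show ind lam e * _ = 0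
    rw [show ind lam e = 0 from if_neg hc, zero_mul]
  have hi := ind_supp (qq (fa S T) (fb S T) lam A)
  have hb := bd_qq (fa S T) (fb S T) hA
  have h1 := h01 _ hs (by rw [hi]; exact hb)
  rw [hi] at h1
  have h2 := h1.resolve_left hne
  have h3 := hN _ hs (by rw [hi]; exact hb) (by rw [hi]; exact h2)
  refine h3.trans (Finset.card_le_card ?_)
  intro v hv
  rw [mem_vts] at hv
  obtain ⟨e, he, hev⟩ := dg_pos _ _ hv
  rw [mem_supp] at he ⊢
  intro h0
  apply he
  show ind lam e * (A (fa S T e) * A (fb S T e)) = 0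
  rcases hev with hev | hev
  · rw [hev, h0, zero_mul, mul_zero]
  · rw [hev, h0, mul_zero, mul_zero]

theorem rank_two {lam : Finset (Arc S T)} (hc : Clean S T lam)
    (h01 : ∀ ν ⊆ lam, bd (fa S T) (fb S T) (ind ν) = 0 →
      cls S T (ind ν) = 0 ∨ cls S T (ind ν) = cls S T (ind Finset.univ))
    (hω : cls S T (ind Finset.univ) ≠ 0) {N : ℕ}
    (hN : W1 (fa S T) (fb S T) (cls S T) lam (cls S T (ind Finset.univ)) N) :
    Module.finrank F2 (kerA (fa S T) (fb S T) lam) + N ≤ Fintype.card S.Face + 2 := by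
  classical
  have h1 : ∃ θ : Module.Dual F2 ((S.Rep → F2) ⧸ LinearMap.range (dl S)), θ (cls S T (ind Finset.univ)) ≠ 0 := by
    by_contra h
    push Not at h
    exact hω ((Module.forall_dual_apply_eq_zero_iff F2 _).1 h)
  obtain ⟨θ, hθ⟩ := h1
  have hθ1 : θ (cls S T (ind Finset.univ)) = 1 := (f2_cases _).resolve_left hθ
  refine qf_two (fa S T) (fb S T) lam hc.bd_eq (θ.comp (cls S T)) ?_ N ?_
  · show θ (cls S T (ind lam)) = 1
    rw [hc.cls_eq]
    exact hθ1
  · intro A hA h2
    refine width_of S T h01 hN hA ?_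
    intro h3
    have h4 : θ (cls S T (qq (fa S T) (fb S T) lam A)) = 1 := h2
    rw [h3, map_zero] at h4
    exact zero_ne_one h4

theorem case_odd {lam : Finset (Arc S T)} (hc : Clean S T lam)
    (h01 : ∀ ν ⊆ lam, bd (fa S T) (fb S T) (ind ν) = 0 →
      cls S T (ind ν) = 0 ∨ cls S T (ind ν) = cls S T (ind Finset.univ)) {N : ℕ} (h3 : 3 ≤ N)
    (hN : W1 (fa S T) (fb S T) (cls S T) lam (cls S T (ind Finset.univ)) N)
    {κ : Flag G → F2} (hκ : IsBand κ) (hκT : ∀ p, κ (T.nxt p) ≠ κ p) {P : Flag G → F2} (hP : Ch S P)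
    {B : T.Face → F2} (hL : IsLift T P (fun p => B (T.face p))) (hw : pr S (bad S κ) P = 1) :
    Module.finrank F2 (kerA (fa S T) (fb S T) lam) + N ≤ Fintype.card S.Face + 1 := by
  classical
  let φ : (Arc S T → F2) →ₗ[F2] F2 :=
    { toFun := fun u => ∑ j, u j * xx S T P j
      map_add' := by
        intro u v
        rw [← Finset.sum_add_distrib]
        exact Finset.sum_congr rfl (fun j _ => by rw [Pi.add_apply, add_mul])
      map_smul' := by
        intro r u
        rw [RingHom.id_apply, smul_eq_mul, Finset.mul_sum]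
        exact Finset.sum_congr rfl (fun j _ => by rw [Pi.smul_apply, smul_eq_mul, mul_assoc]) }
  refine qf_one (fa S T) (fb S T) lam hc.bd_eq φ ?_ N ?_ h3 ?_
  · show ∑ j, ind lam j * xx S T P j = 1
    rw [sum_cls S T hc.cls_eq hP, ← pr_tt, tt_univ S T hκ hκT]
    exact hw
  · intro A hA h2
    refine width_of S T h01 hN hA ?_
    intro h4
    have h5 : ∑ j, qq (fa S T) (fb S T) lam A j * xx S T P j = 1 := h2
    have h6 : cls S T (qq (fa S T) (fb S T) lam A) = cls S T 0 := by rw [h4, map_zero]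
    rw [sum_cls S T h6 hP] at h5
    simp at h5
  · intro A hA
    have hA1 : Ch S (fun p => A (S.face p)) := ch_fac S A
    have h5 : φ (pol (fa S T) (fb S T) lam A (fun _ => 1)) =
        ∑ j ∈ lam, xx S T (fun p => A (S.face p)) j * xx S T P j := by
      show ∑ j, ind lam j * (A (fa S T j) * 1 + 1 * A (fb S T j)) * xx S T P j = _
      rw [← Finset.sum_filter_add_sum_filter_not Finset.univ (fun j => j ∈ lam)]
      have h6 : ∑ j ∈ Finset.univ.filter (fun j => ¬ j ∈ lam),
          ind lam j * (A (fa S T j) * 1 + 1 * A (fb S T j)) * xx S T P j = 0 := by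
        apply Finset.sum_eq_zero
        intro j hj
        rw [Finset.mem_filter] at hj
        rw [show ind lam j = 0 from if_neg hj.2, zero_mul, zero_mul]
      rw [h6, add_zero, Finset.filter_mem_eq_inter, Finset.univ_inter]
      apply Finset.sum_congr rfl
      intro j hj
      rw [show ind lam j = 1 from if_pos hj, one_mul, mul_one, one_mul]
      rfl
    rw [h5, ← hc.hf_eq _ _ hA1 hP, hf_symm S T hA1.1 hP.1, ← qe_face S T hP hA1 hL, qe_symm S hP hA1]
    exact qe_fac S A

end Pool.Agent.EXG
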