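import Pool.Agent.EXG.Base

/-!
# EXG-Cnt: counting the faces of `T` by the kernel
-/

set_option autoImplicit false

open Finset

namespace Pool.Agent.EXG

open Pool.Agent.Helper35.OG Pool.Agent.Helper58.OG

variable {V : Type} [Fintype V] [DecidableEq V] {G : SimpleGraph V} [DecidableRel G.Adj]
variable (S T : GMap G)

/-- the difference of a function on the faces across the edges -/
private def cntD (T : GMap G) : (T.Face → F2) →ₗ[F2] (Flag G → F2) where
  toFun B p := B (T.face p) + B (T.face (side p))
  map_add' x y := by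
    funext p
    show x _ + y _ + (x _ + y _) = x _ + x _ + (y _ + y _)
    ring
  map_smul' c x := by
    funext p
    show c * x _ + c * x _ = c * (x _ + x _)
    ring

/-- the functions that are constant -/
private def cntC (Y : Type) : Submodule F2 (Y → F2) where
  carrier := {w | ∀ y y', w y = w y'}
  add_mem' := by
    intro a b ha hb y y'
    show a y + b y = a y' + b y'
    rw [ha y y', hb y y']
  zero_mem' := fun _ _ => rfl
  smul_mem' := by
    intro c a ha y y'
    show c * a y = c * a y'
    rw [ha y y']

theorem cnt [Nontrivial V] (hG : G.Connected) (K : Submodule F2 (S.Face → F2)) (h1 : (fun _ => 1) ∈ K)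
    (BB : Submodule F2 (T.Face → F2))
    (h : ∀ B ∈ BB, ∃ A ∈ K, ∀ p, B (T.face p) + B (T.face (side p)) = A (S.face p) + A (S.face (side p))) :
    Module.finrank F2 BB ≤ Module.finrank F2 K := by
  set Ψ : (BB × K) →ₗ[F2] (Flag G → F2) :=
    ((cntD T).comp BB.subtype).coprod ((cntD S).comp K.subtype) with hΨ
  have hΨa : ∀ (x : BB × K) (p : Flag G), Ψ x p =
      x.1.1 (T.face p) + x.1.1 (T.face (side p)) + (x.2.1 (S.face p) + x.2.1 (S.face (side p))) :=
    fun x p => rfl
  set f1 : LinearMap.ker Ψ →ₗ[F2] BB := (LinearMap.fst F2 BB K).comp (LinearMap.ker Ψ).subtype with hf1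
  set f2 : LinearMap.ker Ψ →ₗ[F2] K := (LinearMap.snd F2 BB K).comp (LinearMap.ker Ψ).subtype with hf2
  obtain ⟨v0⟩ : Nonempty V := inferInstance
  obtain ⟨p0, -⟩ := exists_flag hG v0
  -- the first projection
  have e1 := LinearMap.finrank_range_add_finrank_ker f1
  have e2 : LinearMap.range f1 = ⊤ := by
    rw [LinearMap.range_eq_top]
    rintro ⟨B, hB⟩
    obtain ⟨A, hA, hAB⟩ := h B hB
    refine ⟨⟨(⟨B, hB⟩, ⟨A, hA⟩), ?_⟩, rfl⟩
    rw [LinearMap.mem_ker]
    funext p
    rw [hΨa, hAB p]
    exact f2_add_self _
  have e3 : 1 ≤ Module.finrank F2 (LinearMap.ker f1) := by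
    have hmem : ((0, ⟨fun _ => 1, h1⟩) : BB × K) ∈ LinearMap.ker Ψ := by
      rw [LinearMap.mem_ker]
      funext p
      rw [hΨa]
      show (0 : F2) + 0 + (1 + 1) = 0
      rw [f2_add_self, zero_add, f2_add_self]
    have hnt : Nontrivial (LinearMap.ker f1) := by
      refine ⟨⟨⟨⟨_, hmem⟩, ?_⟩, 0, ?_⟩⟩
      · rw [LinearMap.mem_ker]
        rfl
      · intro h3
        have h4 := congrArg (fun x : LinearMap.ker f1 => x.1.1.2.1 (S.face p0)) h3
        exact one_ne_zero (α := F2) h4
    exact Module.finrank_pos
  rw [e2, finrank_top] at e1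
  -- the second projection
  have e4 := LinearMap.finrank_range_add_finrank_ker f2
  have e5 : Module.finrank F2 (LinearMap.range f2) ≤ Module.finrank F2 K :=
    Submodule.finrank_le _
  have e6 : Module.finrank F2 (LinearMap.ker f2) ≤ 1 := by
    have hc : ∀ x : LinearMap.ker f2, ((BB.subtype.comp (f1.comp (LinearMap.ker f2).subtype)) x) ∈
        cntC T.Face := by
      intro x
      have hx0 : x.1.1.2 = 0 := by
        have := x.2
        rw [LinearMap.mem_ker] at this
        exact this
      have hx1 : ∀ p, x.1.1.1.1 (T.face p) + x.1.1.1.1 (T.face (side p)) = 0 := by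
        intro p
        have h5 : Ψ x.1.1 = 0 := x.1.2
        have h6 := congrFun h5 p
        rw [hΨa, hx0] at h6
        have h7 : x.1.1.1.1 (T.face p) + x.1.1.1.1 (T.face (side p)) + ((0 : F2) + 0) = 0 := h6
        rw [add_zero, add_zero] at h7
        exact h7
      have hx2 : ∀ p, x.1.1.1.1 (T.face (side p)) = x.1.1.1.1 (T.face p) := by
        intro p
        have h5 := hx1 p
        calc x.1.1.1.1 (T.face (side p)) =
            (x.1.1.1.1 (T.face p) + x.1.1.1.1 (T.face p)) + x.1.1.1.1 (T.face (side p)) := by
              rw [f2_add_self, zero_add]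
          _ = x.1.1.1.1 (T.face p) + (x.1.1.1.1 (T.face p) + x.1.1.1.1 (T.face (side p))) := by ring
          _ = x.1.1.1.1 (T.face p) := by rw [h5, add_zero]
      intro y y'
      obtain ⟨p, rfl⟩ := face_surj T y
      obtain ⟨q, rfl⟩ := face_surj T y'
      exact all_const T hG (fun p => x.1.1.1.1 (T.face p)) (fun p => by rw [face_nxt]) hx2
        (fun p => by rw [face_across]) p q
    have hinj : Function.Injective (LinearMap.codRestrict (cntC T.Face)
        (BB.subtype.comp (f1.comp (LinearMap.ker f2).subtype)) hc) := by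
      intro x y hxy
      have h5 : x.1.1.1 = y.1.1.1 := by
        apply Subtype.ext
        exact congrArg (fun w : cntC T.Face => w.1) hxy
      have h6 : x.1.1.2 = y.1.1.2 := by
        have hx := x.2
        have hy := y.2
        rw [LinearMap.mem_ker] at hx hy
        exact (show x.1.1.2 = 0 from hx).trans (show y.1.1.2 = 0 from hy).symm
      apply Subtype.ext
      apply Subtype.ext
      exact Prod.ext h5 h6
    refine (LinearMap.finrank_le_finrank_of_injective hinj).trans ?_
    exact finrank_const_le _ (fun w hw => hw)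
  omega

end Pool.Agent.EXG
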