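import Pool.Agent.EXG.CaseB
import Pool.Agent.EXG.CaseD
import Pool.Agent.EXG.Cnt
import Pool.Agent.EXG.Dual

/-!
# EXG-Case: the Euler genus of `T` if all classes are `0` or `ω` (assembly)
-/

set_option autoImplicit false

open Finset

namespace Pool.Agent.EXG

open Pool.Agent.Helper35.OG Pool.Agent.Helper58.OG

/-- a subspace such that the sum of two vectors outside is inside has codimension at most one -/
theorem codim_le {M : Type} [AddCommGroup M] [Module F2 M] [Module.Finite F2 M] (W : Submodule F2 M)
    (h : ∀ x y, x ∉ W → y ∉ W → x + y ∈ W) : Module.finrank F2 M ≤ Module.finrank F2 W + 1 := by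
  have h1 := W.finrank_quotient_add_finrank
  have h2 : Module.finrank F2 (M ⧸ W) ≤ 1 := by
    by_cases hW : ∃ x, x ∉ W
    · obtain ⟨x, hx⟩ := hW
      apply finrank_le_one (W.mkQ x)
      intro w
      obtain ⟨y, rfl⟩ := W.mkQ_surjective w
      by_cases hy : y ∈ W
      · refine ⟨0, ?_⟩
        rw [zero_smul]
        exact ((Submodule.Quotient.mk_eq_zero W).2 hy).symm
      · refine ⟨1, ?_⟩
        rw [one_smul]
        show Submodule.Quotient.mk x = Submodule.Quotient.mk y
        rw [Submodule.Quotient.eq]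
        have h3 : x - y = x + y := by
          have h4 : y + y = 0 := by
            have h5 : ((1 : F2) + 1) • y = 0 := by
              have : (1 : F2) + 1 = 0 := rfl
              rw [this, zero_smul]
            rwa [add_smul, one_smul] at h5
          rw [sub_eq_add_neg, neg_eq_of_add_eq_zero_left h4]
        rw [h3]
        exact h x y hx hy
    · push Not at hW
      have h3 : W = ⊤ := by
        rw [eq_top_iff]
        intro x _
        exact hW x
      have h4 : Module.finrank F2 W = Module.finrank F2 M := by rw [h3, finrank_top]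
      omega
  omega

variable {V : Type} [Fintype V] [DecidableEq V] {G : SimpleGraph V} [DecidableRel G.Adj]
variable (S T : GMap G)

theorem qe_add_left (P P' Q : Flag G → F2) : qe (fun p => P p + P' p) Q = qe P Q + qe P' Q := by
  unfold qe
  rw [← Finset.sum_add_distrib]
  apply Finset.sum_congr rfl
  intro e _
  ring

/-- The functions on the faces of `T` whose chains are in the radical of the form of `S`. -/
def BB0 : Submodule F2 (T.Face → F2) where
  carrier := {B | ∃ P, Ch S P ∧ IsLift T P (fun p => B (T.face p)) ∧ ∀ Q, Ch S Q → qe P Q = 0}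
  add_mem' := by
    rintro B C ⟨P, hP, hPL, hPq⟩ ⟨Q, hQ, hQL, hQq⟩
    refine ⟨fun p => P p + Q p, ch_add S hP hQ, ⟨?_, ?_⟩, ?_⟩
    · intro p
      show (B + C) (T.face (T.nxt p)) = (B + C) (T.face p)
      rw [face_nxt]
    · intro p
      have h1 := hPL.2 p
      have h2 := hQL.2 p
      show (B (T.face (side p)) + C (T.face (side p))) + (P (side p) + Q (side p)) =
        (B (T.face p) + C (T.face p)) + (P p + Q p)
      calc (B (T.face (side p)) + C (T.face (side p))) + (P (side p) + Q (side p)) =
          (B (T.face (side p)) + P (side p)) + (C (T.face (side p)) + Q (side p)) := by ring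
        _ = (B (T.face p) + P p) + (C (T.face p) + Q p) := by rw [← h1, ← h2]
        _ = _ := by ring
    · intro R hR
      rw [qe_add_left, hPq R hR, hQq R hR, add_zero]
  zero_mem' := by
    refine ⟨fun _ => 0, ⟨fun _ => rfl, fun _ => rfl⟩, ⟨fun _ => rfl, fun _ => rfl⟩, ?_⟩
    intro Q _
    unfold qe
    apply Finset.sum_eq_zero
    intro e _
    rw [add_zero, mul_zero]
  smul_mem' := by
    rintro r B ⟨P, hP, hPL, hPq⟩
    rcases f2_cases r with h | h
    · rw [h, zero_smul]
      refine ⟨fun _ => 0, ⟨fun _ => rfl, fun _ => rfl⟩, ⟨fun _ => rfl, fun _ => rfl⟩, ?_⟩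
      intro Q _
      unfold qe
      apply Finset.sum_eq_zero
      intro e _
      rw [add_zero, mul_zero]
    · rw [h, one_smul]
      exact ⟨P, hP, hPL, hPq⟩

theorem face_count [Nontrivial V] (hG : G.Connected) (hS : ¬ S.Orientable) {κ : Flag G → F2} (hκ : IsBand κ)
    (hκT : ∀ p, κ (T.nxt p) ≠ κ p) {lam : Finset (Arc S T)} (hc : Clean S T lam)
    (h01 : ∀ ν ⊆ lam, bd (fa S T) (fb S T) (ind ν) = 0 →
      cls S T (ind ν) = 0 ∨ cls S T (ind ν) = cls S T (ind Finset.univ))
    (hω : cls S T (ind Finset.univ) ≠ 0) {N : ℕ} (h3 : 3 ≤ N)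
    (hN : W1 (fa S T) (fb S T) (cls S T) lam (cls S T (ind Finset.univ)) N) :
    S.eg + N ≤ T.eg + 2 := by
  obtain ⟨Q0, hQ0, hQ1⟩ := exists_odd S hS hκ
  have htv := fun {P} (hP : Ch S P) {B : T.Face → F2} (hL : IsLift T P (fun p => B (T.face p))) =>
    tval S T hc h01 hκ hκT hQ0 hQ1 hP hL
  have hone : (fun _ => 1 : S.Face → F2) ∈ kerA (fa S T) (fb S T) lam := inKer_one (fa S T) (fb S T) hc.bd_eq
  have hr2 := rank_two S T hc h01 hω hN
  -- a chain of `T`-faces outside `BB0` has value one
  have hout : ∀ B, B ∉ BB0 S T → ∃ P, Ch S P ∧ IsLift T P (fun p => B (T.face p)) ∧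
      ∀ Q, Ch S Q → qe P Q = pr S (bad S κ) Q := by
    intro B hB
    obtain ⟨P, hP, hL⟩ := exists_chain_of_face S T B
    refine ⟨P, hP, hL, ?_⟩
    have h1 := htv hP hL
    rcases f2_cases (qe P Q0) with h | h
    · exfalso
      apply hB
      refine ⟨P, hP, hL, ?_⟩
      intro Q hQ
      rw [h1 Q hQ, h, zero_mul]
    · intro Q hQ
      rw [h1 Q hQ, h, one_mul]
  have hcod : Module.finrank F2 (T.Face → F2) ≤ Module.finrank F2 (BB0 S T) + 1 := by
    apply codim_le
    intro B C hB hC
    obtain ⟨P, hP, hPL, hPq⟩ := hout B hB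
    obtain ⟨Q, hQ, hQL, hQq⟩ := hout C hC
    refine ⟨fun p => P p + Q p, ch_add S hP hQ, ⟨?_, ?_⟩, ?_⟩
    · intro p
      show (B + C) (T.face (T.nxt p)) = (B + C) (T.face p)
      rw [face_nxt]
    · intro p
      have h1 := hPL.2 p
      have h2 := hQL.2 p
      show (B (T.face (side p)) + C (T.face (side p))) + (P (side p) + Q (side p)) =
        (B (T.face p) + C (T.face p)) + (P p + Q p)
      calc (B (T.face (side p)) + C (T.face (side p))) + (P (side p) + Q (side p)) =
          (B (T.face (side p)) + P (side p)) + (C (T.face (side p)) + Q (side p)) := by ring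
        _ = (B (T.face p) + P p) + (C (T.face p) + Q p) := by rw [← h1, ← h2]
        _ = _ := by ring
    · intro R hR
      rw [qe_add_left, hPq R hR, hQq R hR, f2_add_self]
  rw [Module.finrank_fintype_fun_eq_card] at hcod
  have hcT : Nat.card T.Face = Fintype.card T.Face := Nat.card_eq_fintype_card
  have hcS : Nat.card S.Face = Fintype.card S.Face := Nat.card_eq_fintype_card
  by_cases hall : ∀ B, B ∈ BB0 S T
  · -- all face chains of `T` are face chains of `S`
    have h1 := cnt S T hG (kerA (fa S T) (fb S T) lam) hone ⊤ (by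
      intro B _
      obtain ⟨P, hP, hL, hq⟩ := hall B
      obtain ⟨A, hA, hA', _⟩ := case_zero S T hc hP hL hq
      exact ⟨A, hA, hA'⟩)
    rw [finrank_top, Module.finrank_fintype_fun_eq_card] at h1
    unfold GMap.eg
    omega
  · push Not at hall
    obtain ⟨B1, hB1⟩ := hall
    obtain ⟨P1, hP1, hL1, hq1⟩ := hout B1 hB1
    rcases f2_cases (pr S (bad S κ) P1) with hw | hw
    · obtain ⟨A1, hA1, hA1'⟩ := case_one S T hc h01 hκ hκT hP1 hL1 hq1 hw
      -- the kernel vectors orthogonal to `Q0`
      let θ : (kerA (fa S T) (fb S T) lam) →ₗ[F2] F2 :=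
        { toFun := fun A => ∑ j ∈ lam, (A.1 (fa S T j) + A.1 (fb S T j)) * xx S T Q0 j
          map_add' := by
            intro A B
            rw [← Finset.sum_add_distrib]
            apply Finset.sum_congr rfl
            intro j _
            show ((A.1 (fa S T j) + B.1 (fa S T j)) + (A.1 (fb S T j) + B.1 (fb S T j))) * _ = _
            ring
          map_smul' := by
            intro r A
            rw [RingHom.id_apply, smul_eq_mul, Finset.mul_sum]
            apply Finset.sum_congr rfl
            intro j _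
            show (r * A.1 (fa S T j) + r * A.1 (fb S T j)) * _ = _
            ring }
      let K' : Submodule F2 (S.Face → F2) := (LinearMap.ker θ).map (kerA (fa S T) (fb S T) lam).subtype
      have hK'fin : Module.finrank F2 K' + 1 ≤ Module.finrank F2 (kerA (fa S T) (fb S T) lam) := by
        have h1 := LinearMap.finrank_range_add_finrank_ker θ
        have h2 : Module.finrank F2 K' = Module.finrank F2 (LinearMap.ker θ) :=
          Submodule.finrank_map_subtype_eq (kerA (fa S T) (fb S T) lam) (LinearMap.ker θ)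
        have h3 : 0 < Module.finrank F2 (LinearMap.range θ) := by
          rw [Module.finrank_pos_iff_exists_ne_zero]
          refine ⟨⟨θ ⟨A1, hA1⟩, ⟨_, rfl⟩⟩, ?_⟩
          intro h
          have h4 : θ ⟨A1, hA1⟩ = 0 := congrArg Subtype.val h
          have h5 : θ ⟨A1, hA1⟩ = 1 := by
            show ∑ j ∈ lam, (A1 (fa S T j) + A1 (fb S T j)) * xx S T Q0 j = 1
            rw [hA1' Q0 hQ0, hQ1]
          rw [h5] at h4
          exact one_ne_zero h4
        omega
      have hone' : (fun _ => 1 : S.Face → F2) ∈ K' := by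
        refine ⟨⟨_, hone⟩, ?_, rfl⟩
        show ∑ j ∈ lam, ((1 : F2) + 1) * xx S T Q0 j = 0
        apply Finset.sum_eq_zero
        intro j _
        rw [f2_add_self, zero_mul]
      have h1 := cnt S T hG K' hone' (BB0 S T) (by
        rintro B ⟨P, hP, hL, hq⟩
        obtain ⟨A, hA, hA', hA''⟩ := case_zero S T hc hP hL hq
        exact ⟨A, ⟨⟨A, hA⟩, hA'' Q0 hQ0, rfl⟩, hA'⟩)
      unfold GMap.eg
      omega
    · have h4 := case_odd S T hc h01 h3 hN hκ hκT hP1 hL1 hw
      have h1 := cnt S T hG (kerA (fa S T) (fb S T) lam) hone (BB0 S T) (by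
        rintro B ⟨P, hP, hL, hq⟩
        obtain ⟨A, hA, hA', _⟩ := case_zero S T hc hP hL hq
        exact ⟨A, hA, hA'⟩)
      unfold GMap.eg
      omega

end Pool.Agent.EXG
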