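import Pool.Agent.EXG.Hf

/-!
# EXG-Cln: removing loops and parallel arcs

A smallest set of arcs with the same adjacencies, class and form has no loops and parallel arcs.
-/

set_option autoImplicit false

open Finset

namespace Pool.Agent.EXG

open Pool.Agent.Helper35.OG Pool.Agent.Helper58.OG

variable {V : Type} [Fintype V] [DecidableEq V] {G : SimpleGraph V} [DecidableRel G.Adj]
variable (S T : GMap G)

private theorem small_range (hsm : ∀ x ∈ orth (inc S), nf S x ≤ 2 → x ∈ LinearMap.range (dl S))
    {u : Arc S T → F2} (hbd : bd (fa S T) (fb S T) u = 0) (e : Arc S T)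
    (hu : ∀ j, u j ≠ 0 → (fa S T j = fa S T e ∨ fa S T j = fb S T e) ∧
      (fb S T j = fa S T e ∨ fb S T j = fb S T e)) :
    tt S T u ∈ LinearMap.range (dl S) := by
  apply hsm
  · rw [mem_orth]
    rintro (v | f)
    · exact tt_vertex S T u v
    · show ∑ s, tt S T u s * (if S.face s.1 = f then 1 else 0) = 0
      rw [← bd_face]
      exact congrFun hbd f
  · have h1 : (Finset.univ.filter fun f : S.Face => ∃ r : S.Rep, S.face r.1 = f ∧ tt S T u r ≠ 0) ⊆
        ({fa S T e, fb S T e} : Finset S.Face) := by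
      intro f hf
      obtain ⟨r, hr, h2⟩ := (Finset.mem_filter.1 hf).2
      rw [Finset.mem_insert, Finset.mem_singleton]
      by_contra h3
      apply h2
      show ∑ j, u j * ((if a0 S T j = r then 1 else 0) + (if b0 S T j = r then 1 else 0)) = 0
      apply Finset.sum_eq_zero
      intro j _
      by_cases hj : u j = 0
      · rw [hj, zero_mul]
      · obtain ⟨h4, h5⟩ := hu j hj
        rw [if_neg, if_neg, add_zero, mul_zero]
        · intro h6
          apply h3
          rw [← hr, ← h6]
          exact h5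
        · intro h6
          apply h3
          rw [← hr, ← h6]
          exact h4
    unfold nf
    exact (Finset.card_le_card h1).trans Finset.card_le_two

/-- the properties preserved by the cleaning -/
private def Good (ν : Finset (Arc S T)) : Prop :=
  (∀ f g, adj (fa S T) (fb S T) ν f g = adj (fa S T) (fb S T) Finset.univ f g) ∧
    bd (fa S T) (fb S T) (ind ν) = 0 ∧ cls S T (ind ν) = cls S T (ind Finset.univ) ∧
    ∀ P Q : Flag G → F2, Ch S P → Ch S Q → hf T P Q = ∑ j ∈ ν, xx S T P j * xx S T Q j

private theorem good_step {lam ν : Finset (Arc S T)} (h : Good S T lam) {u : Arc S T → F2}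
    (hind : ind ν = ind lam + u) (hbd : bd (fa S T) (fb S T) u = 0)
    (hadj : ∀ f g, adjL (fa S T) (fb S T) f g u = 0) (hr : tt S T u ∈ LinearMap.range (dl S))
    (hs : ∀ P Q : Flag G → F2, Ch S P → Ch S Q →
      ∑ j ∈ lam, xx S T P j * xx S T Q j = ∑ j ∈ ν, xx S T P j * xx S T Q j) : Good S T ν := by
  obtain ⟨h1, h2, h3, h4⟩ := h
  refine ⟨?_, ?_, ?_, ?_⟩
  · intro f g
    rw [← h1 f g]
    unfold adj
    rw [hind, map_add, hadj, add_zero]
  · rw [hind, map_add, h2, hbd, add_zero]
  · rw [hind, map_add, h3]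
    have h5 : cls S T u = 0 := by
      show (LinearMap.range (dl S)).mkQ (tt S T u) = 0
      rw [Submodule.mkQ_apply, Submodule.Quotient.mk_eq_zero]
      exact hr
    rw [h5, add_zero]
  · intro P Q hP hQ
    rw [h4 P Q hP hQ, hs P Q hP hQ]

private theorem sum_single (e : Arc S T) (g : Arc S T → F2) :
    ∑ j, (Pi.single e 1 : Arc S T → F2) j * g j = g e := by
  rw [Finset.sum_eq_single e]
  · rw [Pi.single_eq_same, one_mul]
  · intro j _ hj
    rw [Pi.single_eq_of_ne hj, zero_mul]
  · intro h
    exact absurd (Finset.mem_univ _) h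

private theorem ind_one (e : Arc S T) : ind ({e} : Finset (Arc S T)) = Pi.single e 1 := by
  funext j
  unfold ind
  by_cases h : j = e
  · rw [h, if_pos (Finset.mem_singleton_self e), Pi.single_eq_same]
  · rw [if_neg (fun h1 => h (Finset.mem_singleton.1 h1)), Pi.single_eq_of_ne h]

private theorem ind_two {e e' : Arc S T} (hne : e ≠ e') :
    ind ({e, e'} : Finset (Arc S T)) = Pi.single e 1 + Pi.single e' 1 := by
  funext j
  unfold ind
  rw [Pi.add_apply]
  by_cases h : j = e
  · rw [h, if_pos (Finset.mem_insert_self e _), Pi.single_eq_same, Pi.single_eq_of_ne hne, add_zero]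
  · rw [Pi.single_eq_of_ne h, zero_add]
    by_cases h' : j = e'
    · rw [h', if_pos (by simp), Pi.single_eq_same]
    · rw [if_neg (by simp [h, h']), Pi.single_eq_of_ne h']

private theorem no_loop (hsm : ∀ x ∈ orth (inc S), nf S x ≤ 2 → x ∈ LinearMap.range (dl S))
    {lam : Finset (Arc S T)} (h : Good S T lam)
    (hmin : ∀ ν, Good S T ν → lam.card ≤ ν.card) {e : Arc S T} (he : e ∈ lam) :
    fa S T e ≠ fb S T e := by
  intro hab
  have hp : piece (fa S T) (fb S T) id e = Pi.single e 1 := by
    unfold piece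
    rw [if_pos hab, add_zero]
  have hbd : bd (fa S T) (fb S T) (Pi.single e 1) = 0 := by
    rw [← hp]
    exact bd_piece _ _ id e (Or.inl hab)
  have hadj : ∀ f g, adjL (fa S T) (fb S T) f g (Pi.single e 1) = 0 := by
    intro f g
    rw [← hp]
    exact adjL_piece _ _ id e (Or.inl hab) f g
  have hr : tt S T (Pi.single e 1) ∈ LinearMap.range (dl S) := by
    refine small_range S T hsm hbd e ?_
    intro j hj
    have h1 : j = e := by
      by_contra h2
      exact hj (Pi.single_eq_of_ne h2 _)
    rw [h1]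
    exact ⟨Or.inl rfl, Or.inr rfl⟩
  have hx : ∀ P : Flag G → F2, Ch S P → xx S T P e = 0 := by
    intro P hP
    have h1 := pr_range S hr hP
    rw [pr_tt, sum_single] at h1
    exact h1
  have hsub : ({e} : Finset (Arc S T)) ⊆ lam := Finset.singleton_subset_iff.2 he
  have hg : Good S T (lam \ {e}) := by
    refine good_step S T h (u := Pi.single e 1) ?_ hbd hadj hr ?_
    · rw [ind_sdiff hsub, ind_one]
    · intro P Q hP _
      rw [← Finset.sum_sdiff hsub, Finset.sum_singleton, hx P hP, zero_mul, add_zero]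
  have h1 := hmin _ hg
  rw [Finset.card_sdiff_of_subset hsub, Finset.card_singleton] at h1
  have h2 : 0 < lam.card := Finset.card_pos.2 ⟨e, he⟩
  omega

private theorem no_par (hsm : ∀ x ∈ orth (inc S), nf S x ≤ 2 → x ∈ LinearMap.range (dl S))
    {lam : Finset (Arc S T)} (h : Good S T lam)
    (hmin : ∀ ν, Good S T ν → lam.card ≤ ν.card) {e e' : Arc S T} (he : e ∈ lam) (he' : e' ∈ lam)
    (hpar : par (fa S T) (fb S T) e e') : e = e' := by
  by_contra hne
  have hab := no_loop S T hsm h hmin he
  have hp : piece (fa S T) (fb S T) (fun _ => e') e = Pi.single e 1 + Pi.single e' 1 := by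
    unfold piece
    rw [if_neg hab]
  have hbd : bd (fa S T) (fb S T) (Pi.single e 1 + Pi.single e' 1) = 0 := by
    rw [← hp]
    exact bd_piece _ _ (fun _ => e') e (Or.inr hpar)
  have hadj : ∀ f g, adjL (fa S T) (fb S T) f g (Pi.single e 1 + Pi.single e' 1) = 0 := by
    intro f g
    rw [← hp]
    exact adjL_piece _ _ (fun _ => e') e (Or.inr hpar) f g
  have hr : tt S T (Pi.single e 1 + Pi.single e' 1) ∈ LinearMap.range (dl S) := by
    refine small_range S T hsm hbd e ?_
    intro j hj
    by_cases h1 : j = e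
    · rw [h1]
      exact ⟨Or.inl rfl, Or.inr rfl⟩
    · by_cases h2 : j = e'
      · rw [h2]
        rcases hpar with ⟨h3, h4⟩ | ⟨h3, h4⟩
        · exact ⟨Or.inl h3.symm, Or.inr h4.symm⟩
        · exact ⟨Or.inr h4.symm, Or.inl h3.symm⟩
      · exfalso
        apply hj
        rw [Pi.add_apply, Pi.single_eq_of_ne h1, Pi.single_eq_of_ne h2, add_zero]
  have hx : ∀ P : Flag G → F2, Ch S P → xx S T P e = xx S T P e' := by
    intro P hP
    have h1 := pr_range S hr hP
    rw [pr_tt] at h1
    have h2 : ∑ j, (Pi.single e 1 + Pi.single e' 1 : Arc S T → F2) j * xx S T P j =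
        xx S T P e + xx S T P e' := by
      simp only [Pi.add_apply, add_mul, Finset.sum_add_distrib]
      rw [sum_single, sum_single]
    rw [h2] at h1
    calc xx S T P e = xx S T P e + (xx S T P e' + xx S T P e') := by rw [f2_add_self, add_zero]
      _ = (xx S T P e + xx S T P e') + xx S T P e' := by ring
      _ = xx S T P e' := by rw [h1, zero_add]
  have hsub : ({e, e'} : Finset (Arc S T)) ⊆ lam := by
    intro j hj
    rw [Finset.mem_insert, Finset.mem_singleton] at hj
    rcases hj with h1 | h1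
    · rw [h1]; exact he
    · rw [h1]; exact he'
  have hg : Good S T (lam \ {e, e'}) := by
    refine good_step S T h (u := Pi.single e 1 + Pi.single e' 1) ?_ hbd hadj hr ?_
    · rw [ind_sdiff hsub, ind_two S T hne]
    · intro P Q hP hQ
      rw [← Finset.sum_sdiff hsub, Finset.sum_pair hne, hx P hP, hx Q hQ, f2_add_self, add_zero]
  have h1 := hmin _ hg
  rw [Finset.card_sdiff_of_subset hsub, Finset.card_pair hne] at h1
  have h2 : 0 < lam.card := Finset.card_pos.2 ⟨e, he⟩
  omega

theorem clean {κ : Flag G → F2} (hκ : IsBand κ) (hκT : ∀ p, κ (T.nxt p) ≠ κ p)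
    (hsm : ∀ x ∈ orth (inc S), nf S x ≤ 2 → x ∈ LinearMap.range (dl S)) : ∃ lam, Clean S T lam := by
  obtain ⟨lam, hlam, hmin⟩ := Set.exists_min_image {ν : Finset (Arc S T) | Good S T ν} Finset.card
    (Set.toFinite _) ⟨Finset.univ, fun _ _ => rfl, bd_univ S T hκ hκT, rfl,
      fun P Q hP hQ => hf_arcs S T hP.1 hQ.1⟩
  have hg : Good S T lam := hlam
  have hm : ∀ ν, Good S T ν → lam.card ≤ ν.card := fun ν hν => hmin ν hν
  exact ⟨lam, ⟨⟨fun e he => no_loop S T hsm hg hm he, fun e he e' he' hp =>
    no_par S T hsm hg hm he he' hp⟩, hg.1, hg.2.1, hg.2.2.1, hg.2.2.2⟩⟩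

end Pool.Agent.EXG
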