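import Pool.Agent.EXG.GpB2

/-!
# EXG-GpC: the width conditions for the arcs
-/

set_option autoImplicit false

open Finset

namespace Pool.Agent.EXG

open Pool.Agent.Helper35.OG Pool.Agent.Helper58.OG

variable {V : Type} [Fintype V] [DecidableEq V] {G : SimpleGraph V} [DecidableRel G.Adj]
variable (S T : GMap G)

private theorem neg_eq (x : S.Rep → F2) : -x = x := by
  funext r
  show -(x r) = x r
  have h := f2_add_self (x r)
  exact (eq_neg_of_add_eq_zero_left h).symm

private theorem sub_eq (x y : S.Rep → F2) : x - y = x + y := by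
  rw [sub_eq_add_neg, neg_eq]

theorem tt_orth {u : Arc S T → F2} (hu : bd (fa S T) (fb S T) u = 0) : tt S T u ∈ orth (inc S) := by
  rw [mem_orth]
  rintro (v | f)
  · exact tt_vertex S T u v
  · show ∑ s, tt S T u s * (if S.face s.1 = f then 1 else 0) = 0
    rw [← bd_face]
    exact congrFun hu f

theorem nf_tt (mu : Finset (Arc S T)) : nf S (tt S T (ind mu)) ≤ (vts (fa S T) (fb S T) mu).card := by
  unfold nf
  apply Finset.card_le_card
  intro f hf
  obtain ⟨r, hr, hne⟩ := (Finset.mem_filter.1 hf).2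
  rw [mem_vts]
  have h : ∃ q ∈ mu, a0 S T q = r ∨ b0 S T q = r := by
    by_contra hcon
    push Not at hcon
    apply hne
    show ∑ q, ind mu q * ((if a0 S T q = r then 1 else 0) + (if b0 S T q = r then 1 else 0)) = 0
    apply Finset.sum_eq_zero
    intro q _
    by_cases hq : q ∈ mu
    · rw [if_neg (hcon q hq).1, if_neg (hcon q hq).2, add_zero, mul_zero]
    · unfold ind
      rw [if_neg hq, zero_mul]
  obtain ⟨q, hq, h1 | h1⟩ := h
  · apply dg_pos_of (fa S T) (fb S T) hq
    left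
    unfold fa
    rw [h1, hr]
  · apply dg_pos_of (fa S T) (fb S T) hq
    right
    unfold fb
    rw [h1, hr]

theorem w1 {κ : Flag G → F2} (hκ : IsBand κ) (hκT : ∀ p, κ (T.nxt p) ≠ κ p) (lam : Finset (Arc S T)) :
    W1 (fa S T) (fb S T) (cls S T) lam (cls S T (ind Finset.univ)) (faceDefect S) := by
  intro mu _ _ hc
  have h1 : tt S T (ind mu) - tt S T (ind Finset.univ) ∈ LinearMap.range (dl S) := by
    rw [← Submodule.Quotient.eq]
    exact hc
  rw [tt_univ S T hκ hκT, sub_eq] at h1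
  exact (width_rep S hκ h1).trans (nf_tt S T mu)

private theorem notMem_of_cls {mu : Finset (Arc S T)} (h : cls S T (ind mu) ≠ 0) :
    tt S T (ind mu) ∉ LinearMap.range (dl S) := by
  intro hm
  apply h
  show (LinearMap.range (dl S)).mkQ (tt S T (ind mu)) = 0
  rw [Submodule.mkQ_apply, Submodule.Quotient.mk_eq_zero]
  exact hm

theorem w2 {κ : Flag G → F2} (hκ : IsBand κ) (hκT : ∀ p, κ (T.nxt p) ≠ κ p) (lam : Finset (Arc S T)) {n : ℤ}
    (hgap : GapRep S n) {Ng : ℕ} (hNg : (Ng : ℤ) ≤ n) :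
    W2 (fa S T) (fb S T) (cls S T) lam (cls S T (ind Finset.univ)) Ng := by
  intro mu _ nu _ hmu hnu hcm hcn hsum
  have h1 : tt S T (ind mu + ind nu) - tt S T (ind Finset.univ) ∈ LinearMap.range (dl S) := by
    rw [← Submodule.Quotient.eq]
    have h2 : cls S T (ind mu + ind nu) = cls S T (ind Finset.univ) := by
      rw [map_add]
      exact hsum
    exact h2
  rw [tt_univ S T hκ hκT, sub_eq, map_add] at h1
  have h3 := hgap _ (tt_orth S T hmu) _ (tt_orth S T hnu) (notMem_of_cls S T hcm) (notMem_of_cls S T hcn) κ hκ h1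
  have h4 := nf_tt S T mu
  have h5 := nf_tt S T nu
  omega

theorem cls_ne {κ : Flag G → F2} (hκ : IsBand κ) (hκT : ∀ p, κ (T.nxt p) ≠ κ p) (hS : ¬ S.Orientable) :
    cls S T (ind Finset.univ) ≠ 0 := by
  intro h
  have h1 : (LinearMap.range (dl S)).mkQ (tt S T (ind Finset.univ)) = 0 := h
  rw [Submodule.mkQ_apply, Submodule.Quotient.mk_eq_zero, tt_univ S T hκ hκT] at h1
  exact bad_notMem S hS hκ h1

theorem eg_pos [Nontrivial V] (hG : G.Connected) {κ : Flag G → F2} (hκ : IsBand κ) (hκT : ∀ p, κ (T.nxt p) ≠ κ p)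
    (hS : ¬ S.Orientable) : 1 ≤ S.eg := by
  have h1 := finrank_cls S T hG
  have h2 : 0 < Module.finrank F2 ((LinearMap.ker (bd (fa S T) (fb S T))).map (cls S T)) := by
    rw [Module.finrank_pos_iff_exists_ne_zero]
    refine ⟨⟨cls S T (ind Finset.univ), Submodule.mem_map_of_mem ?_⟩, ?_⟩
    · rw [LinearMap.mem_ker]
      exact bd_univ S T hκ hκT
    · intro h
      exact cls_ne S T hκ hκT hS (congrArg Subtype.val h)
  omega

end Pool.Agent.EXG
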