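import Pool.Agent.EXG.Ear
import Pool.Agent.EXG.Case
import Pool.Agent.EXG.Cln
import Pool.Agent.EXG.GpC

/-!
# EXG-Asm: the lower bound under the gap condition (assembly)
-/

set_option autoImplicit false

open Finset

namespace Pool.Agent.EXG

open Pool.Agent.Helper35.OG Pool.Agent.Helper58.OG

variable {V : Type} [Fintype V] [DecidableEq V] {G : SimpleGraph V} [DecidableRel G.Adj]

theorem lower_exact [Nontrivial V] (hG : G.Connected) (S T : GMap G) (hT : T.Orientable) (hS : ¬ S.Orientable)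
    (h3 : 3 ≤ faceDefect S) (hgap : GapRep S ((faceDefect S : ℤ) + 4 * S.eg + 9)) :
    (faceDefect S : ℤ) + S.eg ≤ T.eg + 2 := by
  classical
  obtain ⟨κ, hκ, hκT⟩ := hT
  have hpos := eg_pos S T hG hκ hκT hS
  have hω := cls_ne S T hκ hκT hS
  obtain ⟨lam, hc⟩ := clean S T hκ hκT (fun x hx h2 => small_null S hgap (by omega) h3 hx h2)
  by_contra hcon
  push Not at hcon
  have hk := finrank_cls S T hG
  -- the rank bound
  have hrk : ∀ B : Finset S.Face, (∀ A : S.Face → F2, InKer (fa S T) (fb S T) lam A → (∀ x, x ∉ B → A x = 0) →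
      A = fun _ => 0) → (B.card : ℤ) ≤ T.eg := by
    intro B hB
    apply rank_bound S T hG B
    intro A hA hA'
    apply hB A _ hA'
    intro v
    rw [← hA v]
    apply Finset.sum_congr rfl
    intro u _
    rw [hc.adj_eq, adj_univ S T hκ hκT]
  obtain ⟨B, W, hB, hW, mu0, hmu0lam, hmu1, hmu2, hmu3⟩ :=
    lemmaP (fa S T) (fb S T) (cls S T) (le_refl _) lam hc.bd_eq
  obtain ⟨mu, hsub, hmu4, hmu5, hmu6⟩ :=
    exists_small (fa S T) (fb S T) (cls S T) (le_refl _) mu0 hmu1 W hmu3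
  have hBc := hrk B hB
  obtain ⟨B', hB'1, A', hA'⟩ := exists_basis (fa S T) (fb S T) lam
  have hB'c := hrk B' hB'1
  have hbas := basis_card (fa S T) (fb S T) lam B' hB'1 A'
    (fun x => ⟨(hA' x).1, (hA' x).2.1, (hA' x).2.2.2⟩)
  obtain ⟨Ng, hNg⟩ : ∃ Ng : ℕ, (Ng : ℤ) = (faceDefect S : ℤ) + 4 * S.eg + 9 :=
    ⟨((faceDefect S : ℤ) + 4 * S.eg + 9).toNat, Int.toNat_of_nonneg (by omega)⟩
  have hcard : mu.card + 3 ≤ Ng := by omega
  rcases ear (fa S T) (fb S T) (cls S T) hc.simp hω (w1 S T hκ hκT lam) (w2 S T hκ hκT lam hgap (le_of_eq hNg))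
    (hsub.trans hmu0lam) hmu4 (hmu5.trans (hmu2.trans hc.cls_eq)) hcard with h | h
  · have := face_count S T hG hS hκ hκT hc h hω h3 (w1 S T hκ hκT lam)
    omega
  · omega

end Pool.Agent.EXG
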