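import Pool.Agent.EXG.Base
import Pool.Agent.Helper35.OG.Rank

/-!
# EXG-CDim: the boundary map of a circuit

Let `R` be a circuit relative to `U` and `I = vts a b R \ U` (interior points of `R`).

PLAN. Let `r : (R → F2) →ₗ[F2] (I → F2)` be the boundary at the interior points (`R`, `I` coerced to types), as in the proof
of `exists_even` (Helper35/OG/Multi, with `ext0`): `r x v = bd a b (ext0 R x) v`. An element `x` of the kernel gives
`D = supp (ext0 R x) ⊆ R` with `EvenOff a b U D` (at a point outside `U` which is not a point of `R` the boundary of a subset of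
`R` vanishes), so `x = 0` or `x = 1` (`Circ`); and `1` is in the kernel. So the kernel has dimension exactly 1
(`finrank_span_singleton` or the injection argument; it is enough to have `finrank ker ≤ 1`), and
`finrank (range r) + finrank (ker r) = R.card`, `finrank (range r) ≤ I.card`.
* `card_le`: `R.card ≤ I.card + 1`.
* `surj`: if `R.card = I.card + 1` then `finrank (range r) = I.card` (`≥ R.card - 1`), so `range r = ⊤`
  (`Submodule.eq_top_of_finrank_eq`): take `x` with `r x = h` on `I`, `D = supp (ext0 R x)`.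
* If no edge of `R` meets `U`, the range lies in the kernel `K` of the sum functional `h ↦ ∑_{x ∈ I} h x` (every edge has
  both ends in `I`, so the boundary of a set of edges has even sum). `R` is nonempty, so `I` is nonempty and `finrank K =
  I.card - 1`. So `R.card - 1 ≤ I.card - 1` (`card_le'`), and if `R.card = I.card` the range equals `K`
  (`Submodule.eq_of_le_of_finrank_le`) (`surj'`).
-/

set_option autoImplicit false

open Finset

namespace Pool.Agent.EXG

open Pool.Agent.Helper35.OG Pool.Agent.Helper58.OG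

variable {X E : Type} [Fintype X] [DecidableEq X] [Fintype E] [DecidableEq E] (a b : E → X)

/-- The boundary of a subset of `R` at the points of `I`. -/
private noncomputable def rr (R : Finset E) (I : Finset X) : (R → F2) →ₗ[F2] (I → F2) :=
  LinearMap.pi fun u => (LinearMap.proj (u : X)).comp ((bd a b).comp (ext0 R))

private theorem rr_apply (R : Finset E) (I : Finset X) (x : R → F2) (v : I) :
    rr a b R I x v = bd a b (ext0 R x) v.1 := rfl

private theorem bd_off {R : Finset E} {v : X} (hv : v ∉ vts a b R) (x : R → F2) : bd a b (ext0 R x) v = 0 := by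
  show ∑ e, (ext0 R x) e * ((if a e = v then 1 else 0) + (if b e = v then 1 else 0)) = 0
  apply Finset.sum_eq_zero
  intro e _
  by_cases he : e ∈ R
  · have n1 : ¬ a e = v := fun h => hv ((mem_vts a b).2 (dg_pos_of a b he (Or.inl h)))
    have n2 : ¬ b e = v := fun h => hv ((mem_vts a b).2 (dg_pos_of a b he (Or.inr h)))
    rw [if_neg n1, if_neg n2, add_zero, mul_zero]
  · rw [ext0_off _ he, zero_mul]

private theorem supp_sub {R : Finset E} (x : R → F2) : supp (ext0 R x) ⊆ R := by
  intro e he
  by_contra h'
  rw [mem_supp] at he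
  exact he (ext0_off _ h')

/-- the kernel has dimension at most one -/
private theorem ker_le {U : Finset X} {R : Finset E} (hR : Circ a b U R) :
    Module.finrank F2 (LinearMap.ker (rr a b R (vts a b R \ U))) ≤ 1 := by
  apply finrank_const_le
  intro x hx y y'
  have hev : EvenOff a b U (supp (ext0 R x)) := by
    intro v hv
    rw [ind_supp]
    by_cases hv' : v ∈ vts a b R
    · exact congrFun hx ⟨v, Finset.mem_sdiff.2 ⟨hv', hv⟩⟩
    · exact bd_off a b hv' x
  have hval : ∀ z : R, x z = ext0 R x z.1 := by
    intro z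
    simp [ext0]
  rcases hR.2.2 _ (supp_sub x) hev with h | h
  · have h1 : ∀ z : R, x z = 0 := by
      intro z
      rw [hval]
      by_contra hne
      have : z.1 ∈ supp (ext0 R x) := mem_supp.2 hne
      rw [h] at this
      exact absurd this (Finset.notMem_empty _)
    rw [h1, h1]
  · have h1 : ∀ z : R, x z = 1 := by
      intro z
      rw [hval]
      have h2 : z.1 ∈ supp (ext0 R x) := by rw [h]; exact z.2
      rw [mem_supp] at h2
      rcases f2_cases (ext0 R x z.1) with h3 | h3
      · exact absurd h3 h2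
      · exact h3
    rw [h1, h1]

private theorem range_ge {U : Finset X} {R : Finset E} (hR : Circ a b U R) :
    R.card ≤ Module.finrank F2 (LinearMap.range (rr a b R (vts a b R \ U))) + 1 := by
  have h1 := LinearMap.finrank_range_add_finrank_ker (rr a b R (vts a b R \ U))
  rw [Module.finrank_fintype_fun_eq_card, Fintype.card_coe] at h1
  have h2 := ker_le a b hR
  omega

private theorem sub_of_mem {U : Finset X} {R : Finset E} (h : X → F2)
    (hh : (fun v : (vts a b R \ U : Finset X) => h v.1) ∈ LinearMap.range (rr a b R (vts a b R \ U))) :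
    ∃ D ⊆ R, ∀ x ∈ vts a b R \ U, bd a b (ind D) x = h x := by
  obtain ⟨x, hx⟩ := hh
  refine ⟨supp (ext0 R x), supp_sub x, ?_⟩
  intro v hv
  rw [ind_supp]
  exact congrFun hx ⟨v, hv⟩

theorem card_le {U : Finset X} {R : Finset E} (hR : Circ a b U R) : R.card ≤ (vts a b R \ U).card + 1 := by
  have h1 := range_ge a b hR
  have h2 := (LinearMap.range (rr a b R (vts a b R \ U))).finrank_le
  rw [Module.finrank_fintype_fun_eq_card, Fintype.card_coe] at h2
  omega

theorem surj {U : Finset X} {R : Finset E} (hR : Circ a b U R) (hc : R.card = (vts a b R \ U).card + 1) (h : X → F2) :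
    ∃ D ⊆ R, ∀ x ∈ vts a b R \ U, bd a b (ind D) x = h x := by
  apply sub_of_mem
  have h1 := range_ge a b hR
  have h2 : LinearMap.range (rr a b R (vts a b R \ U)) = ⊤ := by
    apply Submodule.eq_top_of_finrank_eq
    rw [Module.finrank_fintype_fun_eq_card, Fintype.card_coe]
    have h3 := (LinearMap.range (rr a b R (vts a b R \ U))).finrank_le
    rw [Module.finrank_fintype_fun_eq_card, Fintype.card_coe] at h3
    omega
  rw [h2]
  exact Submodule.mem_top

/-- The sum of the values. -/
private def sm (I : Finset X) : (I → F2) →ₗ[F2] F2 where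
  toFun h := ∑ x, h x
  map_add' x y := by simp only [Pi.add_apply, Finset.sum_add_distrib]
  map_smul' c x := by simp only [Pi.smul_apply, smul_eq_mul, Finset.mul_sum, RingHom.id_apply]

private theorem range_sm {U : Finset X} {R : Finset E} (hU : ∀ e ∈ R, a e ∉ U ∧ b e ∉ U) :
    LinearMap.range (rr a b R (vts a b R \ U)) ≤ LinearMap.ker (sm (vts a b R \ U)) := by
  rintro _ ⟨x, rfl⟩
  rw [LinearMap.mem_ker]
  show ∑ v : (vts a b R \ U : Finset X), bd a b (ext0 R x) v.1 = 0
  rw [Finset.sum_coe_sort (vts a b R \ U) (fun v => bd a b (ext0 R x) v)]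
  show ∑ v ∈ vts a b R \ U, ∑ e, (ext0 R x) e * ((if a e = v then 1 else 0) + (if b e = v then 1 else 0)) = 0
  rw [Finset.sum_comm]
  apply Finset.sum_eq_zero
  intro e _
  rw [← Finset.mul_sum]
  by_cases he : e ∈ R
  · obtain ⟨hu1, hu2⟩ := hU e he
    have m1 : a e ∈ vts a b R \ U :=
      Finset.mem_sdiff.2 ⟨(mem_vts a b).2 (dg_pos_of a b he (Or.inl rfl)), hu1⟩
    have m2 : b e ∈ vts a b R \ U :=
      Finset.mem_sdiff.2 ⟨(mem_vts a b).2 (dg_pos_of a b he (Or.inr rfl)), hu2⟩
    rw [Finset.sum_add_distrib, Finset.sum_ite_eq, Finset.sum_ite_eq, if_pos m1, if_pos m2, f2_add_self, mul_zero]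
  · rw [ext0_off _ he, zero_mul]

private theorem finrank_ker_sm (I : Finset X) (hI : I.Nonempty) :
    Module.finrank F2 (LinearMap.ker (sm I)) + 1 = I.card := by
  have h1 := LinearMap.finrank_range_add_finrank_ker (sm I)
  rw [Module.finrank_fintype_fun_eq_card, Fintype.card_coe] at h1
  have h2 : LinearMap.range (sm I) = ⊤ := by
    rw [LinearMap.range_eq_top]
    intro c
    obtain ⟨i, hi⟩ := hI
    refine ⟨Pi.single ⟨i, hi⟩ c, ?_⟩
    show ∑ x, (Pi.single (⟨i, hi⟩ : I) c : I → F2) x = c
    rw [Finset.sum_eq_single (⟨i, hi⟩ : I)]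
    · rw [Pi.single_eq_same]
    · intro x _ hx
      rw [Pi.single_eq_of_ne hx]
    · intro h; exact absurd (Finset.mem_univ _) h
  rw [h2, finrank_top, Module.finrank_self] at h1
  omega

private theorem int_nonempty {U : Finset X} {R : Finset E} (hR : Circ a b U R) (hU : ∀ e ∈ R, a e ∉ U ∧ b e ∉ U) :
    (vts a b R \ U).Nonempty := by
  obtain ⟨e, he⟩ := hR.1
  exact ⟨a e, Finset.mem_sdiff.2 ⟨(mem_vts a b).2 (dg_pos_of a b he (Or.inl rfl)), (hU e he).1⟩⟩

theorem card_le' {U : Finset X} {R : Finset E} (hR : Circ a b U R) (hU : ∀ e ∈ R, a e ∉ U ∧ b e ∉ U) :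
    R.card ≤ (vts a b R \ U).card := by
  have h1 := range_ge a b hR
  have h2 := Submodule.finrank_mono (range_sm a b hU)
  have h3 := finrank_ker_sm (vts a b R \ U) (int_nonempty a b hR hU)
  omega

theorem surj' {U : Finset X} {R : Finset E} (hR : Circ a b U R) (hU : ∀ e ∈ R, a e ∉ U ∧ b e ∉ U)
    (hc : R.card = (vts a b R \ U).card) (h : X → F2) (hh : ∑ x ∈ vts a b R \ U, h x = 0) :
    ∃ D ⊆ R, ∀ x ∈ vts a b R \ U, bd a b (ind D) x = h x := by
  apply sub_of_mem
  have h1 := range_ge a b hR
  have h3 := finrank_ker_sm (vts a b R \ U) (int_nonempty a b hR hU)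
  have h2 : LinearMap.range (rr a b R (vts a b R \ U)) = LinearMap.ker (sm (vts a b R \ U)) := by
    apply Submodule.eq_of_le_of_finrank_le (range_sm a b hU)
    omega
  rw [h2, LinearMap.mem_ker]
  show ∑ v : (vts a b R \ U : Finset X), h v.1 = 0
  rw [Finset.sum_coe_sort (vts a b R \ U) (fun v => h v)]
  exact hh

end Pool.Agent.EXG
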