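import Pool.Agent.EXG.Base

/-!
# EXG-CKer: kernel vectors along a circuit

PLAN. `D = R.filter (fun e => A (a e) + A (b e) = 1)` satisfies `EvenOff a b U D`: for `v ∉ U`
`bd a b (ind D) v = ∑_{e ∈ R} (A (a e) + A (b e)) * ((if a e = v then 1 else 0) + (if b e = v then 1 else 0))`
`= A v * dg R v + ∑_{e ∈ R} ((if a e = v then A (b e) else 0) + (if b e = v then A (a e) else 0))` (case split on `a e = v`,
`b e = v`); both terms vanish: if `v ∈ vts a b R` by `hdeg` (`dg = 2`, zero in `F2`) and `hA`, otherwise no edge of `R` meets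
`v`. So `D = ∅` or `D = R` (`Circ`), the first statement. For the second let `D' = R.filter (fun e => A (a e) = 1)`; as
`A (a e) = A (b e)` on `R`, `bd a b (ind D') v = ∑_{e ∈ R} A v * ((if a e = v then 1 else 0) + (if b e = v then 1 else 0)) =
A v * dg R v = 0` for `v ∉ U`; so `D' = ∅` or `D' = R`; a point of `vts a b R` is an end of an edge of `R` (`dg_pos`).
-/

set_option autoImplicit false

open Finset

namespace Pool.Agent.EXG

open Pool.Agent.Helper35.OG Pool.Agent.Helper58.OG

variable {X E : Type} [Fintype X] [DecidableEq X] [Fintype E] [DecidableEq E] (a b : E → X)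

private theorem off_end {R : Finset E} {v : X} (hv : v ∉ vts a b R) {e : E} (he : e ∈ R) : ¬ a e = v ∧ ¬ b e = v :=
  ⟨fun h => hv ((mem_vts a b).2 (dg_pos_of a b he (Or.inl h))),
    fun h => hv ((mem_vts a b).2 (dg_pos_of a b he (Or.inr h)))⟩

private theorem bd_filter (R : Finset E) (g : E → F2) (v : X) :
    bd a b (ind (R.filter fun e => g e = 1)) v =
      ∑ e ∈ R, g e * ((if a e = v then 1 else 0) + (if b e = v then 1 else 0)) := by
  show ∑ e, ind (R.filter fun e => g e = 1) e * ((if a e = v then 1 else 0) + (if b e = v then 1 else 0)) = _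
  rw [← Finset.sum_subset (Finset.subset_univ R)]
  · apply Finset.sum_congr rfl
    intro e he
    congr 1
    unfold ind
    rcases f2_cases (g e) with h | h
    · rw [if_neg, h]
      rw [Finset.mem_filter, h]
      exact fun h' => zero_ne_one h'.2
    · rw [if_pos, h]
      exact Finset.mem_filter.2 ⟨he, h⟩
  · intro e _ he
    unfold ind
    rw [if_neg (fun h => he (Finset.mem_filter.1 h).1), zero_mul]

private theorem sum_dg_cast (R : Finset E) (v : X) :
    ∑ e ∈ R, (((if a e = v then 1 else 0) + (if b e = v then 1 else 0) : F2)) = (dg a b R v : F2) := by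
  rw [← bd_ind]
  show _ = ∑ e, ind R e * ((if a e = v then 1 else 0) + (if b e = v then 1 else 0))
  rw [← Finset.sum_subset (Finset.subset_univ R)]
  · apply Finset.sum_congr rfl
    intro e he
    unfold ind
    rw [if_pos he, one_mul]
  · intro e _ he
    unfold ind
    rw [if_neg he, zero_mul]

theorem circ_ker {U : Finset X} {R : Finset E} (hR : Circ a b U R) (hdeg : ∀ v ∈ vts a b R \ U, dg a b R v = 2)
    (A : X → F2) (hA : ∀ v ∈ vts a b R \ U,
      ∑ e ∈ R, ((if a e = v then A (b e) else 0) + (if b e = v then A (a e) else 0)) = 0) :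
    (∀ e ∈ R, A (a e) + A (b e) = 0) ∨ (∀ e ∈ R, A (a e) + A (b e) = 1) := by
  have hev : EvenOff a b U (R.filter fun e => A (a e) + A (b e) = 1) := by
    intro v hv
    rw [bd_filter a b R (fun e => A (a e) + A (b e)) v]
    by_cases hv' : v ∈ vts a b R
    · have hvI : v ∈ vts a b R \ U := Finset.mem_sdiff.2 ⟨hv', hv⟩
      have h1 : ∀ e ∈ R, (A (a e) + A (b e)) * ((if a e = v then 1 else 0) + (if b e = v then 1 else 0)) =
          A v * ((if a e = v then 1 else 0) + (if b e = v then 1 else 0)) +
          ((if a e = v then A (b e) else 0) + (if b e = v then A (a e) else 0)) := by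
        intro e _
        by_cases c1 : a e = v <;> by_cases c2 : b e = v
        · rw [if_pos c1, if_pos c2, if_pos c1, if_pos c2, c1, c2]; ring
        · rw [if_pos c1, if_neg c2, if_pos c1, if_neg c2, c1]; ring
        · rw [if_neg c1, if_pos c2, if_neg c1, if_pos c2, c2]; ring
        · rw [if_neg c1, if_neg c2, if_neg c1, if_neg c2]; ring
      rw [Finset.sum_congr rfl h1, Finset.sum_add_distrib, hA v hvI, add_zero, ← Finset.mul_sum, sum_dg_cast,
        hdeg v hvI]
      have : ((2 : ℕ) : F2) = 0 := rfl
      rw [this, mul_zero]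
    · apply Finset.sum_eq_zero
      intro e he
      obtain ⟨n1, n2⟩ := off_end a b hv' he
      rw [if_neg n1, if_neg n2, add_zero, mul_zero]
  rcases hR.2.2 _ (Finset.filter_subset _ _) hev with h | h
  · left
    intro e he
    rcases f2_cases (A (a e) + A (b e)) with h1 | h1
    · exact h1
    · have : e ∈ R.filter fun e => A (a e) + A (b e) = 1 := Finset.mem_filter.2 ⟨he, h1⟩
      rw [h] at this
      exact absurd this (Finset.notMem_empty _)
  · right
    intro e he
    rw [← h] at he
    exact (Finset.mem_filter.1 he).2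

theorem circ_ker' {U : Finset X} {R : Finset E} (hR : Circ a b U R) (hdeg : ∀ v ∈ vts a b R \ U, dg a b R v = 2)
    (A : X → F2) (hA : ∀ e ∈ R, A (a e) + A (b e) = 0) :
    (∀ v ∈ vts a b R, A v = 0) ∨ (∀ v ∈ vts a b R, A v = 1) := by
  have hab : ∀ e ∈ R, A (b e) = A (a e) := by
    intro e he
    calc A (b e) = A (a e) + (A (a e) + A (b e)) := by rw [← add_assoc, f2_add_self, zero_add]
      _ = A (a e) := by rw [hA e he, add_zero]
  have hev : EvenOff a b U (R.filter fun e => A (a e) = 1) := by
    intro v hv
    rw [bd_filter a b R (fun e => A (a e)) v]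
    by_cases hv' : v ∈ vts a b R
    · have hvI : v ∈ vts a b R \ U := Finset.mem_sdiff.2 ⟨hv', hv⟩
      have h1 : ∀ e ∈ R, A (a e) * ((if a e = v then 1 else 0) + (if b e = v then 1 else 0)) =
          A v * ((if a e = v then 1 else 0) + (if b e = v then 1 else 0)) := by
        intro e he
        by_cases c1 : a e = v
        · rw [c1]
        · by_cases c2 : b e = v
          · rw [← hab e he, c2]
          · rw [if_neg c1, if_neg c2, add_zero, mul_zero, mul_zero]
      rw [Finset.sum_congr rfl h1, ← Finset.mul_sum, sum_dg_cast, hdeg v hvI]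
      have : ((2 : ℕ) : F2) = 0 := rfl
      rw [this, mul_zero]
    · apply Finset.sum_eq_zero
      intro e he
      obtain ⟨n1, n2⟩ := off_end a b hv' he
      rw [if_neg n1, if_neg n2, add_zero, mul_zero]
  rcases hR.2.2 _ (Finset.filter_subset _ _) hev with h | h
  · left
    have h1 : ∀ e ∈ R, A (a e) = 0 := by
      intro e he
      rcases f2_cases (A (a e)) with h1 | h1
      · exact h1
      · have : e ∈ R.filter fun e => A (a e) = 1 := Finset.mem_filter.2 ⟨he, h1⟩
        rw [h] at this
        exact absurd this (Finset.notMem_empty _)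
    intro v hv
    obtain ⟨e, he, hev⟩ := dg_pos a b ((mem_vts a b).1 hv)
    rcases hev with hev | hev
    · rw [← hev]; exact h1 e he
    · rw [← hev, hab e he]; exact h1 e he
  · right
    have h1 : ∀ e ∈ R, A (a e) = 1 := by
      intro e he
      rw [← h] at he
      exact (Finset.mem_filter.1 he).2
    intro v hv
    obtain ⟨e, he, hev⟩ := dg_pos a b ((mem_vts a b).1 hv)
    rcases hev with hev | hev
    · rw [← hev]; exact h1 e he
    · rw [← hev, hab e he]; exact h1 e he

end Pool.Agent.EXG
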