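import Pool.Agent.EXG.CDim

/-!
# EXG-CStr: the structure of a circuit

Let `R` be a circuit relative to `U` without loops, `I = vts a b R \ U` (interior points).

PLAN. `∑ v, dg R v = 2 * R.card` (`sum_dg`), every `v ∈ I` has even (`EvenOff`, `bd_ind`, `ZMod.natCast_eq_zero_iff_even`),
positive degree, so `dg R v ≥ 2`; hence `2 * I.card ≤ ∑_{v ∈ I} dg R v ≤ 2 * R.card`, and `card_le` (CDim): `R.card ≤ I.card + 1`.
So `R.card = I.card` or `R.card = I.card + 1`.
* Case `R.card = I.card`: all inequalities are equalities: `dg R v = 2` on `I` and the degrees outside `I` vanish, so no edge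
  has an end in `U` (`dg_pos_of`). Pairs: `surj'` with `h x = (if x = v then 1 else 0) + (if x = v' then 1 else 0)` (sum zero
  on `I`); for `x ∉ U`, `x ∉ I` both sides vanish (`x` is not a point of `R`).
* Case `R.card = I.card + 1`: some edge has an end in `U` (otherwise `card_le'` gives `R.card ≤ I.card`), so
  `∑_{v ∉ I} dg R v > 0`, so `∑_{v ∈ I} dg R v ≤ 2 * R.card - 1 = 2 * I.card + 1`; all degrees on `I` are even and `≥ 2`, so all
  are equal to `2` and `∑_{v ∈ U} dg R v = 2 * R.card - 2 * I.card = 2`. The number of the edges of `R` meeting `U` is at most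
  `∑_{v ∈ U} dg R v = 2` (`sum_dg_on` in Helper35/OG/Abs: `∑ v ∈ U, dg R v = (R.filter (a e ∈ U)).card + (R.filter (b e ∈ U)).card`;
  the filter of `a e ∈ U ∨ b e ∈ U` is the union). Single points and pairs: `surj`. Boundary: at `x ∉ U` it is zero; on `U` the
  degrees have sum 2: either one point `u` has degree 2 (take `v = u`) or two points `u ≠ v` have degree 1; `bd_ind`.
-/

set_option autoImplicit false

open Finset

namespace Pool.Agent.EXG

open Pool.Agent.Helper35.OG Pool.Agent.Helper58.OG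

variable {X E : Type} [Fintype X] [DecidableEq X] [Fintype E] [DecidableEq E] (a b : E → X)

private theorem even_dg {U : Finset X} {R : Finset E} (hR : Circ a b U R) {v : X} (hv : v ∉ U) :
    Even (dg a b R v) := by
  have h1 := hR.2.1 v hv
  rw [bd_ind] at h1
  exact (ZMod.natCast_eq_zero_iff_even).1 h1

private theorem two_le {U : Finset X} {R : Finset E} (hR : Circ a b U R) {v : X}
    (hv : v ∈ vts a b R \ U) : 2 ≤ dg a b R v := by
  rw [Finset.mem_sdiff, mem_vts] at hv
  obtain ⟨r, hr⟩ := even_dg a b hR hv.2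
  omega

private theorem zero_dg {U : Finset X} {R : Finset E} {v : X} (h1 : v ∉ U)
    (h2 : v ∉ vts a b R \ U) : dg a b R v = 0 := by
  by_contra h3
  apply h2
  rw [Finset.mem_sdiff, mem_vts]
  exact ⟨Nat.pos_of_ne_zero h3, h1⟩

private theorem sum_split (U : Finset X) (R : Finset E) :
    ∑ v ∈ vts a b R \ U, dg a b R v + ∑ v ∈ U, dg a b R v = 2 * R.card := by
  rw [← sum_dg a b R, ← Finset.sum_sdiff (Finset.subset_univ U)]
  congr 1
  apply Finset.sum_subset (Finset.sdiff_subset_sdiff (Finset.subset_univ _) (Finset.Subset.refl _))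
  intro v hv hv'
  rw [Finset.mem_sdiff] at hv
  exact zero_dg a b hv.2 hv'

private theorem main_cases {U : Finset X} {R : Finset E} (hR : Circ a b U R) :
    ((vts a b R \ U).card = R.card ∧ ∑ v ∈ vts a b R \ U, dg a b R v = 2 * (vts a b R \ U).card ∧
      ∀ e ∈ R, a e ∉ U ∧ b e ∉ U) ∨
    ((vts a b R \ U).card + 1 = R.card ∧
      ∑ v ∈ vts a b R \ U, dg a b R v = 2 * (vts a b R \ U).card ∧
      ∑ v ∈ U, dg a b R v = 2 ∧ ∃ e ∈ R, a e ∈ U ∨ b e ∈ U) := by
  have h1 := sum_split a b U R
  have h2 : 2 * (vts a b R \ U).card ≤ ∑ v ∈ vts a b R \ U, dg a b R v := by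
    calc 2 * (vts a b R \ U).card = ∑ v ∈ vts a b R \ U, 2 := by
          rw [Finset.sum_const, smul_eq_mul, mul_comm]
      _ ≤ _ := Finset.sum_le_sum fun v hv => two_le a b hR hv
  have h3 := card_le a b hR
  have h4 : Even (∑ v ∈ vts a b R \ U, dg a b R v) := by
    apply Finset.even_sum
    intro v hv
    exact even_dg a b hR (Finset.mem_sdiff.1 hv).2
  by_cases hU : ∀ e ∈ R, a e ∉ U ∧ b e ∉ U
  · left
    have h5 := card_le' a b hR hU
    have h6 : ∑ v ∈ U, dg a b R v = 0 := by
      apply Finset.sum_eq_zero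
      intro v hv
      by_contra h7
      obtain ⟨e, he, h8⟩ := dg_pos a b (Nat.pos_of_ne_zero h7)
      rcases h8 with h8 | h8
      · exact (hU e he).1 (h8 ▸ hv)
      · exact (hU e he).2 (h8 ▸ hv)
    refine ⟨by omega, by omega, hU⟩
  · right
    push Not at hU
    obtain ⟨e, he, h5⟩ := hU
    have h6 : a e ∈ U ∨ b e ∈ U := by
      by_cases h7 : a e ∈ U
      · exact Or.inl h7
      · exact Or.inr (h5 h7)
    have h7 : 0 < ∑ v ∈ U, dg a b R v := by
      rcases h6 with h6 | h6
      · exact Finset.sum_pos' (fun _ _ => Nat.zero_le _) ⟨a e, h6, dg_pos_of a b he (Or.inl rfl)⟩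
      · exact Finset.sum_pos' (fun _ _ => Nat.zero_le _) ⟨b e, h6, dg_pos_of a b he (Or.inr rfl)⟩
    obtain ⟨r, hr⟩ := h4
    refine ⟨by omega, by omega, by omega, e, he, h6⟩

theorem circ_deg {U : Finset X} {R : Finset E} (hR : Circ a b U R) :
    ∀ v ∈ vts a b R \ U, dg a b R v = 2 := by
  have h1 : ∑ v ∈ vts a b R \ U, dg a b R v = 2 * (vts a b R \ U).card := by
    rcases main_cases a b hR with h | h
    · exact h.2.1
    · exact h.2.1
  intro v hv
  by_contra hne
  have h2 : 2 < dg a b R v := lt_of_le_of_ne (two_le a b hR hv) (Ne.symm hne)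
  have h3 : ∑ v ∈ vts a b R \ U, 2 < ∑ v ∈ vts a b R \ U, dg a b R v :=
    Finset.sum_lt_sum (fun w hw => two_le a b hR hw) ⟨v, hv, h2⟩
  rw [h1, Finset.sum_const, smul_eq_mul, mul_comm] at h3
  exact lt_irrefl _ h3

private theorem off_zero {U : Finset X} {R D : Finset E} (hD : D ⊆ R) {x : X} (h1 : x ∉ U)
    (h2 : x ∉ vts a b R \ U) : bd a b (ind D) x = 0 := by
  rw [bd_ind]
  have h3 := dg_mono a b hD x
  rw [zero_dg a b h1 h2] at h3
  rw [Nat.le_zero.1 h3, Nat.cast_zero]

private theorem surj_ext {U : Finset X} {R D : Finset E} (hD : D ⊆ R) {h : X → F2}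
    (h1 : ∀ x ∈ vts a b R \ U, bd a b (ind D) x = h x) (h2 : ∀ x, x ∉ vts a b R \ U → h x = 0) :
    ∀ x, x ∉ U → bd a b (ind D) x = h x := by
  intro x hx
  by_cases h3 : x ∈ vts a b R \ U
  · exact h1 x h3
  · rw [off_zero a b hD hx h3, h2 x h3]

theorem circ_pair {U : Finset X} {R : Finset E} (hR : Circ a b U R) :
    ∀ v ∈ vts a b R \ U, ∀ v' ∈ vts a b R \ U, ∃ D ⊆ R, ∀ x, x ∉ U →
      bd a b (ind D) x = (if x = v then 1 else 0) + (if x = v' then 1 else 0) := by
  intro v hv v' hv'
  have hz : ∀ x, x ∉ vts a b R \ U → ((if x = v then 1 else 0) + (if x = v' then 1 else 0) : F2) = 0 := by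
    intro x hx
    rw [if_neg (fun h : x = v => hx (h ▸ hv)), if_neg (fun h : x = v' => hx (h ▸ hv')), add_zero]
  rcases main_cases a b hR with h | h
  · obtain ⟨D, hD, h2⟩ := surj' a b hR h.2.2 h.1.symm
      (fun x => (if x = v then 1 else 0) + (if x = v' then 1 else 0)) (by
        rw [Finset.sum_add_distrib, Finset.sum_ite_eq', Finset.sum_ite_eq', if_pos hv, if_pos hv']
        exact f2_add_self 1)
    exact ⟨D, hD, surj_ext a b hD h2 hz⟩
  · obtain ⟨D, hD, h2⟩ := surj a b hR h.1.symm
      (fun x => (if x = v then 1 else 0) + (if x = v' then 1 else 0))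
    exact ⟨D, hD, surj_ext a b hD h2 hz⟩

theorem circ_str {U : Finset X} {R : Finset E} (hR : Circ a b U R) :
    ((vts a b R \ U).card = R.card ∧ ∀ e ∈ R, a e ∉ U ∧ b e ∉ U) ∨
    ((vts a b R \ U).card + 1 = R.card ∧ (∃ e ∈ R, a e ∈ U ∨ b e ∈ U) ∧
      (R.filter fun e => a e ∈ U ∨ b e ∈ U).card ≤ 2 ∧
      (∀ v ∈ vts a b R \ U, ∃ D ⊆ R, ∀ x, x ∉ U → bd a b (ind D) x = if x = v then 1 else 0) ∧
      ∃ u ∈ U, ∃ v ∈ U, ∀ x, bd a b (ind R) x = (if x = u then 1 else 0) + (if x = v then 1 else 0)) := by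
  rcases main_cases a b hR with ⟨h1, _, h2⟩ | ⟨h1, h2, h3, h4⟩
  · exact Or.inl ⟨h1, h2⟩
  right
  refine ⟨h1, h4, ?_, ?_, ?_⟩
  · rw [Finset.filter_or]
    refine (Finset.card_union_le _ _).trans ?_
    have h5 := sum_dg_on a b R U
    rw [h3] at h5
    omega
  · intro v hv
    obtain ⟨D, hD, h5⟩ := surj a b hR h1.symm (fun x => if x = v then 1 else 0)
    exact ⟨D, hD, surj_ext a b hD h5 (fun x hx => if_neg (fun h : x = v => hx (h ▸ hv)))⟩
  · have hoff : ∀ x, x ∉ U → bd a b (ind R) x = 0 := hR.2.1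
    by_cases h5 : ∃ u ∈ U, 2 ≤ dg a b R u
    · obtain ⟨u, hu, h6⟩ := h5
      have h7 : ∀ x ∈ U, x ≠ u → dg a b R x = 0 := by
        intro x hx hne
        have h8 : ∑ v ∈ {x, u}, dg a b R v ≤ ∑ v ∈ U, dg a b R v :=
          Finset.sum_le_sum_of_subset (by
            intro y hy
            rcases Finset.mem_insert.1 hy with hy | hy
            · exact hy ▸ hx
            · exact (Finset.mem_singleton.1 hy) ▸ hu)
        rw [Finset.sum_pair hne, h3] at h8
        omega
      have h8 : dg a b R u = 2 := by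
        have h9 := Finset.single_le_sum (f := fun v => dg a b R v) (fun _ _ => Nat.zero_le _) hu
        rw [h3] at h9
        have h10 : dg a b R u ≤ 2 := h9
        omega
      refine ⟨u, hu, u, hu, ?_⟩
      intro x
      rw [f2_add_self]
      by_cases hx : x ∈ U
      · rw [bd_ind]
        by_cases hxu : x = u
        · rw [hxu, h8]
          exact CharTwo.two_eq_zero
        · rw [h7 x hx hxu, Nat.cast_zero]
      · exact hoff x hx
    · push Not at h5
      have h6 : ((U.filter fun v => dg a b R v = 1)).card = 2 := by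
        rw [Finset.card_filter, ← h3]
        apply Finset.sum_congr rfl
        intro v hv
        have h7 := h5 v hv
        split_ifs with h8
        · exact h8.symm
        · omega
      obtain ⟨u, v, hne, h7⟩ := Finset.card_eq_two.1 h6
      have hu : u ∈ U.filter fun v => dg a b R v = 1 := by rw [h7]; simp
      have hv : v ∈ U.filter fun v => dg a b R v = 1 := by rw [h7]; simp
      rw [Finset.mem_filter] at hu hv
      refine ⟨u, hu.1, v, hv.1, ?_⟩
      intro x
      by_cases hx : x ∈ U
      · rw [bd_ind]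
        by_cases hxu : x = u
        · rw [hxu, hu.2, if_pos rfl, if_neg hne, Nat.cast_one, add_zero]
        · by_cases hxv : x = v
          · rw [hxv, hv.2, if_pos rfl, if_neg (Ne.symm hne), Nat.cast_one, zero_add]
          · have h8 : dg a b R x ≠ 1 := by
              intro h9
              have h10 : x ∈ U.filter fun v => dg a b R v = 1 := Finset.mem_filter.2 ⟨hx, h9⟩
              rw [h7, Finset.mem_insert, Finset.mem_singleton] at h10
              rcases h10 with h10 | h10
              · exact hxu h10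
              · exact hxv h10
            have h9 := h5 x hx
            have h10 : dg a b R x = 0 := by omega
            rw [h10, if_neg hxu, if_neg hxv, Nat.cast_zero, add_zero]
      · rw [hoff x hx, if_neg (fun h : x = u => hx (h ▸ hu.1)), if_neg (fun h : x = v => hx (h ▸ hv.1)), add_zero]

end Pool.Agent.EXG
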