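import Pool.Agent.EXG.Base

/-!
# EXG-Frm (theorem `qe_symm`): the intersection form of a map

Let `x` be a dart, `p1 = (x, true)`, `p2 = side p1 = (x, false)`, `p3 = across p1 = (x.symm, false)`,
`p4 = across p2 = side p3 = (x.symm, true)`. For a chain `P` (`Cyc` at `p1`): `P p1 + P p2 = P p3 + P p4`.

The sum of the products over all the flags vanishes, and the four flags of an edge give the two forms.
-/

set_option autoImplicit false

open Finset

namespace Pool.Agent.EXG

open Pool.Agent.Helper35.OG Pool.Agent.Helper58.OG

variable {V : Type} [Fintype V] [DecidableEq V] {G : SimpleGraph V} [DecidableRel G.Adj]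
variable (S : GMap G)

theorem qe_symm {P Q : Flag G → F2} (hP : Ch S P) (hQ : Ch S Q) : qe P Q = qe Q P := by
  have h1 : ∑ p, P p * Q p = 0 := sum_nxt S (P := fun p => P p * Q p) (fun p => by
    show P (S.nxt p) * Q (S.nxt p) = P p * Q p
    rw [hP.1 p, hQ.1 p])
  have h2 : ∑ d : G.Dart, (P (d, true) * Q (d, true) + P (d, false) * Q (d, false)) = 0 := by
    rw [Fintype.sum_prod_type] at h1
    refine Eq.trans ?_ h1
    apply Finset.sum_congr rfl
    intro d _
    rw [Fintype.sum_bool]
  rw [sum_half (fun d : G.Dart => d.symm) (fun d => d.symm_symm) symm_ne dord dord_inj] at h2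
  have h3 : qe P Q + qe Q P = 0 := by
    refine Eq.trans ?_ h2
    unfold qe
    rw [← Finset.sum_add_distrib]
    apply Finset.sum_congr rfl
    intro e _
    have hp : P (e.1.symm, false) + P (e.1.symm, true) = P (e.1, true) + P (e.1, false) := hP.2 (e.1, true)
    have hq : Q (e.1.symm, false) + Q (e.1.symm, true) = Q (e.1, true) + Q (e.1, false) := hQ.2 (e.1, true)
    show (Q (e.1, true) + Q (e.1, false)) * (P (e.1, true) + P (e.1.symm, false)) +
      (P (e.1, true) + P (e.1, false)) * (Q (e.1, true) + Q (e.1.symm, false)) =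
      P (e.1, true) * Q (e.1, true) + P (e.1, false) * Q (e.1, false) +
      (P (e.1.symm, true) * Q (e.1.symm, true) + P (e.1.symm, false) * Q (e.1.symm, false))
    generalize P (e.1, true) = p1 at *
    generalize P (e.1, false) = p2 at *
    generalize P (e.1.symm, false) = p3 at *
    generalize P (e.1.symm, true) = p4 at *
    generalize Q (e.1, true) = q1 at *
    generalize Q (e.1, false) = q2 at *
    generalize Q (e.1.symm, false) = q3 at *
    generalize Q (e.1.symm, true) = q4 at *
    clear h1 h2
    revert p1 p2 p3 p4 q1 q2 q3 q4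
    decide
  exact CharTwo.add_eq_zero.1 h3

end Pool.Agent.EXG
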