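import Pool.Agent.EXG.Hf

/-!
# EXG-FrmB: the form of `S`, the arcs and the faces of `T`

The form of two chains of `S` and the form of the pair `(S, T)` differ by the intersections with a lift of the first chain to
`T`; they agree if the lift is a combination of faces of `T`.
-/

set_option autoImplicit false

open Finset

namespace Pool.Agent.EXG

open Pool.Agent.Helper35.OG Pool.Agent.Helper58.OG

variable {V : Type} [Fintype V] [DecidableEq V] {G : SimpleGraph V} [DecidableRel G.Adj]
variable (S T : GMap G)

theorem qe_lift {P Q L : Flag G → F2} (hP : Ch S P) (hQ : Ch S Q) (hL : IsLift T P L) :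
    qe P Q + hf T P Q =
      ∑ e : ERep G, (Q (e.1, true) + Q (e.1, false)) * (L (e.1, true) + L (across (e.1, true))) := by
  have h1 : ∑ p : Flag G, P p * Q p = 0 := sum_nxt S (P := fun p => P p * Q p) (fun p => by
    show P (S.nxt p) * Q (S.nxt p) = P p * Q p
    rw [hP.1 p, hQ.1 p])
  have h2 : hf T P Q = ∑ p : Flag G, (L p + P p) * Q p := by
    rw [hf_eq S hL hQ.1]
    simp only [add_mul, Finset.sum_add_distrib]
    rw [h1, add_zero]
  have h3 : ∑ p : Flag G, (L p + P p) * Q p =
      ∑ d : G.Dart, (L (d, true) + P (d, true)) * (Q (d, true) + Q (d, false)) := by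
    rw [Fintype.sum_prod_type]
    apply Finset.sum_congr rfl
    intro d _
    rw [Fintype.sum_bool]
    have h4 : L (d, false) + P (d, false) = L (d, true) + P (d, true) := hL.2 (d, true)
    rw [h4, mul_add]
  rw [h2, h3, sum_half (fun d : G.Dart => d.symm) (fun d => d.symm_symm) symm_ne dord dord_inj]
  unfold qe
  rw [← Finset.sum_add_distrib]
  apply Finset.sum_congr rfl
  intro e _
  have h5 : Q (e.1.symm, true) + Q (e.1.symm, false) = Q (e.1, true) + Q (e.1, false) := by
    rw [add_comm]
    exact hQ.2 (e.1, true)
  have h6 : L (across (e.1, true)) + P (across (e.1, true)) = L (e.1.symm, true) + P (e.1.symm, true) :=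
    hL.2 (e.1.symm, true)
  show (Q (e.1, true) + Q (e.1, false)) * (P (e.1, true) + P (across (e.1, true))) +
      ((L (e.1, true) + P (e.1, true)) * (Q (e.1, true) + Q (e.1, false)) +
        (L (e.1.symm, true) + P (e.1.symm, true)) * (Q (e.1.symm, true) + Q (e.1.symm, false))) = _
  rw [h5, ← h6]
  have h7 := f2_add_self (P (e.1, true))
  have h8 := f2_add_self (P (across (e.1, true)))
  linear_combination (Q (e.1, true) + Q (e.1, false)) * h7 + (Q (e.1, true) + Q (e.1, false)) * h8

theorem qe_face {P Q : Flag G → F2} (hP : Ch S P) (hQ : Ch S Q) {B : T.Face → F2}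
    (hL : IsLift T P (fun p => B (T.face p))) : qe P Q = hf T P Q := by
  have h2 : qe P Q + hf T P Q = 0 := by
    rw [qe_lift S T hP hQ hL]
    apply Finset.sum_eq_zero
    intro e _
    show (Q (e.1, true) + Q (e.1, false)) * (B (T.face (e.1, true)) + B (T.face (across (e.1, true)))) = 0
    rw [face_across, f2_add_self, mul_zero]
  have h3 := f2_add_self (hf T P Q)
  linear_combination h2 - h3

theorem exists_chain_of_face (B : T.Face → F2) : ∃ P, Ch S P ∧ IsLift T P (fun p => B (T.face p)) := by
  have hN : NInv T (fun p => B (T.face p)) := by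
    intro p
    show B (T.face (T.nxt p)) = B (T.face p)
    rw [face_nxt]
  obtain ⟨P, hP1, hP2⟩ := exists_lift T S hN
  refine ⟨P, ⟨hP1, ?_⟩, hN, ?_⟩
  · intro p
    have h1 : P (side p) + B (T.face (side p)) = P p + B (T.face p) := hP2 p
    have h2 : P (side (across p)) + B (T.face (side (across p))) = P (across p) + B (T.face (across p)) :=
      hP2 (across p)
    have h3 : side (across p) = across (side p) := rfl
    have h4 : T.face (side (across p)) = T.face (side p) := by rw [h3, face_across]
    rw [h4, face_across] at h2
    have h5 := f2_add_self (P (across p))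
    have h6 := f2_add_self (P p)
    linear_combination h2 - h1 + h5 - h6
  · intro p
    show B (T.face (side p)) + P (side p) = B (T.face p) + P p
    have h1 : P (side p) + B (T.face (side p)) = P p + B (T.face p) := hP2 p
    rw [add_comm, h1, add_comm]

/-- the chains of faces are in the radical of the form -/
theorem qe_fac {Q : Flag G → F2} (A : S.Face → F2) : qe (fun p => A (S.face p)) Q = 0 := by
  unfold qe
  apply Finset.sum_eq_zero
  intro e _
  show (Q (e.1, true) + Q (e.1, false)) * (A (S.face (e.1, true)) + A (S.face (across (e.1, true)))) = 0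
  rw [face_across, f2_add_self, mul_zero]

end Pool.Agent.EXG
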