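import Pool.Agent.EXG.Cut
import Pool.Agent.EXG.Frm
import Pool.Agent.EXG.FrmB

/-!
# EXG-CaseA: a face chain of `T` is a multiple of the orientation character on `S`
-/

set_option autoImplicit false

open Finset

namespace Pool.Agent.EXG

open Pool.Agent.Helper35.OG Pool.Agent.Helper58.OG

variable {V : Type} [Fintype V] [DecidableEq V] {G : SimpleGraph V} [DecidableRel G.Adj]
variable (S T : GMap G)

private theorem sum_ind {E : Type} [Fintype E] [DecidableEq E] (ν : Finset E) (y : E → F2) :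
    ∑ e ∈ ν, y e = ∑ e, ind ν e * y e := by
  unfold ind
  simp only [ite_mul, one_mul, zero_mul]
  rw [Finset.sum_ite_mem, Finset.univ_inter]

private theorem qe_add {P Q Q' : Flag G → F2} :
    qe P (fun p => Q p + Q' p) = qe P Q + qe P Q' := by
  unfold qe
  rw [← Finset.sum_add_distrib]
  refine Finset.sum_congr rfl fun e _ => ?_
  ring

private theorem pr_add_right (x : S.Rep → F2) (P Q : Flag G → F2) :
    pr S x (fun p => P p + Q p) = pr S x P + pr S x Q := by
  unfold pr
  rw [← Finset.sum_add_distrib]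
  refine Finset.sum_congr rfl fun r _ => ?_
  ring

theorem gauge {lam : Finset (Arc S T)}
    (h01 : ∀ ν ⊆ lam, bd (fa S T) (fb S T) (ind ν) = 0 →
      cls S T (ind ν) = 0 ∨ cls S T (ind ν) = cls S T (ind Finset.univ))
    {κ : Flag G → F2} (hκ : IsBand κ) (hκT : ∀ p, κ (T.nxt p) ≠ κ p) {Z : Flag G → F2} (hZ : Ch S Z)
    (h0 : pr S (bad S κ) Z = 0) : ∃ A : S.Face → F2, ∀ j ∈ lam, xx S T Z j = A (fa S T j) + A (fb S T j) := by
  refine cut (fa S T) (fb S T) lam (xx S T Z) fun ν hν hbd => ?_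
  rw [sum_ind]
  rcases h01 ν hν hbd with h | h
  · rw [sum_cls S T (u' := 0) (by rw [h, map_zero]) hZ]
    exact Finset.sum_eq_zero fun j _ => zero_mul _
  · rw [sum_cls S T h hZ, ← pr_tt, tt_univ S T hκ hκT, h0]

theorem tval {lam : Finset (Arc S T)} (hc : Clean S T lam)
    (h01 : ∀ ν ⊆ lam, bd (fa S T) (fb S T) (ind ν) = 0 →
      cls S T (ind ν) = 0 ∨ cls S T (ind ν) = cls S T (ind Finset.univ))
    {κ : Flag G → F2} (hκ : IsBand κ) (hκT : ∀ p, κ (T.nxt p) ≠ κ p) {Q0 : Flag G → F2} (hQ0 : Ch S Q0)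
    (hQ1 : pr S (bad S κ) Q0 = 1) {P : Flag G → F2} (hP : Ch S P) {B : T.Face → F2}
    (hL : IsLift T P (fun p => B (T.face p))) :
    ∀ Q, Ch S Q → qe P Q = qe P Q0 * pr S (bad S κ) Q := by
  have key : ∀ Z, Ch S Z → pr S (bad S κ) Z = 0 → qe P Z = 0 := by
    intro Z hZ h0
    obtain ⟨A, hA⟩ := gauge S T h01 hκ hκT hZ h0
    have hZ' := ch_add S hZ (ch_fac S A)
    have h1 : qe P (fun p => Z p + A (S.face p)) = 0 := by
      rw [qe_face S T hP hZ' hL, hc.hf_eq P _ hP hZ']
      refine Finset.sum_eq_zero fun j hj => ?_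
      have h2 : xx S T (fun p => Z p + A (S.face p)) j =
          xx S T Z j + (A (fa S T j) + A (fb S T j)) := by
        rw [← xx_fac S T A j]
        unfold xx
        ring
      rw [h2, hA j hj, f2_add_self, mul_zero]
    have h2 : qe P (fun p => A (S.face p)) = 0 := by
      rw [qe_symm S hP (ch_fac S A), qe_fac]
    rw [qe_add, h2, add_zero] at h1
    exact h1
  intro Q hQ
  rcases f2_cases (pr S (bad S κ) Q) with h | h
  · rw [key Q hQ h, h, mul_zero]
  · have h1 := key _ (ch_add S hQ hQ0) (by rw [pr_add_right, h, hQ1, f2_add_self])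
    rw [qe_add] at h1
    rw [h, mul_one]
    calc qe P Q = qe P Q + (qe P Q0 + qe P Q0) := by rw [f2_add_self, add_zero]
      _ = (qe P Q + qe P Q0) + qe P Q0 := by ring
      _ = qe P Q0 := by rw [h1, zero_add]

end Pool.Agent.EXG
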