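import Pool.Agent.EXG.NdgA

/-!
# EXG-Ndg: nondegeneracy of the intersection form

A chain orthogonal to all chains is the sum of a function of the face and a function of the vertex.
-/

set_option autoImplicit false

open Finset

namespace Pool.Agent.EXG

open Pool.Agent.Helper35.OG Pool.Agent.Helper58.OG

variable {V : Type} [Fintype V] [DecidableEq V] {G : SimpleGraph V} [DecidableRel G.Adj]
variable (S : GMap G)

private theorem f2_of_add {a b c d : F2} (h : a + b = c + d) : d + b = c + a := by
  have h1 : d + b = (a + b) + (a + d) := by
    have h2 := f2_add_self a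
    calc d + b = (d + b) + 0 := (add_zero _).symm
      _ = (d + b) + (a + a) := by rw [h2]
      _ = (a + b) + (a + d) := by ring
  have h3 : c + a = (c + d) + (a + d) := by
    have h2 := f2_add_self d
    calc c + a = (c + a) + 0 := (add_zero _).symm
      _ = (c + a) + (d + d) := by rw [h2]
      _ = (c + d) + (a + d) := by ring
  rw [h1, h3, h]

omit [Fintype V] [DecidableEq V] [DecidableRel G.Adj] in
private theorem w_across (P : Flag G → F2) (p : Flag G) :
    P (across p) + P (across (across p)) = P p + P (across p) := by
  rw [across_across, add_comm]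

omit [Fintype V] [DecidableEq V] [DecidableRel G.Adj] in
private theorem across_side (p : Flag G) : across (side p) = side (across p) := rfl

private theorem w_side {P : Flag G → F2} (hP : Cyc P) (p : Flag G) :
    P (side p) + P (across (side p)) = P p + P (across p) := by
  rw [across_side]
  exact f2_of_add (hP p)

theorem nondeg {P : Flag G → F2} (hP : Ch S P) (h : ∀ Q, Ch S Q → qe P Q = 0) :
    ∃ (A : S.Face → F2) (D : V → F2), ∀ p, P p = A (S.face p) + D p.1.fst := by
  have h1 : ∀ ν ⊆ (Finset.univ : Finset (ERep G)),
      bd (fun e : ERep G => e.1.fst) (fun e : ERep G => e.1.snd) (ind ν) = 0 →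
      ∑ e ∈ ν, (P (e.1, true) + P (across (e.1, true))) = 0 := by
    intro ν _ hν
    obtain ⟨Q, hQ, hz⟩ := exists_chain S (ind ν) (mem_orth.2 (fun v => congrFun hν v))
    have h2 := h Q hQ
    rw [← h2]
    unfold qe
    have h3 : ∀ e : ERep G, (Q (e.1, true) + Q (e.1, false)) * (P (e.1, true) + P (across (e.1, true)))
        = if e ∈ ν then (P (e.1, true) + P (across (e.1, true))) else 0 := by
      intro e
      have h4 : Q (e.1, true) + Q (e.1, false) = ind ν e := by
        have h5 := hz (e.1, true)
        rw [erep_rep] at h5
        exact h5
      rw [h4]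
      unfold ind
      by_cases he : e ∈ ν
      · rw [if_pos he, if_pos he, one_mul]
      · rw [if_neg he, if_neg he, zero_mul]
    rw [Finset.sum_congr rfl (fun e _ => h3 e), Finset.sum_ite_mem, Finset.univ_inter]
  obtain ⟨D, hD⟩ := cut (fun e : ERep G => e.1.fst) (fun e : ERep G => e.1.snd) Finset.univ
    (fun e => P (e.1, true) + P (across (e.1, true))) h1
  have h2 : ∀ p : Flag G, P p + P (across p) = D p.1.fst + D p.1.snd := by
    have hside : ∀ x : G.Dart, P (x, false) + P (across (x, false)) = P (x, true) + P (across (x, true)) := by
      intro x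
      exact w_side hP.2 (x, true)
    rintro ⟨x, s⟩
    have hx : P (x, s) + P (across (x, s)) = P (x, true) + P (across (x, true)) := by
      cases s
      · exact hside x
      · rfl
    rw [hx]
    show P (x, true) + P (across (x, true)) = D x.fst + D x.snd
    have h3 : P ((erep x).1, true) + P (across ((erep x).1, true)) = D (erep x).1.fst + D (erep x).1.snd :=
      hD (erep x) (Finset.mem_univ _)
    rcases erep_eq x with h4 | h4
    · rw [h4] at h3
      exact h3
    · rw [h4] at h3
      have h5 : P (x.symm, true) + P (across (x.symm, true)) = P (x, false) + P (across (x, false)) :=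
        w_across P (x, false)
      rw [← hside x, ← h5, h3]
      show D x.snd + D x.fst = D x.fst + D x.snd
      exact add_comm _ _
  have h3 : ∀ p q : Flag G, (q = S.nxt p ∨ q = across p) → P p + D p.1.fst = P q + D q.1.fst := by
    rintro p q (hq | hq)
    · rw [hq, hP.1 p, S.nxt_fst p]
    · rw [hq, across_fst]
      have h4 := h2 p
      have h5 : P (across p) + D p.1.snd = P p + D p.1.fst := by
        have h6 : P (across p) + P p = D p.1.fst + D p.1.snd := by rw [add_comm]; exact h4
        have h7 := f2_of_add h6
        calc P (across p) + D p.1.snd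
            = (D p.1.fst + P (across p)) + (D p.1.fst + D p.1.snd) := by
              have h8 := f2_add_self (D p.1.fst)
              calc P (across p) + D p.1.snd = (P (across p) + D p.1.snd) + 0 := (add_zero _).symm
                _ = (P (across p) + D p.1.snd) + (D p.1.fst + D p.1.fst) := by rw [h8]
                _ = _ := by ring
          _ = (D p.1.snd + P p) + (D p.1.fst + D p.1.snd) := by rw [h7]
          _ = (P p + D p.1.fst) + (D p.1.snd + D p.1.snd) := by ring
          _ = P p + D p.1.fst := by rw [f2_add_self, add_zero]
      exact h5.symm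
  refine ⟨Quot.lift (fun p => P p + D p.1.fst) h3, D, ?_⟩
  intro p
  show P p = (P p + D p.1.fst) + D p.1.fst
  rw [add_assoc, f2_add_self, add_zero]

end Pool.Agent.EXG
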