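import Pool.Agent.EXG.CaseA
import Pool.Agent.EXG.Ndg

/-!
# EXG-CaseB: kernel vectors from face chains of `T`

A function `A` on the faces of `S` whose coboundary is orthogonal (along `lam`) to all face chains is in the kernel of the
adjacency matrix of `lam` (`cb_ker`). This applies to the function given by `nondeg` (`case_zero`) and to the one given by
`gauge` (`case_one`).
-/

set_option autoImplicit false

open Finset

namespace Pool.Agent.EXG

open Pool.Agent.Helper35.OG Pool.Agent.Helper58.OG

private theorem cb_two : (2 : F2) = 0 := rfl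

private theorem cb_sum {E : Type} [Fintype E] [DecidableEq E] (lam : Finset E) (F : E → F2) :
    ∑ e, ind lam e * F e = ∑ e ∈ lam, F e := by
  unfold ind
  simp only [ite_mul, one_mul, zero_mul]
  rw [Finset.sum_ite_mem, Finset.univ_inter]

private theorem cb_ker {X E : Type} [Fintype X] [DecidableEq X] [Fintype E] [DecidableEq E] (a b : E → X)
    {lam : Finset E} (h : bd a b (ind lam) = 0) (A : X → F2)
    (hA : ∀ g, ∑ e ∈ lam, (A (a e) + A (b e)) * ((if a e = g then 1 else 0) + (if b e = g then 1 else 0)) = 0) :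
    A ∈ kerA a b lam := by
  rw [mem_kerA, inKer_iff]
  intro g
  have h1 : ∑ e, ind lam e * ((if a e = g then 1 else 0) + (if b e = g then 1 else 0)) = 0 := congrFun h g
  have h2 := hA g
  rw [← cb_sum] at h2
  calc ∑ e, ind lam e * ((if a e = g then A (b e) else 0) + (if b e = g then A (a e) else 0)) =
      ∑ e, (ind lam e * ((A (a e) + A (b e)) * ((if a e = g then 1 else 0) + (if b e = g then 1 else 0))) +
        A g * (ind lam e * ((if a e = g then 1 else 0) + (if b e = g then 1 else 0)))) := by
        apply Finset.sum_congr rfl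
        intro e _
        by_cases ha : a e = g <;> by_cases hb : b e = g
        · rw [if_pos ha, if_pos hb, if_pos ha, if_pos hb, ha, hb]
          linear_combination (-2 * ind lam e * A g) * cb_two
        · rw [if_pos ha, if_neg hb, if_pos ha, if_neg hb, ha]
          linear_combination (-(ind lam e * A g)) * cb_two
        · rw [if_neg ha, if_pos hb, if_neg ha, if_pos hb, hb]
          linear_combination (-(ind lam e * A g)) * cb_two
        · rw [if_neg ha, if_neg hb, if_neg ha, if_neg hb]
          ring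
    _ = 0 := by rw [Finset.sum_add_distrib, ← Finset.mul_sum, h1, h2, mul_zero, add_zero]

variable {V : Type} [Fintype V] [DecidableEq V] {G : SimpleGraph V} [DecidableRel G.Adj]
variable (S T : GMap G)

theorem case_zero {lam : Finset (Arc S T)} (hc : Clean S T lam) {P : Flag G → F2} (hP : Ch S P) {B : T.Face → F2}
    (hL : IsLift T P (fun p => B (T.face p))) (h0 : ∀ Q, Ch S Q → qe P Q = 0) :
    ∃ A ∈ kerA (fa S T) (fb S T) lam,
      (∀ p, B (T.face p) + B (T.face (side p)) = A (S.face p) + A (S.face (side p))) ∧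
      ∀ Q, Ch S Q → ∑ j ∈ lam, (A (fa S T j) + A (fb S T j)) * xx S T Q j = 0 := by
  obtain ⟨A, D, hAD⟩ := nondeg S hP h0
  have hx : ∀ j, xx S T P j = A (fa S T j) + A (fb S T j) := by
    intro j
    have h1 : (a0 S T j).1.1.fst = (b0 S T j).1.1.fst := be_fst S T j.2.2
    show P (a0 S T j).1 + P (b0 S T j).1 = A (S.face (a0 S T j).1) + A (S.face (b0 S T j).1)
    rw [hAD, hAD, h1]
    linear_combination D (b0 S T j).1.1.fst * cb_two
  have hall : ∀ Q, Ch S Q → ∑ j ∈ lam, (A (fa S T j) + A (fb S T j)) * xx S T Q j = 0 := by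
    intro Q hQ
    rw [← h0 Q hQ, qe_face S T hP hQ hL, hc.hf_eq P Q hP hQ]
    apply Finset.sum_congr rfl
    intro j _
    rw [hx]
  refine ⟨A, cb_ker _ _ hc.bd_eq A ?_, ?_, hall⟩
  · intro g
    exact hall (fun p => (fun f => if f = g then (1 : F2) else 0) (S.face p))
      (ch_fac S (fun f => if f = g then (1 : F2) else 0))
  · intro p
    have h1 : B (T.face (side p)) + P (side p) = B (T.face p) + P p := hL.2 p
    rw [hAD, hAD p, side_fst] at h1
    linear_combination h1 + (B (T.face p) - A (S.face (side p))) * cb_two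

theorem case_one {lam : Finset (Arc S T)} (hc : Clean S T lam)
    (h01 : ∀ ν ⊆ lam, bd (fa S T) (fb S T) (ind ν) = 0 →
      cls S T (ind ν) = 0 ∨ cls S T (ind ν) = cls S T (ind Finset.univ))
    {κ : Flag G → F2} (hκ : IsBand κ) (hκT : ∀ p, κ (T.nxt p) ≠ κ p) {P : Flag G → F2} (hP : Ch S P)
    {B : T.Face → F2} (hL : IsLift T P (fun p => B (T.face p)))
    (h1 : ∀ Q, Ch S Q → qe P Q = pr S (bad S κ) Q) (hw : pr S (bad S κ) P = 0) :
    ∃ A ∈ kerA (fa S T) (fb S T) lam,
      ∀ Q, Ch S Q → ∑ j ∈ lam, (A (fa S T j) + A (fb S T j)) * xx S T Q j = pr S (bad S κ) Q := by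
  obtain ⟨A, hA⟩ := gauge S T h01 hκ hκT hP hw
  have hall : ∀ Q, Ch S Q → ∑ j ∈ lam, (A (fa S T j) + A (fb S T j)) * xx S T Q j = pr S (bad S κ) Q := by
    intro Q hQ
    rw [← h1 Q hQ, qe_face S T hP hQ hL, hc.hf_eq P Q hP hQ]
    apply Finset.sum_congr rfl
    intro j hj
    rw [hA j hj]
  refine ⟨A, cb_ker _ _ hc.bd_eq A ?_, hall⟩
  intro g
  exact (hall (fun p => (fun f => if f = g then (1 : F2) else 0) (S.face p))
    (ch_fac S (fun f => if f = g then (1 : F2) else 0))).trans (bad_face S hκ g)

end Pool.Agent.EXG
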