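import Pool.Agent.EXG.Base

/-!
# EXG-Cut: a function on the edges orthogonal to the even sets is a coboundary
-/

set_option autoImplicit false

open Finset

namespace Pool.Agent.EXG

open Pool.Agent.Helper35.OG Pool.Agent.Helper58.OG

variable {X E : Type} [Fintype X] [DecidableEq X] [Fintype E] [DecidableEq E] (a b : E → X)

theorem cut (lam : Finset E) (y : E → F2) (h : ∀ ν ⊆ lam, bd a b (ind ν) = 0 → ∑ e ∈ ν, y e = 0) :
    ∃ A : X → F2, ∀ e ∈ lam, y e = A (a e) + A (b e) := by
  classical
  obtain ⟨Φ, hΦ⟩ : ∃ Φ : (X → F2) →ₗ[F2] (E → F2),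
      ∀ A e, Φ A e = if e ∈ lam then A (a e) + A (b e) else 0 :=
    ⟨{ toFun := fun A e => if e ∈ lam then A (a e) + A (b e) else 0
       map_add' := fun A B => by
        funext e
        simp only [Pi.add_apply]
        split_ifs <;> ring
       map_smul' := fun r A => by
        funext e
        simp only [Pi.smul_apply, smul_eq_mul, RingHom.id_apply]
        split_ifs <;> ring }, fun _ _ => rfl⟩
  obtain ⟨y0, hy0⟩ : ∃ y0 : E → F2, ∀ e, y0 e = if e ∈ lam then y e else 0 :=
    ⟨fun e => if e ∈ lam then y e else 0, fun _ => rfl⟩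
  by_cases hx : y0 ∈ LinearMap.range Φ
  · obtain ⟨A, hA⟩ := hx
    refine ⟨A, fun e he => ?_⟩
    have h1 := congrFun hA e
    rw [hΦ, hy0, if_pos he, if_pos he] at h1
    exact h1.symm
  · exfalso
    obtain ⟨f, hf1, hf2⟩ := Submodule.exists_dual_map_eq_bot_of_notMem hx inferInstance
    obtain ⟨u, hu⟩ : ∃ u : E → F2, ∀ z, f z = ∑ e, z e * u e :=
      ⟨fun e => f (fun j => if e = j then 1 else 0), fun z => by
        rw [LinearMap.pi_apply_eq_sum_univ f z]
        rfl⟩
    have hvan : ∀ A, ∑ e, Φ A e * u e = 0 := fun A => by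
      rw [← hu]
      have h1 : f (Φ A) ∈ (LinearMap.range Φ).map f :=
        Submodule.mem_map_of_mem (LinearMap.mem_range_self Φ A)
      rw [hf2] at h1
      exact (Submodule.mem_bot F2).1 h1
    have hind : ∀ e, ind (lam.filter fun e => u e ≠ 0) e = if e ∈ lam then u e else 0 := by
      intro e
      unfold ind
      by_cases he : e ∈ lam
      · rw [if_pos he]
        rcases f2_cases (u e) with h1 | h1
        · rw [if_neg (by rw [mem_filter]; exact fun h2 => h2.2 h1), h1]
        · rw [if_pos (by rw [mem_filter]; exact ⟨he, by rw [h1]; exact one_ne_zero⟩), h1]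
      · rw [if_neg he, if_neg (by rw [mem_filter]; exact fun h2 => he h2.1)]
    have h1 := h (lam.filter fun e => u e ≠ 0) (filter_subset _ _) (by
      funext v
      have h2 := hvan (Pi.single v 1)
      show ∑ e, ind (lam.filter fun e => u e ≠ 0) e *
        ((if a e = v then 1 else 0) + (if b e = v then 1 else 0)) = 0
      refine (sum_congr rfl fun e _ => ?_).trans h2
      rw [hind, hΦ, Pi.single_apply, Pi.single_apply]
      by_cases he : e ∈ lam
      · rw [if_pos he, if_pos he]
        ring
      · rw [if_neg he, if_neg he, zero_mul, zero_mul])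
    apply hf1
    rw [hu, ← h1, sum_filter, ← sum_filter_add_sum_filter_not univ (fun e => e ∈ lam)]
    have h3 : ∑ e ∈ univ.filter (fun e => e ∉ lam), y0 e * u e = 0 :=
      sum_eq_zero fun e he => by rw [hy0, if_neg (mem_filter.1 he).2, zero_mul]
    rw [h3, add_zero, filter_mem_eq_inter, univ_inter]
    refine sum_congr rfl fun e he => ?_
    rw [hy0, if_pos he]
    rcases f2_cases (u e) with h1 | h1
    · rw [h1, mul_zero, if_neg (not_not.2 rfl)]
    · rw [h1, mul_one, if_pos one_ne_zero]

end Pool.Agent.EXG
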