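import Pool.Agent.Helper58.OG.Width

/-!
# EXG: closed, null and blocking sets of corners

A set of corners is given by the set of the flags of its corners (every corner has two flags). Corners are the edges of
the vertex-face graph of the map, so a closed set of corners is a system of closed curves which meet the graph at
vertices only.
-/

set_option autoImplicit false

namespace Pool.Agent.EXG

open Pool.Agent.Helper35.OG Pool.Agent.Helper58.OG

variable {V : Type} {G : SimpleGraph V}

/-- `X` is a set of corners with an even number of corners at every vertex and in every face. -/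
def ClosedSet (M : GMap G) (X : Set (Flag G)) : Prop :=
  (∀ p ∈ X, M.nxt p ∈ X) ∧ (∀ v : V, 4 ∣ Nat.card {p : Flag G // p ∈ X ∧ p.1.fst = v}) ∧
    ∀ f : M.Face, 4 ∣ Nat.card {p : Flag G // p ∈ X ∧ Quot.mk _ p = f}

/-- `X` is null-homologous: the set of the corners between the edges of a set of edges and the other edges. -/
def NullSet (M : GMap G) (X : Set (Flag G)) : Prop :=
  ∃ ε : Flag G → ZMod 2, (∀ p, ε (across p) = ε p ∧ ε (side p) = ε p) ∧ X = {p | ε (M.nxt p) ≠ ε p}

/-- The number of faces which have a corner in `X`. -/
noncomputable def facesMet (M : GMap G) (X : Set (Flag G)) : ℕ := Nat.card {f : M.Face // ∃ p ∈ X, Quot.mk _ p = f}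

/-- Two closed sets, neither of them null-homologous, whose sum is blocking, meet together at least `n` faces. -/
def SplitWidth (M : GMap G) (n : ℤ) : Prop :=
  ∀ X Y : Set (Flag G), ClosedSet M X → ClosedSet M Y → ¬ NullSet M X → ¬ NullSet M Y →
    (∃ κ, IsBand κ ∧ symmDiff X Y = M.badFlags κ) → n ≤ (facesMet M X : ℤ) + facesMet M Y

end Pool.Agent.EXG
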