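import Pool.Agent.EXG.CStr

/-!
# EXG-EarB: the shortest ear has no chords

`R` is a circuit relative to `U` of weight 1, of smallest cardinality among the sets of edges which are even outside `U` and
have weight 1.

PLAN. Let `e ∈ lam`, `e ∉ R`, with both ends in `vts a b R \ U`; the ends `v = a e`, `v' = b e` are different (`Simp`).
`circ_pair`: `D ⊆ R` with boundary `v + v'` outside `U`; `R \ D` has the same boundary outside `U` (`ind_sdiff`,
`EvenOff a b U R`). So `insert e D` and `insert e (R \ D)` are even outside `U`, subsets of `lam`, and their weights have sum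
`w (ind R) + 2 * w (Pi.single e 1) = 1` (`ind (insert e D) = Pi.single e 1 + ind D` as `e ∉ D`). So one of them has weight 1:
`R.card ≤ D.card + 1` or `R.card ≤ (R \ D).card + 1`, i.e. `D'.card ≤ 1` for `D' = R \ D` or `D' = D`. Both have boundary
`v + v'` outside `U`. `D' = ∅` is impossible (boundary 1 at `v`). If `D' = {e'}` then the boundary of `e'` is 1 at `v` and at
`v'`, so `{a e', b e'} = {v, v'}`, `par a b e e'`, `e = e' ∈ R` (`Simp`), contradiction.
-/

set_option autoImplicit false

open Finset

namespace Pool.Agent.EXG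

open Pool.Agent.Helper35.OG Pool.Agent.Helper58.OG

variable {X E : Type} [Fintype X] [DecidableEq X] [Fintype E] [DecidableEq E] (a b : E → X)

private theorem EarB_ins {D : Finset E} {e : E} (he : e ∉ D) :
    ind (insert e D) = Pi.single e 1 + ind D := by
  funext x
  rw [Pi.add_apply]
  unfold ind
  by_cases hx : x = e
  · subst hx
    rw [if_pos (Finset.mem_insert_self x D), if_neg he, Pi.single_eq_same, add_zero]
  · rw [Pi.single_eq_of_ne hx, zero_add]
    by_cases h2 : x ∈ D
    · rw [if_pos (Finset.mem_insert_of_mem h2), if_pos h2]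
    · rw [if_neg (fun h3 => h2 (Finset.mem_of_mem_insert_of_ne h3 hx)), if_neg h2]

private theorem EarB_even {R D : Finset E} {U : Finset X} {e : E} (he : e ∉ R) (hD : D ⊆ R)
    (h : ∀ x, x ∉ U → bd a b (ind D) x = (if x = a e then 1 else 0) + (if x = b e then 1 else 0)) :
    EvenOff a b U (insert e D) := by
  intro x hx
  rw [EarB_ins (fun h1 => he (hD h1)), map_add, Pi.add_apply, h x hx, bd_single]
  by_cases h1 : x = a e <;> by_cases h2 : x = b e <;> simp [h1, h2, f2_add_self, eq_comm]

private theorem EarB_card {lam R D : Finset E} {U : Finset X} (hs : Simp a b lam) (hRlam : R ⊆ lam)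
    {e : E} (hel : e ∈ lam) (he : e ∉ R) (hD : D ⊆ R) (h1 : a e ∉ U) (h2 : b e ∉ U)
    (h : ∀ x, x ∉ U → bd a b (ind D) x = (if x = a e then 1 else 0) + (if x = b e then 1 else 0)) :
    2 ≤ D.card := by
  have hne : a e ≠ b e := hs.1 e hel
  have ha := h (a e) h1
  have hb := h (b e) h2
  rw [if_pos rfl, if_neg hne, add_zero] at ha
  rw [if_neg hne.symm, if_pos rfl, zero_add] at hb
  by_contra hcon
  rcases Nat.eq_zero_or_pos D.card with h0 | h0
  · rw [Finset.card_eq_zero] at h0
    rw [h0, bd_ind] at ha
    simp [dg] at ha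
  · have h3 : D.card = 1 := by omega
    obtain ⟨e', he'⟩ := Finset.card_eq_one.1 h3
    have hmem : e' ∈ R := hD (by rw [he']; exact Finset.mem_singleton_self e')
    have hind : ind D = Pi.single e' 1 := by
      rw [he']
      funext x
      unfold ind
      by_cases hx : x = e'
      · subst hx
        rw [if_pos (Finset.mem_singleton_self x), Pi.single_eq_same]
      · rw [if_neg (by rw [Finset.mem_singleton]; exact hx), Pi.single_eq_of_ne hx]
    rw [hind, bd_single] at ha hb
    have hpar : par a b e e' := by
      unfold par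
      by_cases c1 : a e' = a e
      · by_cases c2 : b e' = b e
        · exact Or.inl ⟨c1.symm, c2.symm⟩
        · exfalso
          rw [if_neg (by rw [c1]; exact hne), if_neg c2] at hb
          simp at hb
      · by_cases c2 : b e' = a e
        · by_cases c3 : a e' = b e
          · exact Or.inr ⟨c2.symm, c3.symm⟩
          · exfalso
            rw [if_neg c3, if_neg (by rw [c2]; exact hne)] at hb
            simp at hb
        · exfalso
          rw [if_neg c1, if_neg c2] at ha
          simp at ha
    exact he (by rw [hs.2 e hel e' (hRlam hmem) hpar]; exact hmem)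

theorem no_chord {lam R : Finset E} {U : Finset X} (hs : Simp a b lam) (hRlam : R ⊆ lam) {w : (E → F2) →ₗ[F2] F2}
    (hR : Circ a b U R) (hwR : w (ind R) = 1)
    (hmin : ∀ D ⊆ lam, EvenOff a b U D → w (ind D) = 1 → R.card ≤ D.card) :
    ∀ e ∈ lam, a e ∈ vts a b R \ U → b e ∈ vts a b R \ U → e ∈ R := by
  intro e hel hae hbe
  by_contra he
  obtain ⟨D, hD, hDx⟩ := circ_pair a b hR (a e) hae (b e) hbe
  have h1 : a e ∉ U := (Finset.mem_sdiff.1 hae).2
  have h2 : b e ∉ U := (Finset.mem_sdiff.1 hbe).2
  have hD2 : R \ D ⊆ R := Finset.sdiff_subset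
  have hDx2 : ∀ x, x ∉ U → bd a b (ind (R \ D)) x =
      (if x = a e then 1 else 0) + (if x = b e then 1 else 0) := by
    intro x hx
    rw [ind_sdiff hD, map_add, Pi.add_apply, hR.2.1 x hx, zero_add, hDx x hx]
  have c1 := EarB_card a b hs hRlam hel he hD h1 h2 hDx
  have c2 := EarB_card a b hs hRlam hel he hD2 h1 h2 hDx2
  have c3 : (R \ D).card + D.card = R.card := Finset.card_sdiff_add_card_eq_card hD
  have heD : e ∉ D := fun h => he (hD h)
  have heD2 : e ∉ R \ D := fun h => he (hD2 h)
  have hw : w (ind (insert e D)) + w (ind (insert e (R \ D))) = 1 := by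
    rw [EarB_ins heD, EarB_ins heD2, ind_sdiff hD, map_add, map_add, map_add, hwR]
    have e1 := f2_add_self (w (Pi.single e 1))
    have e2 := f2_add_self (w (ind D))
    linear_combination e1 + e2
  have hsub : ∀ D' : Finset E, D' ⊆ R → insert e D' ⊆ lam := by
    intro D' hD'
    exact Finset.insert_subset hel (hD'.trans hRlam)
  rcases f2_cases (w (ind (insert e D))) with h3 | h3
  · rw [h3, zero_add] at hw
    have h4 := hmin _ (hsub _ hD2) (EarB_even a b he hD2 hDx2) hw
    rw [Finset.card_insert_of_notMem heD2] at h4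
    omega
  · have h4 := hmin _ (hsub _ hD) (EarB_even a b he hD hDx) h3
    rw [Finset.card_insert_of_notMem heD] at h4
    omega

end Pool.Agent.EXG
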