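import Pool.Agent.EXG.Base

/-!
# EXG-KDim: counting the kernel

PLAN. `ker_inj`: the linear map `kerA → ({x // x ∉ Y} → F2) × (Fin d → F2)`, `A ↦ (A restricted, Φ A)`, is injective (apply
`h` to the difference); `LinearMap.finrank_le_finrank_of_injective`, `Module.finrank_prod`,
`Module.finrank_fintype_fun_eq_card`, `Fintype.card {x // x ∉ Y} = card X - Y.card` (`Fintype.card_subtype_compl` /
`Finset.card_compl`).

`basis_card`: the restriction `kerA → ({x // x ∉ B} → F2)` is injective by `hB` and surjective: the function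
`t : {x // x ∉ B} → F2` is the restriction of `∑ x : {x // x ∉ B}, t x • A x` (an element of `kerA`).
`LinearEquiv.ofBijective`, `LinearEquiv.finrank_eq`.
-/

set_option autoImplicit false

open Finset

namespace Pool.Agent.EXG

open Pool.Agent.Helper35.OG Pool.Agent.Helper58.OG

variable {X E : Type} [Fintype X] [DecidableEq X] [Fintype E] [DecidableEq E] (a b : E → X)

private theorem compl_card (B : Finset X) :
    Fintype.card {x : X // x ∉ B} + B.card = Fintype.card X := by
  have h1 : Fintype.card {x : X // x ∉ B} = Fintype.card X - B.card := by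
    rw [Fintype.card_subtype_compl, Fintype.card_coe]
  have h2 : B.card ≤ Fintype.card X := Finset.card_le_univ B
  omega

/-- restriction to the complement -/
private def resC (lam : Finset E) (B : Finset X) :
    kerA a b lam →ₗ[F2] ({x : X // x ∉ B} → F2) where
  toFun A := fun x => A.1 x.1
  map_add' _ _ := rfl
  map_smul' _ _ := rfl

theorem ker_inj (lam : Finset E) (Y : Finset X) {d : ℕ} (Φ : (X → F2) →ₗ[F2] (Fin d → F2))
    (h : ∀ A ∈ kerA a b lam, (∀ x, x ∉ Y → A x = 0) → Φ A = 0 → A = 0) :
    Module.finrank F2 (kerA a b lam) + Y.card ≤ Fintype.card X + d := by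
  have key : Function.Injective ((resC a b lam Y).prod (Φ.comp (kerA a b lam).subtype)) := by
    rw [← LinearMap.ker_eq_bot, LinearMap.ker_eq_bot']
    intro A hA
    have hA1 : resC a b lam Y A = 0 := congrArg Prod.fst hA
    have hA2 : Φ A.1 = 0 := congrArg Prod.snd hA
    apply Subtype.ext
    refine h A.1 A.2 (fun x hx => ?_) hA2
    exact congrFun hA1 ⟨x, hx⟩
  have h1 := LinearMap.finrank_le_finrank_of_injective key
  rw [Module.finrank_prod, Module.finrank_fintype_fun_eq_card,
    Module.finrank_fintype_fun_eq_card, Fintype.card_fin] at h1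
  have h2 := compl_card Y
  omega

theorem basis_card (lam : Finset E) (B : Finset X)
    (hB : ∀ A : X → F2, InKer a b lam A → (∀ x, x ∉ B → A x = 0) → A = fun _ => 0) (A : X → X → F2)
    (hA : ∀ x, InKer a b lam (A x) ∧ (x ∉ B → A x x = 1) ∧ ∀ y, y ∉ B → y ≠ x → A x y = 0) :
    B.card + Module.finrank F2 (kerA a b lam) = Fintype.card X := by
  have inj : Function.Injective (resC a b lam B) := by
    rw [← LinearMap.ker_eq_bot, LinearMap.ker_eq_bot']
    intro C hC
    apply Subtype.ext
    exact hB C.1 C.2 (fun x hx => congrFun hC ⟨x, hx⟩)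
  have surj : Function.Surjective (resC a b lam B) := by
    intro t
    refine ⟨⟨∑ x : {x : X // x ∉ B}, t x • A x.1, Submodule.sum_mem _
      (fun x _ => Submodule.smul_mem _ _ ((hA x.1).1))⟩, ?_⟩
    funext y
    show (∑ x : {x : X // x ∉ B}, t x • A x.1) y.1 = t y
    rw [Finset.sum_apply, Finset.sum_eq_single y]
    · rw [Pi.smul_apply, (hA y.1).2.1 y.2, smul_eq_mul, mul_one]
    · intro x _ hxy
      rw [Pi.smul_apply, (hA x.1).2.2 y.1 y.2 (fun h => hxy (Subtype.ext h.symm)), smul_zero]
    · intro hy
      exact absurd (Finset.mem_univ y) hy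
  have h1 := (LinearEquiv.ofBijective (resC a b lam B) ⟨inj, surj⟩).finrank_eq
  rw [Module.finrank_fintype_fun_eq_card] at h1
  have h2 := compl_card B
  omega

end Pool.Agent.EXG
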