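import Pool.Agent.EXG.CStr
import Pool.Agent.EXG.CKer
import Pool.Agent.EXG.KDim

/-!
# EXG-EarC: the circuit and the ear give a large rank

Notation: `U = vts a b C`, `I = vts a b R \ U`, `Dn = nearU a b lam U I`.

PLAN. `I` is nonempty: `circ_str` for `R`, and `2 ≤ R.card`. Choose `D'` = `Dn` if `Dn` is nonempty, `{v1}` for some `v1 ∈ I`
otherwise; so `D' ⊆ I` is nonempty, `Dn ⊆ D'`, and `D'.card ≤ 5`, `D'.card ≤ 2` if some edge of `R` meets `U`. `W = I \ D'`,
`Y = U ∪ W` (disjoint), `Y.card = C.card + W.card`. By `circ_str`: `W.card ≥ R.card - 5` in both cases (`R.card - 1 - 2` in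
the second). So by `ker_inj` with `d = 3` it is enough to find `Φ : (X → F2) →ₗ (Fin 3 → F2)` such that `A ∈ kerA`, `A = 0`
outside `Y`, `Φ A = 0` imply `A = 0`. Take `e0 ∈ C`, `e1 ∈ R` and `Φ A = ![A (a e0), A (a e0) + A (b e0), A (a e1) + A (b e1)]`.

Let `A` be such a vector. `inKer_iff` (Helper58/OG/Ker): for all `v`,
`∑ e, ind lam e * ((if a e = v then A (b e) else 0) + (if b e = v then A (a e) else 0)) = 0`, a sum over `e ∈ lam`.
(1) On `C` (`circ_ker` with `U := ∅`, `circ_deg` gives the degrees): for `v ∈ U` the edges of `lam` at `v` which are not in `C`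
contribute `0`: their other end `x` is not in `U` (`hind`); if `x ∈ W` then `x ∈ Dn ⊆ D'` (edge of `lam` between `x ∈ I` and
`v ∈ U`), contradiction; so `x ∉ Y` and `A x = 0`. So the sum over `C` vanishes; as `A (a e0) + A (b e0) = 0` the first
alternative of `circ_ker` holds, `circ_ker'`: `A` is constant on `U`, and `A (a e0) = 0`: `A = 0` on `U`.
(2) On `R` (`circ_ker` with `U := vts a b C`): for `v ∈ I` the edges of `lam` at `v` which are not in `R` contribute `0`: their
other end `x` is not in `I` (`hch`); if `x ∈ U` then `A x = 0` by (1); otherwise `x ∉ Y`. So the first alternative holds, `A` is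
constant on `vts a b R` (`circ_ker'`), and `A = 0` at a point of `D' ⊆ vts a b R` (not in `Y`). So `A = 0` on `vts a b R`.
-/

set_option autoImplicit false

open Finset

namespace Pool.Agent.EXG

open Pool.Agent.Helper35.OG Pool.Agent.Helper58.OG

variable {X E : Type} [Fintype X] [DecidableEq X] [Fintype E] [DecidableEq E] (a b : E → X)

/-- the term of the edge `e` at `v` in the kernel equation -/
private def tm (A : X → F2) (v : X) (e : E) : F2 :=
  (if a e = v then A (b e) else 0) + (if b e = v then A (a e) else 0)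

omit [Fintype X] [Fintype E] [DecidableEq E] in
private theorem tm_zero {A : X → F2} {v : X} {e : E} (h1 : a e = v → A (b e) = 0)
    (h2 : b e = v → A (a e) = 0) : tm a b A v e = 0 := by
  unfold tm
  by_cases ha : a e = v <;> by_cases hb : b e = v
  · rw [if_pos ha, if_pos hb, h1 ha, h2 hb, add_zero]
  · rw [if_pos ha, if_neg hb, h1 ha, add_zero]
  · rw [if_neg ha, if_pos hb, h2 hb, add_zero]
  · rw [if_neg ha, if_neg hb, add_zero]

private theorem sum_lam {lam : Finset E} {A : X → F2} (hA : InKer a b lam A) (v : X) :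
    ∑ e ∈ lam, tm a b A v e = 0 := by
  rw [inKer_iff] at hA
  rw [← hA v]
  rw [← Finset.sum_subset (Finset.subset_univ lam)]
  · refine Finset.sum_congr rfl fun e he => ?_
    rw [ind, if_pos he, one_mul]
    rfl
  · intro e _ he
    rw [ind, if_neg he, zero_mul]

private theorem sum_part {lam Q : Finset E} {A : X → F2} (hA : InKer a b lam A) (hQ : Q ⊆ lam) (v : X)
    (h : ∀ e ∈ lam, e ∉ Q → tm a b A v e = 0) : ∑ e ∈ Q, tm a b A v e = 0 := by
  rw [Finset.sum_subset hQ h]
  exact sum_lam a b hA v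

private theorem ends_mem {Q : Finset E} {e : E} (he : e ∈ Q) : a e ∈ vts a b Q ∧ b e ∈ vts a b Q := by
  constructor
  · rw [mem_vts]
    unfold dg
    have : 0 < (Q.filter fun e' => a e' = a e).card :=
      Finset.card_pos.mpr ⟨e, by simp [he]⟩
    omega
  · rw [mem_vts]
    unfold dg
    have : 0 < (Q.filter fun e' => b e' = b e).card :=
      Finset.card_pos.mpr ⟨e, by simp [he]⟩
    omega

private theorem ker_zero {lam C R : Finset E} (hC : Circ a b ∅ C) (hClam : C ⊆ lam)
    (hind : ∀ e ∈ lam, a e ∈ vts a b C → b e ∈ vts a b C → e ∈ C)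
    (hRlam : R ⊆ lam) (hR : Circ a b (vts a b C) R)
    (hch : ∀ e ∈ lam, a e ∈ vts a b R \ vts a b C → b e ∈ vts a b R \ vts a b C → e ∈ R)
    {D' : Finset X} (hD : D' ⊆ vts a b R \ vts a b C) (hD0 : D'.Nonempty)
    (hDn : nearU a b lam (vts a b C) (vts a b R \ vts a b C) ⊆ D')
    {e0 e1 : E} (he0 : e0 ∈ C) (he1 : e1 ∈ R) {A : X → F2} (hA : InKer a b lam A)
    (hY : ∀ x, x ∉ vts a b C ∪ ((vts a b R \ vts a b C) \ D') → A x = 0)
    (h0 : A (a e0) = 0) (h1 : A (a e0) + A (b e0) = 0) (h2 : A (a e1) + A (b e1) = 0) : A = 0 := by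
  have h01 : (0 : F2) ≠ 1 := by decide
  -- the other end of an edge of `lam` at a point of `U` which is not in `C`
  have hother : ∀ x, x ∉ vts a b C → (∃ e ∈ lam, (a e = x ∧ b e ∈ vts a b C) ∨
      (b e = x ∧ a e ∈ vts a b C)) → A x = 0 := by
    intro x hx he
    refine hY x fun hxY => ?_
    rcases Finset.mem_union.mp hxY with h | h
    · exact hx h
    · obtain ⟨hI, hD'⟩ := Finset.mem_sdiff.mp h
      exact hD' (hDn (Finset.mem_filter.mpr ⟨hI, he⟩))
  have hU : ∀ v ∈ vts a b C, A v = 0 := by
    have hsum : ∀ v ∈ vts a b C \ ∅, ∑ e ∈ C, tm a b A v e = 0 := by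
      intro v hv
      rw [Finset.sdiff_empty] at hv
      refine sum_part a b hA hClam v fun e he hec => tm_zero a b ?_ ?_
      · intro hav
        refine hother _ (fun hb => hec (hind e he (hav ▸ hv) hb)) ⟨e, he, Or.inr ⟨rfl, hav ▸ hv⟩⟩
      · intro hbv
        refine hother _ (fun ha => hec (hind e he ha (hbv ▸ hv))) ⟨e, he, Or.inl ⟨rfl, hbv ▸ hv⟩⟩
    have hc : ∀ e ∈ C, A (a e) + A (b e) = 0 := by
      rcases circ_ker a b hC (circ_deg a b hC) A hsum with h | h
      · exact h
      · exact absurd (h1.symm.trans (h e0 he0)) h01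
    rcases circ_ker' a b hC (circ_deg a b hC) A hc with h | h
    · exact h
    · exact absurd (h0.symm.trans (h (a e0) (ends_mem a b he0).1)) h01
  have hV : ∀ v ∈ vts a b R, A v = 0 := by
    have hout : ∀ x, x ∉ vts a b R \ vts a b C → A x = 0 := by
      intro x hx
      by_cases hxC : x ∈ vts a b C
      · exact hU x hxC
      · refine hY x fun hxY => ?_
        rcases Finset.mem_union.mp hxY with h | h
        · exact hxC h
        · exact hx (Finset.mem_sdiff.mp h).1
    have hsum : ∀ v ∈ vts a b R \ vts a b C, ∑ e ∈ R, tm a b A v e = 0 := by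
      intro v hv
      refine sum_part a b hA hRlam v fun e he heR => tm_zero a b ?_ ?_
      · intro hav
        exact hout _ fun hb => heR (hch e he (hav ▸ hv) hb)
      · intro hbv
        exact hout _ fun ha => heR (hch e he ha (hbv ▸ hv))
    have hc : ∀ e ∈ R, A (a e) + A (b e) = 0 := by
      rcases circ_ker a b hR (circ_deg a b hR) A hsum with h | h
      · exact h
      · exact absurd (h2.symm.trans (h e1 he1)) h01
    obtain ⟨x, hx⟩ := hD0
    have hxI := hD hx
    have hx0 : A x = 0 := by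
      refine hY x fun hxY => ?_
      rcases Finset.mem_union.mp hxY with h | h
      · exact (Finset.mem_sdiff.mp hxI).2 h
      · exact (Finset.mem_sdiff.mp h).2 hx
    rcases circ_ker' a b hR (circ_deg a b hR) A hc with h | h
    · exact h
    · exact absurd (hx0.symm.trans (h x (Finset.mem_sdiff.mp hxI).1)) h01
  funext x
  by_cases hxY : x ∈ vts a b C ∪ ((vts a b R \ vts a b C) \ D')
  · rcases Finset.mem_union.mp hxY with h | h
    · exact hU x h
    · exact hV x (Finset.mem_sdiff.mp (Finset.mem_sdiff.mp h).1).1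
  · exact hY x hxY

theorem ear_rank {lam C R : Finset E} (hC : Circ a b ∅ C) (hClam : C ⊆ lam)
    (hCv : (vts a b C).card = C.card) (hind : ∀ e ∈ lam, a e ∈ vts a b C → b e ∈ vts a b C → e ∈ C)
    (hRlam : R ⊆ lam) (hR : Circ a b (vts a b C) R)
    (hch : ∀ e ∈ lam, a e ∈ vts a b R \ vts a b C → b e ∈ vts a b R \ vts a b C → e ∈ R)
    (h5 : (nearU a b lam (vts a b C) (vts a b R \ vts a b C)).card ≤ 5)
    (h2 : (∃ e ∈ R, a e ∈ vts a b C ∨ b e ∈ vts a b C) →
      (nearU a b lam (vts a b C) (vts a b R \ vts a b C)).card ≤ 2) (hR2 : 2 ≤ R.card) :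
    Module.finrank F2 (kerA a b lam) + C.card + R.card ≤ Fintype.card X + 8 := by
  obtain ⟨e0, he0⟩ := hC.1
  obtain ⟨e1, he1⟩ := hR.1
  -- the two cases
  have hcase : ((vts a b R \ vts a b C).card = R.card ∧
      (nearU a b lam (vts a b C) (vts a b R \ vts a b C)).card ≤ 5) ∨
      ((vts a b R \ vts a b C).card + 1 = R.card ∧
      (nearU a b lam (vts a b C) (vts a b R \ vts a b C)).card ≤ 2) := by
    rcases circ_str a b hR with h | h
    · exact Or.inl ⟨h.1, h5⟩
    · exact Or.inr ⟨h.1, h2 h.2.1⟩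
  have hI : (vts a b R \ vts a b C).Nonempty := by
    rw [← Finset.card_pos]
    rcases hcase with h | h <;> omega
  have hsub : nearU a b lam (vts a b C) (vts a b R \ vts a b C) ⊆ vts a b R \ vts a b C :=
    Finset.filter_subset _ _
  obtain ⟨D', hD, hD0, hDn, hcard⟩ : ∃ D' : Finset X, D' ⊆ vts a b R \ vts a b C ∧ D'.Nonempty ∧
      nearU a b lam (vts a b C) (vts a b R \ vts a b C) ⊆ D' ∧
      R.card ≤ ((vts a b R \ vts a b C) \ D').card + 5 := by
    by_cases hn : (nearU a b lam (vts a b C) (vts a b R \ vts a b C)).Nonempty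
    · refine ⟨_, hsub, hn, Finset.Subset.refl _, ?_⟩
      have := Finset.card_sdiff_add_card_eq_card hsub
      rcases hcase with h | h <;> omega
    · obtain ⟨v, hv⟩ := hI
      have hs : ({v} : Finset X) ⊆ vts a b R \ vts a b C := Finset.singleton_subset_iff.mpr hv
      refine ⟨{v}, hs, Finset.singleton_nonempty v, ?_, ?_⟩
      · rw [Finset.not_nonempty_iff_eq_empty.mp hn]
        exact Finset.empty_subset _
      · have := Finset.card_sdiff_add_card_eq_card hs
        rw [Finset.card_singleton] at this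
        rcases hcase with h | h <;> omega
  let pj : X → ((X → F2) →ₗ[F2] F2) := fun x => LinearMap.proj (R := F2) (φ := fun _ : X => F2) x
  let Φ : (X → F2) →ₗ[F2] (Fin 3 → F2) := LinearMap.pi
    ![pj (a e0), pj (a e0) + pj (b e0), pj (a e1) + pj (b e1)]
  have hk := ker_inj a b lam (vts a b C ∪ ((vts a b R \ vts a b C) \ D')) (d := 3) Φ ?_
  · have hdis : Disjoint (vts a b C) ((vts a b R \ vts a b C) \ D') := by
      rw [Finset.disjoint_left]
      intro x hx hx'
      exact (Finset.mem_sdiff.mp (Finset.mem_sdiff.mp hx').1).2 hx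
    rw [Finset.card_union_of_disjoint hdis, hCv] at hk
    omega
  · intro A hA hY hΦ
    have e0' : A (a e0) = 0 := congrFun hΦ 0
    have e1' : A (a e0) + A (b e0) = 0 := congrFun hΦ 1
    have e2' : A (a e1) + A (b e1) = 0 := congrFun hΦ 2
    exact ker_zero a b hC hClam hind hRlam hR hch hD hD0 hDn he0 he1 hA hY e0' e1' e2'

end Pool.Agent.EXG
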