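import Pool.Agent.EXG.EarDa

/-!
# EXG-EarDb (theorem `near_five`; `near_two` is proved in EarDa): few points of the shortest ear are joined to `U`

`R` as in EXG-EarB. `nearU a b lam U W`: the points of `W` joined to `U` by an edge of `lam`. Let `I = vts a b R \ U`.

Two points of `nearU` are joined by a path of at most two edges of `R`, and all degrees are two.
-/

set_option autoImplicit false

open Finset

namespace Pool.Agent.EXG

open Pool.Agent.Helper35.OG Pool.Agent.Helper58.OG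

variable {X E : Type} [Fintype X] [DecidableEq X] [Fintype E] [DecidableEq E] (a b : E → X)

omit [Fintype E] in
private theorem ind_insert' {e : E} {D : Finset E} (h : e ∉ D) :
    ind (insert e D) = ind D + Pi.single e 1 := by
  funext x
  rw [Pi.add_apply]
  unfold ind
  by_cases hx : x = e
  · subst hx
    rw [if_pos (Finset.mem_insert_self _ _), if_neg h, Pi.single_eq_same, zero_add]
  · rw [Pi.single_eq_of_ne hx, add_zero]
    by_cases hD : x ∈ D
    · rw [if_pos (Finset.mem_insert_of_mem hD), if_pos hD]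
    · rw [if_neg (fun hh => (Finset.mem_insert.1 hh).elim hx hD), if_neg hD]

omit [Fintype E] in
private theorem ind_single (e : E) : ind {e} = Pi.single e 1 := by
  funext x
  unfold ind
  by_cases hx : x = e
  · subst hx
    rw [if_pos (Finset.mem_singleton_self _), Pi.single_eq_same]
  · rw [Pi.single_eq_of_ne hx, if_neg fun hh => hx (Finset.mem_singleton.1 hh)]

/-- the edge with the ends `p`, `q` joins `x` and `y` -/
private def Jn (p q x y : X) : Prop := (p = x ∧ q = y) ∨ (q = x ∧ p = y)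

omit [Fintype X] in
private theorem one_edge (a1 b1 v0 v : X) (hv : v ≠ v0)
    (h : ∀ x, (if a1 = x then (1 : F2) else 0) + (if b1 = x then 1 else 0) =
      (if x = v0 then 1 else 0) + (if x = v then 1 else 0)) : Jn a1 b1 v0 v := by
  have e1 := h v0
  have e2 := h v
  rw [if_pos (rfl : v0 = v0), if_neg (fun hh => hv hh.symm : ¬ v0 = v)] at e1
  rw [if_neg hv, if_pos (rfl : v = v)] at e2
  by_cases A : a1 = v0
  · by_cases B : b1 = v
    · exact Or.inl ⟨A, B⟩
    · rw [if_neg (fun hh => hv (hh.symm.trans A) : ¬ a1 = v), if_neg B] at e2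
      exact absurd e2 (by decide)
  · by_cases B : b1 = v0
    · by_cases C : a1 = v
      · exact Or.inr ⟨B, C⟩
      · rw [if_neg C, if_neg (fun hh => hv (hh.symm.trans B) : ¬ b1 = v)] at e2
        exact absurd e2 (by decide)
    · rw [if_neg A, if_neg B] at e1
      exact absurd e1 (by decide)

omit [Fintype X] in
private theorem two_core (a1 b1 a2 b2 v0 v : X) (h1 : a1 ≠ b1) (h2 : a2 ≠ b2) (hv : v ≠ v0)
    (h : ∀ x, (if a1 = x then (1 : F2) else 0) + (if b1 = x then 1 else 0) +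
      ((if a2 = x then 1 else 0) + (if b2 = x then 1 else 0)) =
      (if x = v0 then 1 else 0) + (if x = v then 1 else 0)) (A : a1 = v0) :
    Jn a1 b1 v0 v ∨ ∃ u, Jn a1 b1 v0 u ∧ Jn a2 b2 u v := by
  subst A
  have e1 := h a1
  rw [if_pos (rfl : a1 = a1), if_neg (fun hh => h1 hh.symm : ¬ b1 = a1),
    if_neg (fun hh => hv hh.symm : ¬ a1 = v)] at e1
  have ha2 : ¬ a2 = a1 := by
    intro hh
    have hb : ¬ b2 = a1 := fun hb => h2 (hh.trans hb.symm)
    rw [if_pos hh, if_neg hb] at e1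
    exact absurd e1 (by decide)
  have hb2 : ¬ b2 = a1 := by
    intro hh
    rw [if_neg ha2, if_pos hh] at e1
    exact absurd e1 (by decide)
  by_cases B : b1 = v
  · exact Or.inl (Or.inl ⟨rfl, B⟩)
  right
  have e2 := h b1
  rw [if_neg h1, if_pos (rfl : b1 = b1), if_neg (fun hh => h1 hh.symm : ¬ b1 = a1), if_neg B] at e2
  have e3 := h v
  rw [if_neg (fun hh => hv hh.symm : ¬ a1 = v), if_neg B, if_neg hv, if_pos (rfl : v = v)] at e3
  by_cases C : a2 = b1
  · by_cases F : b2 = v
    · exact ⟨b1, Or.inl ⟨rfl, rfl⟩, Or.inl ⟨C, F⟩⟩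
    · rw [if_neg (fun hh => B (C.symm.trans hh) : ¬ a2 = v), if_neg F] at e3
      exact absurd e3 (by decide)
  · by_cases F : b2 = b1
    · by_cases K : a2 = v
      · exact ⟨b1, Or.inl ⟨rfl, rfl⟩, Or.inr ⟨F, K⟩⟩
      · rw [if_neg K, if_neg (fun hh => B (F.symm.trans hh) : ¬ b2 = v)] at e3
        exact absurd e3 (by decide)
    · rw [if_neg C, if_neg F] at e2
      exact absurd e2 (by decide)

omit [Fintype X] [DecidableEq X] in
private theorem Jn_swap {p q x y : X} (h : Jn p q x y) : Jn q p x y := by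
  rcases h with h | h
  · exact Or.inr h
  · exact Or.inl h

omit [Fintype X] in
private theorem two_edges (a1 b1 a2 b2 v0 v : X) (h1 : a1 ≠ b1) (h2 : a2 ≠ b2) (hv : v ≠ v0)
    (h : ∀ x, (if a1 = x then (1 : F2) else 0) + (if b1 = x then 1 else 0) +
      ((if a2 = x then 1 else 0) + (if b2 = x then 1 else 0)) =
      (if x = v0 then 1 else 0) + (if x = v then 1 else 0)) :
    Jn a1 b1 v0 v ∨ Jn a2 b2 v0 v ∨ (∃ u, Jn a1 b1 v0 u ∧ Jn a2 b2 u v) ∨
      ∃ u, Jn a2 b2 v0 u ∧ Jn a1 b1 u v := by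
  by_cases A : a1 = v0
  · rcases two_core a1 b1 a2 b2 v0 v h1 h2 hv h A with h3 | h3
    · exact Or.inl h3
    · exact Or.inr (Or.inr (Or.inl h3))
  by_cases B : b1 = v0
  · rcases two_core b1 a1 a2 b2 v0 v h1.symm h2 hv (fun x => by rw [← h x]; ring) B with h3 | ⟨u, h3, h4⟩
    · exact Or.inl (Jn_swap h3)
    · exact Or.inr (Or.inr (Or.inl ⟨u, Jn_swap h3, h4⟩))
  by_cases C : a2 = v0
  · rcases two_core a2 b2 a1 b1 v0 v h2 h1 hv (fun x => by rw [← h x]; ring) C with h3 | h3
    · exact Or.inr (Or.inl h3)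
    · exact Or.inr (Or.inr (Or.inr h3))
  by_cases F : b2 = v0
  · rcases two_core b2 a2 a1 b1 v0 v h2.symm h1 hv (fun x => by rw [← h x]; ring) F with h3 | ⟨u, h3, h4⟩
    · exact Or.inr (Or.inl (Jn_swap h3))
    · exact Or.inr (Or.inr (Or.inr ⟨u, Jn_swap h3, h4⟩))
  exfalso
  have e1 := h v0
  rw [if_neg A, if_neg B, if_neg C, if_neg F, if_pos (rfl : v0 = v0),
    if_neg (fun hh => hv hh.symm : ¬ v0 = v)] at e1
  exact absurd e1 (by decide)

/-- two points of `nearU` are joined by at most two edges of `R` -/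
private theorem short {lam R : Finset E} {U : Finset X} (hRlam : R ⊆ lam) {w : (E → F2) →ₗ[F2] F2}
    (hR : Circ a b U R) (hwR : w (ind R) = 1)
    (hmin : ∀ D ⊆ lam, EvenOff a b U D → w (ind D) = 1 → R.card ≤ D.card)
    (hav : ∀ e ∈ R, a e ∉ U ∧ b e ∉ U) {v0 v : X} (hv0 : v0 ∈ nearU a b lam U (vts a b R \ U))
    (hv : v ∈ nearU a b lam U (vts a b R \ U)) (hne : v ≠ v0) :
    ∃ D ⊆ R, D.card ≤ 2 ∧ ∀ x, bd a b (ind D) x = (if x = v0 then 1 else 0) + (if x = v then 1 else 0) := by
  obtain ⟨hv0I, e0, he0, h0⟩ := Finset.mem_filter.1 hv0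
  obtain ⟨hvI, e, he, h1⟩ := Finset.mem_filter.1 hv
  have hv0U : v0 ∉ U := (Finset.mem_sdiff.1 hv0I).2
  have hvU : v ∉ U := (Finset.mem_sdiff.1 hvI).2
  have hb0 : ∀ x, x ∉ U → bd a b (Pi.single e0 1) x = if x = v0 then 1 else 0 := by
    intro x hx
    rw [bd_single]
    rcases h0 with ⟨h0, h0'⟩ | ⟨h0, h0'⟩
    · rw [h0, if_neg (fun hh => hx (hh ▸ h0') : ¬ b e0 = x), add_zero]
      by_cases hxv : x = v0
      · rw [if_pos hxv, if_pos hxv.symm]
      · rw [if_neg hxv, if_neg fun hh => hxv hh.symm]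
    · rw [h0, if_neg (fun hh => hx (hh ▸ h0') : ¬ a e0 = x), zero_add]
      by_cases hxv : x = v0
      · rw [if_pos hxv, if_pos hxv.symm]
      · rw [if_neg hxv, if_neg fun hh => hxv hh.symm]
  have hb1 : ∀ x, x ∉ U → bd a b (Pi.single e 1) x = if x = v then 1 else 0 := by
    intro x hx
    rw [bd_single]
    rcases h1 with ⟨h1, h1'⟩ | ⟨h1, h1'⟩
    · rw [h1, if_neg (fun hh => hx (hh ▸ h1') : ¬ b e = x), add_zero]
      by_cases hxv : x = v
      · rw [if_pos hxv, if_pos hxv.symm]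
      · rw [if_neg hxv, if_neg fun hh => hxv hh.symm]
    · rw [h1, if_neg (fun hh => hx (hh ▸ h1') : ¬ a e = x), zero_add]
      by_cases hxv : x = v
      · rw [if_pos hxv, if_pos hxv.symm]
      · rw [if_neg hxv, if_neg fun hh => hxv hh.symm]
  have hee : e ≠ e0 := by
    rintro rfl
    have h2 := hb0 v hvU
    have h3 := hb1 v hvU
    rw [h2, if_neg hne, if_pos rfl] at h3
    exact absurd h3 (by decide)
  have heR : e ∉ R := by
    intro hh
    rcases h1 with h1 | h1
    · exact (hav e hh).2 h1.2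
    · exact (hav e hh).1 h1.2
  have he0R : e0 ∉ R := by
    intro hh
    rcases h0 with h0 | h0
    · exact (hav e0 hh).2 h0.2
    · exact (hav e0 hh).1 h0.2
  -- a set with the boundary `v0 + v` is closed up by `e0` and `e`
  have hcl : ∀ D ⊆ R, (∀ x, x ∉ U → bd a b (ind D) x =
      (if x = v0 then 1 else 0) + (if x = v then 1 else 0)) →
      w (ind D) + w (Pi.single e0 1) + w (Pi.single e 1) = 1 → R.card ≤ D.card + 2 := by
    intro D hDR hD hw
    have h2 : e0 ∉ D := fun hh => he0R (hDR hh)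
    have h3 : e ∉ insert e0 D := fun hh => (Finset.mem_insert.1 hh).elim hee fun hh => heR (hDR hh)
    have h4 : ind (insert e (insert e0 D)) = ind D + Pi.single e0 1 + Pi.single e 1 := by
      rw [ind_insert' h3, ind_insert' h2]
    have h5 := hmin (insert e (insert e0 D)) (Finset.insert_subset he (Finset.insert_subset he0
      (hDR.trans hRlam))) (by
        intro x hx
        rw [h4, map_add, map_add, Pi.add_apply, Pi.add_apply, hD x hx, hb0 x hx, hb1 x hx]
        have h6 := f2_add_self (if x = v0 then (1 : F2) else 0)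
        have h7 := f2_add_self (if x = v then (1 : F2) else 0)
        linear_combination h6 + h7) (by
        rw [h4, map_add, map_add]
        exact hw)
    rw [Finset.card_insert_of_notMem h3, Finset.card_insert_of_notMem h2] at h5
    exact h5
  -- inside `U`
  have hins : ∀ D ⊆ R, (∀ x, x ∉ U → bd a b (ind D) x =
      (if x = v0 then 1 else 0) + (if x = v then 1 else 0)) →
      ∀ x, bd a b (ind D) x = (if x = v0 then 1 else 0) + (if x = v then 1 else 0) := by
    intro D hDR hD x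
    by_cases hx : x ∈ U
    · rw [if_neg (fun hh => hv0U (hh ▸ hx) : ¬ x = v0), if_neg (fun hh => hvU (hh ▸ hx) : ¬ x = v),
        bd_ind, add_zero]
      have h2 : dg a b D x = 0 := by
        by_contra hpos
        obtain ⟨e', he', h3⟩ := dg_pos a b (Nat.pos_of_ne_zero hpos)
        rcases h3 with h3 | h3
        · exact (hav e' (hDR he')).1 (h3 ▸ hx)
        · exact (hav e' (hDR he')).2 (h3 ▸ hx)
      rw [h2, Nat.cast_zero]
    · exact hD x hx
  obtain ⟨D, hDR, hD⟩ := circ_pair a b hR v0 hv0I v hvI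
  have hD' : ∀ x, x ∉ U → bd a b (ind (R \ D)) x =
      (if x = v0 then 1 else 0) + (if x = v then 1 else 0) := by
    intro x hx
    rw [ind_sdiff hDR, map_add, Pi.add_apply, hR.2.1 x hx, zero_add, hD x hx]
  have hcard : (R \ D).card + D.card = R.card := Finset.card_sdiff_add_card_eq_card hDR
  have hw2 : w (ind (R \ D)) = 1 + w (ind D) := by
    rw [ind_sdiff hDR, map_add, hwR]
  rcases f2_cases (w (ind D) + w (Pi.single e0 1) + w (Pi.single e 1)) with h2 | h2
  · have h3 := hcl (R \ D) Finset.sdiff_subset hD' (by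
      rw [hw2]
      linear_combination h2)
    exact ⟨D, hDR, by omega, hins D hDR hD⟩
  · have h3 := hcl D hDR hD h2
    exact ⟨R \ D, Finset.sdiff_subset, by omega, hins _ Finset.sdiff_subset hD'⟩

theorem near_five {lam R : Finset E} {U : Finset X} (hs : Simp a b lam) (hRlam : R ⊆ lam) {w : (E → F2) →ₗ[F2] F2}
    (hR : Circ a b U R) (hwR : w (ind R) = 1)
    (hmin : ∀ D ⊆ lam, EvenOff a b U D → w (ind D) = 1 → R.card ≤ D.card) :
    (nearU a b lam U (vts a b R \ U)).card ≤ 5 := by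
  by_cases hU : ∃ e ∈ R, a e ∈ U ∨ b e ∈ U
  · exact (near_two a b hs hRlam hR hwR hmin hU).trans (by norm_num)
  have hav : ∀ e ∈ R, a e ∉ U ∧ b e ∉ U := fun e he =>
    ⟨fun hh => hU ⟨e, he, Or.inl hh⟩, fun hh => hU ⟨e, he, Or.inr hh⟩⟩
  rcases (nearU a b lam U (vts a b R \ U)).eq_empty_or_nonempty with h0 | ⟨v0, hv0⟩
  · rw [h0, Finset.card_empty]
    exact Nat.zero_le _
  obtain ⟨Nb, hNb⟩ : ∃ Nb : X → Finset X, ∀ u, Nb u =
      ((R.filter fun e => a e = u).image b) ∪ ((R.filter fun e => b e = u).image a) := ⟨_, fun _ => rfl⟩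
  have hmem : ∀ u v, v ∈ Nb u ↔ ∃ e ∈ R, Jn (a e) (b e) u v := by
    intro u v
    rw [hNb, Finset.mem_union, Finset.mem_image, Finset.mem_image]
    constructor
    · rintro (⟨e, he, h⟩ | ⟨e, he, h⟩)
      · rw [Finset.mem_filter] at he
        exact ⟨e, he.1, Or.inl ⟨he.2, h⟩⟩
      · rw [Finset.mem_filter] at he
        exact ⟨e, he.1, Or.inr ⟨he.2, h⟩⟩
    · rintro ⟨e, he, h | h⟩
      · exact Or.inl ⟨e, Finset.mem_filter.2 ⟨he, h.1⟩, h.2⟩
      · exact Or.inr ⟨e, Finset.mem_filter.2 ⟨he, h.1⟩, h.2⟩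
  have hsym : ∀ u v, v ∈ Nb u → u ∈ Nb v := by
    intro u v h
    obtain ⟨e, he, h | h⟩ := (hmem u v).1 h
    · exact (hmem v u).2 ⟨e, he, Or.inr ⟨h.2, h.1⟩⟩
    · exact (hmem v u).2 ⟨e, he, Or.inl ⟨h.2, h.1⟩⟩
  have hdeg : ∀ u ∈ vts a b R \ U, (Nb u).card ≤ 2 := by
    intro u hu
    rw [hNb, ← circ_deg a b hR u hu]
    unfold dg
    exact (Finset.card_union_le _ _).trans (Nat.add_le_add Finset.card_image_le Finset.card_image_le)
  have hv0I : v0 ∈ vts a b R \ U := (Finset.mem_filter.1 hv0).1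
  have hnbI : ∀ u ∈ Nb v0, u ∈ vts a b R \ U := by
    intro u hu
    obtain ⟨e, he, h | h⟩ := (hmem v0 u).1 hu
    · refine Finset.mem_sdiff.2 ⟨(mem_vts a b).2 (dg_pos_of a b he (Or.inr h.2)), ?_⟩
      rw [← h.2]
      exact (hav e he).2
    · refine Finset.mem_sdiff.2 ⟨(mem_vts a b).2 (dg_pos_of a b he (Or.inl h.2)), ?_⟩
      rw [← h.2]
      exact (hav e he).1
  have hsub : nearU a b lam U (vts a b R \ U) ⊆
      {v0} ∪ Nb v0 ∪ (Nb v0).biUnion fun u => (Nb u).erase v0 := by
    intro v hv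
    rw [Finset.mem_union, Finset.mem_union, Finset.mem_singleton, Finset.mem_biUnion]
    by_cases hne : v = v0
    · exact Or.inl (Or.inl hne)
    obtain ⟨D, hDR, hDc, hD⟩ := short a b hRlam hR hwR hmin hav hv0 hv hne
    have hDne : D ≠ ∅ := by
      rintro rfl
      have h1 := hD v0
      have h2 : (ind (∅ : Finset E)) = 0 := by
        funext e
        unfold ind
        rw [if_neg (Finset.notMem_empty e)]
        rfl
      rw [h2, map_zero, Pi.zero_apply, if_pos rfl, if_neg fun hh => hne hh.symm] at h1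
      exact absurd h1 (by decide)
    have hD0 : 0 < D.card := Finset.card_pos.2 (Finset.nonempty_iff_ne_empty.2 hDne)
    rcases Nat.lt_or_ge D.card 2 with hc | hc
    · obtain ⟨e1, he1⟩ := Finset.card_eq_one.1 (by omega : D.card = 1)
      have he1R : e1 ∈ R := hDR (by rw [he1]; exact Finset.mem_singleton_self _)
      refine Or.inl (Or.inr ((hmem v0 v).2 ⟨e1, he1R, ?_⟩))
      refine one_edge (a e1) (b e1) v0 v hne fun x => ?_
      have h1 := hD x
      rw [he1, ind_single, bd_single] at h1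
      exact h1
    · obtain ⟨e1, e2, he12, he⟩ := Finset.card_eq_two.1 (by omega : D.card = 2)
      have he1R : e1 ∈ R := hDR (by rw [he]; exact Finset.mem_insert_self _ _)
      have he2R : e2 ∈ R := hDR (by
        rw [he]
        exact Finset.mem_insert_of_mem (Finset.mem_singleton_self _))
      have h2 := two_edges (a e1) (b e1) (a e2) (b e2) v0 v (hs.1 e1 (hRlam he1R))
        (hs.1 e2 (hRlam he2R)) hne fun x => by
          have h1 := hD x
          rw [he, ind_insert' (fun hh => he12 (Finset.mem_singleton.1 hh)), ind_single, map_add,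
            Pi.add_apply, bd_single, bd_single, add_comm] at h1
          exact h1
      have her : ∀ u, v ∈ Nb u → v ∈ (Nb u).erase v0 := fun u hu => Finset.mem_erase.2 ⟨hne, hu⟩
      rcases h2 with h2 | h2 | ⟨u, h2, h3⟩ | ⟨u, h2, h3⟩
      · exact Or.inl (Or.inr ((hmem v0 v).2 ⟨e1, he1R, h2⟩))
      · exact Or.inl (Or.inr ((hmem v0 v).2 ⟨e2, he2R, h2⟩))
      · exact Or.inr ⟨u, (hmem v0 u).2 ⟨e1, he1R, h2⟩, her u ((hmem u v).2 ⟨e2, he2R, h3⟩)⟩
      · exact Or.inr ⟨u, (hmem v0 u).2 ⟨e2, he2R, h2⟩, her u ((hmem u v).2 ⟨e1, he1R, h3⟩)⟩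
  have hbi : ((Nb v0).biUnion fun u => (Nb u).erase v0).card ≤ (Nb v0).card * 1 := by
    refine Finset.card_biUnion_le_card_mul _ _ _ fun u hu => ?_
    rw [Finset.card_erase_of_mem (hsym v0 u hu)]
    have := hdeg u (hnbI u hu)
    omega
  have h2 := hdeg v0 hv0I
  have h3 := Finset.card_le_card hsub
  have h4 := Finset.card_union_le ({v0} ∪ Nb v0) ((Nb v0).biUnion fun u => (Nb u).erase v0)
  have h5 := Finset.card_union_le {v0} (Nb v0)
  rw [Finset.card_singleton] at h5
  omega

end Pool.Agent.EXG
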