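import Pool.Agent.EXG.MinC

/-!
# EXG-EarG: the gap inequality for an ear

PLAN. Choose `D ⊆ C` with `bd a b (ind D) = bd a b (ind R)`: by `circ_str` for `R` and `U = vts a b C` either no edge of `R` meets
`U` (then `bd a b (ind R) = 0`: at `x ∉ U` by `EvenOff`, at `x ∈ U` there is no edge; `D = ∅`), or the boundary of `R` is `u + v`
with `u, v ∈ vts a b C`; then `circ_pair` for `C` and `U = ∅`.
The even functions `x1 = ind R + ind D` and `x2 = ind R + ind (C \ D)`: `w x1 = 1` and `w x2 = 1` (`w` vanishes on functions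
supported on `C`, as `w (Pi.single e 1) = 0` there). So `c x1 ≠ 0`, `c x1 ≠ ω`, `c x2 ≠ 0`; and `c x1 + c x2 = c (ind C) = ω`
(`2 c (ind R) = 0`). With `mu = symmDiff R D`, `nu = symmDiff R (C \ D)` (`ind_symmDiff`) `W2` gives
`Ng ≤ (vts mu).card + (vts nu).card ≤ mu.card + nu.card ≤ R.card + D.card + R.card + (C \ D).card = 2 * R.card + C.card`
(`vts_card_le`).
-/

set_option autoImplicit false

open Finset

namespace Pool.Agent.EXG

open Pool.Agent.Helper35.OG Pool.Agent.Helper58.OG

variable {X E : Type} [Fintype X] [DecidableEq X] [Fintype E] [DecidableEq E] (a b : E → X)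
variable {H : Type} [AddCommGroup H] [Module F2 H] (c : (E → F2) →ₗ[F2] H)

private theorem ind_empty' : ind (∅ : Finset E) = 0 := by
  funext e
  simp [ind]

private theorem ind_sum (D : Finset E) : ind D = ∑ e ∈ D, Pi.single e (1 : F2) := by
  funext e
  rw [Finset.sum_apply]
  unfold ind
  by_cases he : e ∈ D
  · rw [if_pos he, Finset.sum_eq_single e (fun e' _ hne => Pi.single_eq_of_ne (Ne.symm hne) 1)
      (fun h => absurd he h), Pi.single_eq_same]
  · rw [if_neg he]
    refine (Finset.sum_eq_zero fun e' he' => Pi.single_eq_of_ne ?_ 1).symm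
    rintro rfl
    exact he he'

private theorem w_zero {C D : Finset E} {w : (E → F2) →ₗ[F2] F2} (hw : ∀ e ∈ C, w (Pi.single e 1) = 0)
    (hD : D ⊆ C) : w (ind D) = 0 := by
  rw [ind_sum, map_sum]
  exact Finset.sum_eq_zero fun e he => hw e (hD he)

private theorem symm_sub {A B lam : Finset E} (hA : A ⊆ lam) (hB : B ⊆ lam) : symmDiff A B ⊆ lam := by
  intro e he
  rcases Finset.mem_symmDiff.1 he with h | h
  · exact hA h.1
  · exact hB h.1

private theorem symm_card (A B : Finset E) : (symmDiff A B).card ≤ A.card + B.card :=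
  (Finset.card_le_card (symm_sub Finset.subset_union_left Finset.subset_union_right)).trans
    (Finset.card_union_le A B)

private theorem exists_D {C R : Finset E} (hC : Circ a b ∅ C) (hR : Circ a b (vts a b C) R) :
    ∃ D ⊆ C, bd a b (ind D) = bd a b (ind R) := by
  rcases circ_str a b hR with ⟨_, h⟩ | ⟨_, _, _, _, u, hu, v, hv, h⟩
  · refine ⟨∅, Finset.empty_subset _, ?_⟩
    rw [ind_empty', map_zero]
    funext x
    by_cases hx : x ∈ vts a b C
    · rw [bd_ind]
      have h0 : dg a b R x = 0 := by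
        by_contra hne
        obtain ⟨e, he, he'⟩ := dg_pos a b (Nat.pos_of_ne_zero hne)
        rcases he' with he' | he'
        · exact (h e he).1 (he' ▸ hx)
        · exact (h e he).2 (he' ▸ hx)
      rw [h0, Nat.cast_zero, Pi.zero_apply]
    · rw [hR.2.1 x hx, Pi.zero_apply]
  · obtain ⟨D, hD, hD'⟩ := circ_pair a b hC u (Finset.mem_sdiff.2 ⟨hu, Finset.notMem_empty u⟩) v
      (Finset.mem_sdiff.2 ⟨hv, Finset.notMem_empty v⟩)
    refine ⟨D, hD, ?_⟩
    funext x
    rw [hD' x (Finset.notMem_empty x), h x]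

theorem ear_gap {lam C R : Finset E} {ω : H} (hClam : C ⊆ lam) (hC : Circ a b ∅ C) (hCc : c (ind C) = ω) {Ng : ℕ}
    (h2 : W2 a b c lam ω Ng) (hRlam : R ⊆ lam) {w : (E → F2) →ₗ[F2] F2} (hw : ∀ e ∈ C, w (Pi.single e 1) = 0)
    (hwc : ∀ u, bd a b u = 0 → w u = 1 → c u ≠ 0 ∧ c u ≠ ω) (hR : Circ a b (vts a b C) R) (hwR : w (ind R) = 1) :
    Ng ≤ 2 * R.card + C.card := by
  obtain ⟨D, hD, hbd⟩ := exists_D a b hC hR
  have hCD : C \ D ⊆ C := Finset.sdiff_subset
  have hC0 : bd a b (ind C) = 0 := by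
    funext v
    exact hC.2.1 v (Finset.notMem_empty v)
  have b1 : bd a b (ind (symmDiff R D)) = 0 := by
    rw [ind_symmDiff, map_add, hbd]
    funext v
    exact f2_add_self _
  have b2 : bd a b (ind (symmDiff R (C \ D))) = 0 := by
    rw [ind_symmDiff, ind_sdiff hD, map_add, map_add, hC0, zero_add, hbd]
    funext v
    exact f2_add_self _
  have w1 : w (ind (symmDiff R D)) = 1 := by
    rw [ind_symmDiff, map_add, hwR, w_zero hw hD, add_zero]
  have w2 : w (ind (symmDiff R (C \ D))) = 1 := by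
    rw [ind_symmDiff, map_add, hwR, w_zero hw hCD, add_zero]
  have hsum : ind (symmDiff R D) + ind (symmDiff R (C \ D)) = ind C := by
    rw [ind_symmDiff, ind_symmDiff, ind_sdiff hD]
    funext e
    simp only [Pi.add_apply]
    linear_combination f2_add_self (ind R e) + f2_add_self (ind D e)
  have hle := h2 _ (symm_sub hRlam (hD.trans hClam)) _ (symm_sub hRlam (hCD.trans hClam)) b1 b2
    (hwc _ b1 w1).1 (hwc _ b2 w2).1 (by rw [← map_add, hsum, hCc])
  have c1 := (vts_card_le a b b1).trans (symm_card R D)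
  have c2 := (vts_card_le a b b2).trans (symm_card R (C \ D))
  have c3 : (C \ D).card + D.card = C.card := Finset.card_sdiff_add_card_eq_card hD
  omega

end Pool.Agent.EXG
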