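import Pool.Agent.EXG.EarA
import Pool.Agent.EXG.EarG
import Pool.Agent.EXG.EarB
import Pool.Agent.EXG.EarD
import Pool.Agent.EXG.EarC

/-!
# EXG-Ear: either all classes are `0` or `ω`, or the rank is large (assembly)
-/

set_option autoImplicit false

open Finset

namespace Pool.Agent.EXG

open Pool.Agent.Helper35.OG Pool.Agent.Helper58.OG

variable {X E : Type} [Fintype X] [DecidableEq X] [Fintype E] [DecidableEq E] (a b : E → X)
variable {H : Type} [AddCommGroup H] [Module F2 H] (c : (E → F2) →ₗ[F2] H)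

theorem ear {lam : Finset E} (hs : Simp a b lam) {ω : H} (hω : ω ≠ 0) {N Ng : ℕ} (h1 : W1 a b c lam ω N)
    (h2 : W2 a b c lam ω Ng) {mu : Finset E} (hmu : mu ⊆ lam) (hmu0 : bd a b (ind mu) = 0) (hmuc : c (ind mu) = ω)
    (hcard : mu.card + 3 ≤ Ng) :
    (∀ ν ⊆ lam, bd a b (ind ν) = 0 → c (ind ν) = 0 ∨ c (ind ν) = ω) ∨
      2 * Module.finrank F2 (kerA a b lam) + N + Ng ≤ 2 * Fintype.card X + 16 := by
  by_cases hall : ∀ ν ⊆ lam, bd a b (ind ν) = 0 → c (ind ν) = 0 ∨ c (ind ν) = ω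
  · exact Or.inl hall
  right
  push Not at hall
  obtain ⟨nu, hnu, hnu0, hnu1, hnu2⟩ := hall
  obtain ⟨C, hClam, hC, hCc, hN, hCmu, hCv, hind⟩ := minC a b c hs hω h1 h2 hmu hmu0 hmuc (by omega)
  obtain ⟨w, R, hRlam, hw, hwc, hR, hwR, hmin⟩ := ear_exists a b c hC hCc hnu hnu0 hnu1 hnu2
  have hgap := ear_gap a b c hClam hC hCc h2 hRlam hw hwc hR hwR
  have hR2 : 2 ≤ R.card := by omega
  have h := ear_rank a b hC hClam hCv hind hRlam hR (no_chord a b hs hRlam hR hwR hmin)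
    (near_five a b hs hRlam hR hwR hmin) (near_two a b hs hRlam hR hwR hmin) hR2
  omega

end Pool.Agent.EXG
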