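import Pool.Agent.EXG.Cut

/-!
# EXG-EarA: the weight and the shortest ear

`C` is a circuit of class `ω`, `nu` an even set whose class `g` is neither `0` nor `ω`.

PLAN. (1) `g` is not in the span of `ω` (elements of `Submodule.span F2 {ω}` are `r • ω`, `r ∈ F2`), so there is a linear
`χ : H → F2` with `χ g ≠ 0` (so `= 1`) and `χ ω = 0` (`Submodule.exists_le_ker_of_notMem` or
`Submodule.exists_dual_map_eq_bot_of_notMem` for `span {ω}`).
(2) `cut` for `lam := C` and `y e = χ (c (Pi.single e 1))`: an even subset of `C` is `∅` or `C`, and `∑_{e ∈ C} y e =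
χ (c (ind C)) = χ ω = 0` (`ind C = ∑_{e ∈ C} Pi.single e 1`). So there is `A : X → F2` with `y e = A (a e) + A (b e)` for
`e ∈ C`.
(3) `w u = χ (c u) + ∑ e, u e * (A (a e) + A (b e))`, a linear map. `w (Pi.single e 1) = 0` for `e ∈ C`. For even `u` the second
term vanishes: `∑ e, u e * (A (a e) + A (b e)) = ∑ v, A v * bd a b u v` (exchange the sums). So `w u = χ (c u)` for even `u`;
`w u = 1` implies `c u ≠ 0` and `c u ≠ ω`.
(4) `R`: of smallest cardinality among the `D ⊆ lam` with `EvenOff a b (vts a b C) D` and `w (ind D) = 1` (`nu` is one). It is a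
circuit relative to `vts a b C`: it is nonempty (`w 0 = 0`), and if `D ⊆ R` is even outside, so is `R \ D`, and
`w D + w (R \ D) = 1`; if `w D = 1` then `R.card ≤ D.card`, so `D = R`; otherwise `w (R \ D) = 1` and `D = ∅`.
-/

set_option autoImplicit false

open Finset

namespace Pool.Agent.EXG

open Pool.Agent.Helper35.OG Pool.Agent.Helper58.OG

variable {X E : Type} [Fintype X] [DecidableEq X] [Fintype E] [DecidableEq E] (a b : E → X)
variable {H : Type} [AddCommGroup H] [Module F2 H] (c : (E → F2) →ₗ[F2] H)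

omit [Fintype E] in
private theorem ea_ind (ν : Finset E) : (ind ν : E → F2) = ∑ e ∈ ν, Pi.single e 1 := by
  funext x
  rw [Finset.sum_apply]
  unfold ind
  by_cases hx : x ∈ ν
  · rw [if_pos hx, Finset.sum_eq_single x]
    · rw [Pi.single_eq_same]
    · intro e _ hne
      rw [Pi.single_eq_of_ne hne.symm]
    · intro h
      exact absurd hx h
  · rw [if_neg hx, Finset.sum_eq_zero]
    intro e he
    rw [Pi.single_eq_of_ne]
    rintro rfl
    exact hx he

/-- the coboundary of a function on the points, as a linear form -/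
private def eaL (A : X → F2) : (E → F2) →ₗ[F2] F2 where
  toFun u := ∑ e, u e * (A (a e) + A (b e))
  map_add' u v := by
    simp only [Pi.add_apply, add_mul, Finset.sum_add_distrib]
  map_smul' r u := by
    simp only [Pi.smul_apply, smul_eq_mul, RingHom.id_apply, Finset.mul_sum, mul_assoc]

omit [Fintype X] [DecidableEq X] in
private theorem eaL_single (A : X → F2) (e : E) :
    eaL a b A (Pi.single e 1) = A (a e) + A (b e) := by
  show ∑ e', (Pi.single e 1 : E → F2) e' * _ = _
  rw [Finset.sum_eq_single e]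
  · rw [Pi.single_eq_same, one_mul]
  · intro e' _ hne
    rw [Pi.single_eq_of_ne hne, zero_mul]
  · intro h; exact absurd (Finset.mem_univ _) h

omit [DecidableEq E] in
private theorem eaL_even (A : X → F2) {u : E → F2} (hu : bd a b u = 0) : eaL a b A u = 0 := by
  have h1 : eaL a b A u = ∑ v, A v * bd a b u v := by
    show ∑ e, u e * (A (a e) + A (b e)) =
      ∑ v, A v * ∑ e, u e * ((if a e = v then 1 else 0) + (if b e = v then 1 else 0))
    simp only [Finset.mul_sum]
    rw [Finset.sum_comm]
    refine Finset.sum_congr rfl fun e _ => ?_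
    have h2 : ∀ x : X, ∑ v, A v * (u e * (if x = v then 1 else 0)) = u e * A x := by
      intro x
      rw [Finset.sum_eq_single x]
      · rw [if_pos rfl]
        ring
      · intro v _ hne
        rw [if_neg hne.symm]
        ring
      · intro h
        exact absurd (Finset.mem_univ _) h
    simp only [mul_add, Finset.sum_add_distrib]
    rw [h2, h2]
  rw [h1, hu]
  exact Finset.sum_eq_zero fun v _ => by rw [Pi.zero_apply, mul_zero]

theorem ear_exists {lam C nu : Finset E} {ω : H} (hC : Circ a b ∅ C) (hCc : c (ind C) = ω) (hnu : nu ⊆ lam)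
    (hnu0 : bd a b (ind nu) = 0) (h1 : c (ind nu) ≠ 0) (h2 : c (ind nu) ≠ ω) :
    ∃ (w : (E → F2) →ₗ[F2] F2) (R : Finset E), R ⊆ lam ∧ (∀ e ∈ C, w (Pi.single e 1) = 0) ∧
      (∀ u, bd a b u = 0 → w u = 1 → c u ≠ 0 ∧ c u ≠ ω) ∧ Circ a b (vts a b C) R ∧ w (ind R) = 1 ∧
      ∀ D ⊆ lam, EvenOff a b (vts a b C) D → w (ind D) = 1 → R.card ≤ D.card := by
  classical
  have hg : c (ind nu) ∉ Submodule.span F2 {ω} := by
    intro h
    obtain ⟨r, hr⟩ := Submodule.mem_span_singleton.1 h
    rcases f2_cases r with h0 | h0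
    · rw [h0, zero_smul] at hr
      exact h1 hr.symm
    · rw [h0, one_smul] at hr
      exact h2 hr.symm
  obtain ⟨χ, hχ1, hχ2⟩ := Submodule.exists_dual_map_eq_bot_of_notMem hg inferInstance
  have hχg : χ (c (ind nu)) = 1 := by
    rcases f2_cases (χ (c (ind nu))) with h0 | h0
    · exact absurd h0 hχ1
    · exact h0
  have hχω : χ ω = 0 := by
    have h3 : χ ω ∈ (Submodule.span F2 {ω}).map χ :=
      Submodule.mem_map_of_mem (Submodule.mem_span_singleton_self ω)
    rw [hχ2] at h3
    exact (Submodule.mem_bot F2).1 h3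
  obtain ⟨A, hA⟩ := cut a b C (fun e => χ (c (Pi.single e 1))) (by
    intro ν hν hν0
    rcases hC.2.2 ν hν (fun v _ => congrFun hν0 v) with h3 | h3
    · rw [h3, Finset.sum_empty]
    · rw [h3, ← map_sum, ← map_sum, ← ea_ind, hCc, hχω])
  obtain ⟨w, hw⟩ : ∃ w : (E → F2) →ₗ[F2] F2, w = χ.comp c + eaL a b A := ⟨_, rfl⟩
  have hwapp : ∀ u, w u = χ (c u) + eaL a b A u := by
    intro u
    rw [hw]
    rfl
  have hweven : ∀ u, bd a b u = 0 → w u = χ (c u) := by
    intro u hu
    rw [hwapp, eaL_even a b A hu, add_zero]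
  have hwC : ∀ e ∈ C, w (Pi.single e 1) = 0 := by
    intro e he
    rw [hwapp, eaL_single, ← hA e he]
    exact f2_add_self _
  have hP : nu ∈ lam.powerset.filter (fun D => EvenOff a b (vts a b C) D ∧ w (ind D) = 1) := by
    rw [Finset.mem_filter, Finset.mem_powerset]
    refine ⟨hnu, fun v _ => congrFun hnu0 v, ?_⟩
    rw [hweven _ hnu0, hχg]
  obtain ⟨R, hR, hmin⟩ := Finset.exists_min_image _ Finset.card ⟨nu, hP⟩
  rw [Finset.mem_filter, Finset.mem_powerset] at hR
  obtain ⟨hR1, hR2, hR3⟩ := hR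
  have hmin' : ∀ D ⊆ lam, EvenOff a b (vts a b C) D → w (ind D) = 1 → R.card ≤ D.card := by
    intro D hD hD1 hD2
    exact hmin D (Finset.mem_filter.2 ⟨Finset.mem_powerset.2 hD, hD1, hD2⟩)
  refine ⟨w, R, hR1, hwC, ?_, ⟨?_, hR2, ?_⟩, hR3, hmin'⟩
  · intro u hu hu1
    rw [hweven u hu] at hu1
    constructor
    · intro h0
      rw [h0, map_zero] at hu1
      exact zero_ne_one hu1
    · intro h0
      rw [h0, hχω] at hu1
      exact zero_ne_one hu1
  · rw [Finset.nonempty_iff_ne_empty]
    rintro h0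
    rw [h0, ea_ind, Finset.sum_empty, map_zero] at hR3
    exact zero_ne_one hR3
  · intro D hD hD1
    have hsd : EvenOff a b (vts a b C) (R \ D) := by
      intro v hv
      rw [ind_sdiff hD, map_add, Pi.add_apply, hR2 v hv, hD1 v hv, add_zero]
    rcases f2_cases (w (ind D)) with h0 | h0
    · left
      have h3 : w (ind (R \ D)) = 1 := by
        rw [ind_sdiff hD, map_add, hR3, h0, add_zero]
      have h4 := hmin' (R \ D) (Finset.sdiff_subset.trans hR1) hsd h3
      have h5 : R \ D = R := Finset.eq_of_subset_of_card_le Finset.sdiff_subset h4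
      rw [Finset.sdiff_eq_self_iff_disjoint] at h5
      exact Finset.disjoint_self_iff_empty D |>.1 (h5.mono_left hD)
    · right
      exact Finset.eq_of_subset_of_card_le hD (hmin' D (hD.trans hR1) hD1 h0)

end Pool.Agent.EXG
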