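import Pool.Agent.EXG.CStr

/-!
# EXG-EarDa (theorem `near_two`): few points of the shortest ear are joined to `U`

`R` as in EXG-EarB. `nearU a b lam U W`: the points of `W` joined to `U` by an edge of `lam`. Let `I = vts a b R \ U`.

PLAN. `near_two` (some edge of `R` has an end in `U`: second case of `circ_str`). Let `v ∈ nearU`, `e ∈ lam` an edge between `v`
and a point of `U`. CLAIM: some `e' ∈ R` has one end `v` and the other end in `U`. If `e ∈ R` take `e' = e`. Otherwise take
`D ⊆ R` with boundary `v` outside `U` (`circ_str`); `R \ D` has the same boundary outside `U`. `insert e D` and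
`insert e (R \ D)` are even outside `U` (the boundary of `e` outside `U` is `v`) and their weights have sum
`w (ind R) + 2 * .. = 1`, so as in EXG-EarB one of the sets `D' = D`, `D' = R \ D` has at most one element; it is not empty
(boundary 1 at `v`), so `D' = {e'}` and the boundary of `e'` outside `U` is `v`: one end of `e'` is `v`, the other is in `U`.
Then `nearU` is contained in the union of the images, under the map which sends an edge to its end outside `U` (`fun e => if a e ∈ U then b e else a e`), of
`R.filter fun e => a e ∈ U ∨ b e ∈ U`, of at most 2 elements (`circ_str`).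

`near_five`: if some edge of `R` has an end in `U` use `near_two`. Otherwise (first case of `circ_str`) all edges of `R` avoid
`U`. Suppose `v0 ∈ nearU` with the edge `e0`, and let `v ∈ nearU`, `v ≠ v0`, with the edge `e`; `e ≠ e0`, `e, e0 ∉ R`.
`circ_pair`: `D ⊆ R` with boundary `v0 + v`; `insert e (insert e0 D)`, `insert e (insert e0 (R \ D))` are even outside `U` and
their weights have sum 1, so `D'.card ≤ 2` for `D' = D` or `D' = R \ D`, of boundary `v0 + v` (everywhere outside `U`, and `D'`
has no end in `U`). `D' ≠ ∅`. If `D' = {e'}`: `v` is a neighbour of `v0` along `e'`. If `D' = {e', e''}`: say `e'` has the end `v0`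
(boundary 1 at `v0`: exactly one of the two has the end `v0`, once); its other end `u`; if `u = v` then `e''` would have zero
boundary, i.e. be a loop; excluded by `Simp`; so `u ≠ v`, the boundary at `u` is 0, so `e''` has the end `u`, and its other end is
`v`. With `Nb u = ((R.filter fun e => a e = u).image b) ∪ ((R.filter fun e => b e = u).image a)`, of cardinality `≤ dg a b R u`
`= 2` (`circ_deg`): `nearU ⊆ {v0} ∪ Nb v0 ∪ (Nb v0).biUnion fun u => (Nb u).erase v0`, and `((Nb u).erase v0).card ≤ 1` for
`u ∈ Nb v0` as `v0 ∈ Nb u`. So at most `1 + 2 + 2 = 5` points.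
-/

set_option autoImplicit false

open Finset

namespace Pool.Agent.EXG

open Pool.Agent.Helper35.OG Pool.Agent.Helper58.OG

variable {X E : Type} [Fintype X] [DecidableEq X] [Fintype E] [DecidableEq E] (a b : E → X)

private theorem ind_insert' {D : Finset E} {e : E} (he : e ∉ D) :
    ind (insert e D) = ind D + Pi.single e 1 := by
  funext x
  rw [Pi.add_apply]
  unfold ind
  by_cases hx : x = e
  · subst hx
    rw [if_pos (Finset.mem_insert_self _ _), if_neg he, Pi.single_eq_same, zero_add]
  · rw [Pi.single_eq_of_ne hx, add_zero]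
    by_cases h : x ∈ D
    · rw [if_pos h, if_pos (Finset.mem_insert_of_mem h)]
    · rw [if_neg h, if_neg (fun h' => (Finset.mem_insert.1 h').elim hx h)]

private theorem one_edge {U : Finset X} {v : X} (hv : v ∉ U) {D : Finset E}
    (hD : ∀ x, x ∉ U → bd a b (ind D) x = if x = v then 1 else 0) (hc : D.card ≤ 1) :
    ∃ e ∈ D, (a e = v ∧ b e ∈ U) ∨ (b e = v ∧ a e ∈ U) := by
  have hne : D.card ≠ 0 := by
    intro h
    rw [Finset.card_eq_zero] at h
    have h1 := hD v hv
    rw [h, if_pos rfl] at h1
    have h2 : ind (∅ : Finset E) = 0 := by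
      funext e
      exact if_neg (Finset.notMem_empty e)
    rw [h2, map_zero, Pi.zero_apply] at h1
    exact zero_ne_one h1
  obtain ⟨e, he⟩ := Finset.card_eq_one.1 (show D.card = 1 by omega)
  have hi : ind D = Pi.single e 1 := by
    funext x
    rw [he]
    unfold ind
    by_cases hx : x = e
    · subst hx
      rw [if_pos (Finset.mem_singleton_self _), Pi.single_eq_same]
    · rw [if_neg (fun h => hx (Finset.mem_singleton.1 h)), Pi.single_eq_of_ne hx]
  rw [hi] at hD
  refine ⟨e, by rw [he]; exact Finset.mem_singleton_self e, ?_⟩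
  have h1 := hD v hv
  rw [if_pos rfl, bd_single] at h1
  by_cases ha : a e = v <;> by_cases hb : b e = v
  · rw [if_pos ha, if_pos hb, f2_add_self] at h1
    exact absurd h1 zero_ne_one
  · refine Or.inl ⟨ha, ?_⟩
    by_contra hU
    have h2 := hD (b e) hU
    rw [if_neg hb, bd_single, if_pos rfl, if_neg (fun h => hb (h.symm.trans ha)), zero_add] at h2
    exact one_ne_zero h2
  · refine Or.inr ⟨hb, ?_⟩
    by_contra hU
    have h2 := hD (a e) hU
    rw [if_neg ha, bd_single, if_pos rfl, if_neg (fun h => ha (h.symm.trans hb)), add_zero] at h2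
    exact one_ne_zero h2
  · rw [if_neg ha, if_neg hb, add_zero] at h1
    exact absurd h1 zero_ne_one

theorem near_two {lam R : Finset E} {U : Finset X} (hs : Simp a b lam) (hRlam : R ⊆ lam) {w : (E → F2) →ₗ[F2] F2}
    (hR : Circ a b U R) (hwR : w (ind R) = 1)
    (hmin : ∀ D ⊆ lam, EvenOff a b U D → w (ind D) = 1 → R.card ≤ D.card) (hU : ∃ e ∈ R, a e ∈ U ∨ b e ∈ U) :
    (nearU a b lam U (vts a b R \ U)).card ≤ 2 := by
  classical
  rcases circ_str a b hR with ⟨_, h⟩ | ⟨_, _, h2, h3, _⟩
  · obtain ⟨e, he, h'⟩ := hU
    rcases h' with h' | h'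
    · exact absurd h' (h e he).1
    · exact absurd h' (h e he).2
  · refine le_trans (Finset.card_le_card
      (t := (R.filter fun e => a e ∈ U ∨ b e ∈ U).image fun e => if a e ∈ U then b e else a e) ?_)
      (le_trans Finset.card_image_le h2)
    intro v hv
    unfold nearU at hv
    rw [Finset.mem_filter] at hv
    obtain ⟨hvW, e, helam, he⟩ := hv
    have hvU : v ∉ U := (Finset.mem_sdiff.1 hvW).2
    have hfin : ∀ e' ∈ R, ((a e' = v ∧ b e' ∈ U) ∨ (b e' = v ∧ a e' ∈ U)) →
        v ∈ (R.filter fun e => a e ∈ U ∨ b e ∈ U).image fun e => if a e ∈ U then b e else a e := by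
      intro e' he' h
      rw [Finset.mem_image]
      rcases h with ⟨h4, h5⟩ | ⟨h4, h5⟩
      · exact ⟨e', Finset.mem_filter.2 ⟨he', Or.inr h5⟩, by rw [if_neg (by rw [h4]; exact hvU), h4]⟩
      · exact ⟨e', Finset.mem_filter.2 ⟨he', Or.inl h5⟩, by rw [if_pos h5, h4]⟩
    by_cases heR : e ∈ R
    · exact hfin e heR he
    · obtain ⟨D, hDR, hD⟩ := h3 v hvW
      have hD2 : ∀ x, x ∉ U → bd a b (ind (R \ D)) x = if x = v then 1 else 0 := by
        intro x hx
        rw [ind_sdiff hDR, map_add, Pi.add_apply, hR.2.1 x hx, hD x hx, zero_add]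
      have hbe : ∀ x, x ∉ U → bd a b (Pi.single e 1) x = if x = v then 1 else 0 := by
        intro x hx
        rw [bd_single]
        rcases he with ⟨h4, h5⟩ | ⟨h4, h5⟩
        · have hbx : b e ≠ x := fun h => hx (h ▸ h5)
          rw [if_neg hbx, add_zero, h4]
          by_cases hxv : x = v
          · rw [if_pos hxv, if_pos hxv.symm]
          · rw [if_neg hxv, if_neg (Ne.symm hxv)]
        · have hax : a e ≠ x := fun h => hx (h ▸ h5)
          rw [if_neg hax, zero_add, h4]
          by_cases hxv : x = v
          · rw [if_pos hxv, if_pos hxv.symm]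
          · rw [if_neg hxv, if_neg (Ne.symm hxv)]
      have hev : ∀ D' ⊆ R, (∀ x, x ∉ U → bd a b (ind D') x = if x = v then 1 else 0) →
          EvenOff a b U (insert e D') := by
        intro D' hD' h x hx
        rw [ind_insert' (fun h' => heR (hD' h')), map_add, Pi.add_apply, h x hx, hbe x hx,
          f2_add_self]
      have hsub : ∀ D' ⊆ R, insert e D' ⊆ lam := fun D' hD' =>
        Finset.insert_subset helam (hD'.trans hRlam)
      have hcase : w (ind (insert e D)) = 1 ∨ w (ind (insert e (R \ D))) = 1 := by
        rcases f2_cases (w (ind (insert e D))) with h | h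
        · right
          have h5 : w (ind (insert e D)) + w (ind (insert e (R \ D))) = 1 := by
            rw [ind_insert' (fun h' => heR (hDR h')),
              ind_insert' (fun h' => heR (Finset.sdiff_subset h')), map_add, map_add,
              ind_sdiff hDR, map_add, hwR]
            have h6 := f2_add_self (w (ind D))
            have h7 := f2_add_self (w (Pi.single e 1))
            linear_combination h6 + h7
          rw [h, zero_add] at h5
          exact h5
        · exact Or.inl h
      have hcd := Finset.card_sdiff_add_card_eq_card hDR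
      rcases hcase with h | h
      · have h5 := hmin _ (hsub D hDR) (hev D hDR hD) h
        rw [Finset.card_insert_of_notMem (fun h' => heR (hDR h'))] at h5
        obtain ⟨e', he', h6⟩ := one_edge a b hvU hD2 (by omega)
        exact hfin e' (Finset.sdiff_subset he') h6
      · have h5 := hmin _ (hsub (R \ D) Finset.sdiff_subset) (hev (R \ D) Finset.sdiff_subset hD2) h
        rw [Finset.card_insert_of_notMem (fun h' => heR (Finset.sdiff_subset h'))] at h5
        obtain ⟨e', he', h6⟩ := one_edge a b hvU hD (by omega)
        exact hfin e' (hDR he') h6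

end Pool.Agent.EXG
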