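import Pool.Agent.EXG.Base
import Pool.Agent.EXG.Defs

/-!
# EXG-GpA (theorems `closed_of`, `null_of`): sets of flags and functions on the corners

Double counting of the flags by their corners (`sum_rep`); an invariant function on the flags is a function on the edges.
-/

set_option autoImplicit false

open Finset

namespace Pool.Agent.EXG

open Pool.Agent.Helper35.OG Pool.Agent.Helper58.OG

variable {V : Type} [Fintype V] [DecidableEq V] {G : SimpleGraph V} [DecidableRel G.Adj]
variable (S : GMap G)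

/-- The set of the flags of the corners on which `x` is one. -/
def flagsOf (x : S.Rep → F2) : Set (Flag G) := {p | x (S.rep p) = 1}

private theorem four_dvd (x : S.Rep → F2) (P : Flag G → Prop) (hP : ∀ p, P (S.nxt p) ↔ P p)
    (h0 : ∀ (_ : DecidablePred P), ∑ r : S.Rep, x r * (if P r.1 then 1 else 0) = 0) :
    4 ∣ Nat.card {p : Flag G // p ∈ flagsOf S x ∧ P p} := by
  classical
  have h1 : Nat.card {p : Flag G // p ∈ flagsOf S x ∧ P p} =
      ∑ p : Flag G, if x (S.rep p) = 1 ∧ P p then 1 else 0 := by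
    rw [← Finset.card_filter, Nat.card_eq_fintype_card, Fintype.card_subtype]
    refine congrArg Finset.card ?_
    ext p
    rw [Finset.mem_filter, Finset.mem_filter]
    rfl
  have h2 : Nat.card {p : Flag G // p ∈ flagsOf S x ∧ P p} =
      2 * (univ.filter fun r : S.Rep => x r = 1 ∧ P r.1).card := by
    rw [h1, sum_rep S, Finset.card_filter, Finset.mul_sum]
    refine Finset.sum_congr rfl fun r _ => ?_
    rw [rep_nxt, rep_rep]
    by_cases h : x r = 1 ∧ P r.1
    · rw [if_pos h, if_pos ⟨h.1, (hP r.1).2 h.2⟩]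
      rfl
    · rw [if_neg h, if_neg (fun hh => h ⟨hh.1, (hP r.1).1 hh.2⟩)]
      rfl
  have h3 : (((univ.filter fun r : S.Rep => x r = 1 ∧ P r.1).card : ℕ) : ZMod 2) = 0 := by
    rw [Finset.card_filter]
    push_cast
    refine Eq.trans ?_ (h0 (fun p => Classical.propDecidable (P p)))
    refine Finset.sum_congr rfl fun r _ => ?_
    have h5 : ∀ a : ZMod 2, a = 1 ∨ a = 0 := by decide
    by_cases hp : P r.1
    · rw [if_pos hp, mul_one]
      rcases h5 (x r) with h6 | h6
      · rw [if_pos ⟨h6, hp⟩, h6]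
      · rw [h6, if_neg (fun hh => zero_ne_one hh.1)]
    · rw [if_neg hp, mul_zero, if_neg (fun hh => hp hh.2)]
  rw [ZMod.natCast_eq_zero_iff_even] at h3
  obtain ⟨k, hk⟩ := h3
  rw [h2, hk]
  exact ⟨k, by ring⟩

private theorem inc_inl (r : S.Rep) (v : V) : inc S r (Sum.inl v) = if r.1.1.fst = v then 1 else 0 := rfl

private theorem inc_inr (r : S.Rep) (f : S.Face) : inc S r (Sum.inr f) = if S.face r.1 = f then 1 else 0 := rfl

theorem closed_of {x : S.Rep → F2} (hx : x ∈ orth (inc S)) : ClosedSet S (flagsOf S x) := by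
  refine ⟨?_, ?_, ?_⟩
  · intro p hp
    show x (S.rep (S.nxt p)) = 1
    rw [rep_nxt]
    exact hp
  · intro v
    refine four_dvd S x (fun p => p.1.fst = v) (fun p => ?_) (fun hd => ?_)
    · show (S.nxt p).1.fst = v ↔ p.1.fst = v
      rw [S.nxt_fst]
    · refine Eq.trans ?_ (mem_orth.1 hx (Sum.inl v))
      refine Finset.sum_congr rfl fun r _ => ?_
      rw [inc_inl]
      by_cases hf : r.1.1.fst = v
      · rw [if_pos hf, if_pos hf]
      · rw [if_neg hf, if_neg hf]
  · intro f
    refine four_dvd S x (fun p => Quot.mk _ p = f) (fun p => ?_) (fun hd => ?_)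
    · show S.face (S.nxt p) = f ↔ S.face p = f
      rw [face_nxt]
    · refine Eq.trans ?_ (mem_orth.1 hx (Sum.inr f))
      refine Finset.sum_congr rfl fun r _ => ?_
      rw [inc_inr]
      by_cases hf : S.face r.1 = f
      · have hf' : (Quot.mk _ r.1 : S.Face) = f := hf
        rw [if_pos hf, if_pos hf']
      · have hf' : ¬ (Quot.mk _ r.1 : S.Face) = f := hf
        rw [if_neg hf, if_neg hf']

theorem null_of {x : S.Rep → F2} (h : NullSet S (flagsOf S x)) : x ∈ LinearMap.range (dl S) := by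
  obtain ⟨ε, hε, hX⟩ := h
  have hb : ∀ (d : G.Dart) (b b' : Bool), ε (d, b) = ε (d, b') := by
    intro d b b'
    have h1 : ε (d, !b) = ε (d, b) := (hε (d, b)).2
    cases b <;> cases b' <;> first | rfl | exact h1 | exact h1.symm
  have hpull : ∀ p : Flag G, pull (fun e : ERep G => ε (e.1, true)) p = ε p := by
    intro p
    show ε ((erep p.1).1, true) = ε p
    rcases erep_eq p.1 with h1 | h1
    · rw [h1]
      exact hb p.1 true p.2
    · rw [h1]
      have h2 : ε (p.1.symm, !p.2) = ε p := (hε p).1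
      rw [hb p.1.symm true (!p.2), h2]
  refine ⟨fun e => ε (e.1, true), ?_⟩
  funext r
  show pull (fun e : ERep G => ε (e.1, true)) r.1 + pull (fun e : ERep G => ε (e.1, true)) (S.nxt r.1)
    = x r
  rw [hpull, hpull]
  have h1 : x r = 1 ↔ ε (S.nxt r.1) ≠ ε r.1 := by
    have h2 : r.1 ∈ flagsOf S x ↔ r.1 ∈ {p | ε (S.nxt p) ≠ ε p} := by rw [hX]
    have h3 : r.1 ∈ flagsOf S x ↔ x r = 1 := by
      show x (S.rep r.1) = 1 ↔ x r = 1
      rw [rep_rep]
    rw [← h3, h2]
    rfl
  have d1 : ∀ a b : ZMod 2, b ≠ a → a + b = 1 := by decide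
  have d2 : ∀ a : ZMod 2, a + a = 0 := by decide
  have d3 : ∀ a : ZMod 2, a ≠ 1 → a = 0 := by decide
  by_cases hx : x r = 1
  · rw [hx]
    exact d1 _ _ (h1.1 hx)
  · have h4 : ε (S.nxt r.1) = ε r.1 := by
      by_contra hne
      exact hx (h1.2 hne)
    rw [d3 _ hx, h4]
    exact d2 _

end Pool.Agent.EXG
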