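import Pool.Agent.EXG.GpA

/-!
# EXG-GpA2 (theorems `met_of`, `symm_of`, `width_rep`): sets of flags and functions on the corners

PLAN. `p ∈ flagsOf S x` iff `x (S.rep p) = 1`; `S.rep (S.nxt p) = S.rep p`, `S.rep r.1 = r` (`rep_nxt`, `rep_rep`).
`closed_of`: the number of the flags of `flagsOf S x` with `p.1.fst = v` is `2 * (univ.filter fun r : S.Rep => x r = 1 ∧
r.1.1.fst = v).card` (`sum_rep` for the indicator with values in `ℕ`, as in `card_badFlags`, Helper35/OG/Lower; `S.nxt_fst`), and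
the number of these corners is even because its cast to `F2` is `∑ r, x r * (if r.1.1.fst = v then 1 else 0) = 0`
(`x ∈ orth (inc S)` at `Sum.inl v`; `ZMod.natCast_eq_zero_iff_even`). Same for a face (`Sum.inr f`, `face_nxt`;
`Quot.mk _ p = f` is `S.face p = f` by `rfl`).
`null_of`: let `ε` be the function of `NullSet`; it is invariant under `side` and `across`, so `ε p = ε (erep p.1, true)`; put
`ε' e = ε (e.1, true)` (`e : ERep G`): `pull ε' p = ε p` (for `p = (x, s)` the representative is `x` or `x.symm`: `erep_eq`;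
`ε (x.symm, _) = ε (x, _)` by `across`, `side`). For `r : S.Rep`: `x r = 1` iff `r.1 ∈ flagsOf S x` iff `ε (nxt r.1) ≠ ε r.1` iff
`dl S ε' r = 1`. So `x = dl S ε'`.
`met_of`: `facesMet S (flagsOf S x) = nf S x`: a face `f` has a flag `p` with `x (S.rep p) = 1` iff it has a corner `r` with
`x r ≠ 0` (`r = S.rep p`, `inv_rep S S.face (face_nxt S)`; conversely `p = r.1`); `Nat.card` of a subtype of a finite type as the
card of a filter.
`symm_of`: `x + y + bad S κ = dl S ε`; put `κ' p = κ p + pull ε p` (a band orientation, see `lower_bounds` in Helper58/OG/Lw), so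
`bad S κ' = bad S κ + dl S ε = x + y` (characteristic 2). For a flag `p`: `p ∈ S.badFlags κ'` iff `κ' (nxt p) = κ' p` iff
`bad S κ' (S.rep p) = 1` (`bad_eq_one`, `rep_eq`) iff exactly one of `x (S.rep p)`, `y (S.rep p)` is 1.
`width_rep`: `x + bad S κ = dl S ε`, the same `κ'` has `bad S κ' = x`, so `badFaces S κ' = {f | ∃ r, ..}` has `nf S x` elements;
`Nat.sInf_le`.
-/

set_option autoImplicit false

open Finset

namespace Pool.Agent.EXG

open Pool.Agent.Helper35.OG Pool.Agent.Helper58.OG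

variable {V : Type} [Fintype V] [DecidableEq V] {G : SimpleGraph V} [DecidableRel G.Adj]
variable (S : GMap G)

private theorem key {x : S.Rep → F2} {κ : Flag G → F2} (hκ : IsBand κ) (h : x + bad S κ ∈ LinearMap.range (dl S)) :
    ∃ κ' : Flag G → F2, IsBand κ' ∧ ∀ r : S.Rep, bad S κ' r = x r := by
  obtain ⟨ε, hε⟩ := h
  refine ⟨fun p => κ p + pull ε p, ?_, ?_⟩
  · intro p
    constructor
    · intro h
      have h2 : κ (across p) + pull ε (across p) = κ p + pull ε p := h
      rw [pull_across] at h2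
      exact (hκ p).1 (add_right_cancel h2)
    · intro h
      have h2 : κ (side p) + pull ε (side p) = κ p + pull ε p := h
      rw [pull_side] at h2
      exact (hκ p).2 (add_right_cancel h2)
  · intro r
    have h2 : pull ε r.1 + pull ε (S.nxt r.1) = x r + bad S κ r := congrFun hε r
    show 1 + (κ r.1 + pull ε r.1) + (κ (S.nxt r.1) + pull ε (S.nxt r.1)) = x r
    calc 1 + (κ r.1 + pull ε r.1) + (κ (S.nxt r.1) + pull ε (S.nxt r.1)) =
        bad S κ r + (pull ε r.1 + pull ε (S.nxt r.1)) := by unfold bad; ring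
      _ = x r + (bad S κ r + bad S κ r) := by rw [h2]; ring
      _ = x r := by rw [f2_add_self, add_zero]

private theorem badFlag_iff (κ : Flag G → F2) (p : Flag G) : κ (S.nxt p) = κ p ↔ bad S κ (S.rep p) = 1 := by
  rw [bad_eq_one]
  rcases rep_eq S p with h | h
  · rw [h]
  · rw [h, S.nxt_nxt]
    exact eq_comm

private theorem f2_ne_zero {x : F2} : x ≠ 0 ↔ x = 1 := by
  rcases f2_cases x with h | h <;> rw [h] <;> decide

private theorem f2_symm {x y : F2} : x + y = 1 ↔ (x = 1 ∧ ¬ y = 1) ∨ (y = 1 ∧ ¬ x = 1) := by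
  rcases f2_cases x with h | h <;> rcases f2_cases y with h' | h' <;> rw [h, h'] <;> decide

theorem met_of (x : S.Rep → F2) : facesMet S (flagsOf S x) = nf S x := by
  classical
  unfold facesMet nf
  have h2 : {f : S.Face | ∃ p ∈ flagsOf S x, Quot.mk _ p = f} =
      ↑(Finset.univ.filter fun f : S.Face => ∃ r : S.Rep, S.face r.1 = f ∧ x r ≠ 0) := by
    ext f
    rw [Finset.coe_filter]
    constructor
    · rintro ⟨p, hp, hf⟩
      refine ⟨Finset.mem_univ _, S.rep p, ?_, ?_⟩
      · rw [inv_rep S S.face (face_nxt S) p]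
        exact hf
      · exact f2_ne_zero.2 hp
    · rintro ⟨_, r, hr, hx⟩
      refine ⟨r.1, ?_, hr⟩
      show x (S.rep r.1) = 1
      rw [rep_rep]
      exact f2_ne_zero.1 hx
  have h3 : Nat.card {f : S.Face // ∃ p ∈ flagsOf S x, Quot.mk _ p = f} =
      Set.ncard {f : S.Face | ∃ p ∈ flagsOf S x, Quot.mk _ p = f} := rfl
  rw [h3, h2, Set.ncard_coe_finset]

theorem symm_of {x y : S.Rep → F2} {κ : Flag G → F2} (hκ : IsBand κ)
    (h : x + y + bad S κ ∈ LinearMap.range (dl S)) :
    ∃ κ' : Flag G → F2, IsBand κ' ∧ symmDiff (flagsOf S x) (flagsOf S y) = S.badFlags κ' := by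
  obtain ⟨κ', h1, h2⟩ := key S hκ h
  refine ⟨κ', h1, ?_⟩
  ext p
  have h3 : p ∈ S.badFlags κ' ↔ x (S.rep p) + y (S.rep p) = 1 := by
    show κ' (S.nxt p) = κ' p ↔ _
    rw [badFlag_iff, h2]
    rfl
  rw [h3, f2_symm, Set.mem_symmDiff]
  rfl

theorem width_rep {x : S.Rep → F2} {κ : Flag G → F2} (hκ : IsBand κ) (h : x + bad S κ ∈ LinearMap.range (dl S)) :
    faceDefect S ≤ nf S x := by
  classical
  obtain ⟨κ', h1, h2⟩ := key S hκ h
  refine Nat.sInf_le ⟨κ', h1, ?_⟩
  rw [← met_of]
  have h3 : badFaces S κ' = {f : S.Face | ∃ p ∈ flagsOf S x, Quot.mk _ p = f} := by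
    ext f
    constructor
    · rintro ⟨p, hp, hf⟩
      refine ⟨p, ?_, hp⟩
      show x (S.rep p) = 1
      rw [← h2, ← badFlag_iff]
      exact hf
    · rintro ⟨p, hp, hf⟩
      refine ⟨p, hf, ?_⟩
      rw [badFlag_iff, h2]
      exact hp
  rw [h3]
  rfl

end Pool.Agent.EXG
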