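import Pool.Agent.EXG.GpA2

/-!
# EXG-GpB (theorems `gap_rep`, `bad_orth`, `small_null`): the gap condition for functions on the corners

PLAN. `gap_rep`: by GpA.
`finrank_hom`: as in the proof of `finrank_cls` (Helper35/OG/Dims): `h2`, `f`, `h3`, `h5`, ... with `orth (inc S)` itself.
`gap_one`: the hypotheses of `GapRep` are contradictory if `S.eg = 1`: `x`, `y` are in `orth (inc S)` and not in the range of `dl`,
so their images in `(orth (inc S)).map mkQ`, of dimension `≤ 1`, are nonzero and hence equal (a space of dimension `≤ 1` over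
`F2`: `finrank_le_one_iff` / `finrank_eq_one_iff'`), so `x + y ∈ range (dl S)` (characteristic 2) and
`bad S κ ∈ range (dl S)`, contradicting `bad_notMem` (Dual).
`bad_orth`: `bad S κ ∈ orth (inc S)`: at a face `bad_face`; at a vertex `v`: as in `bad_face` with `wt κ (fun p => if p.1.fst = v then 1
else 0) = 0` (`wt_zero side ..`) and `wt_corner`.
`small_null`: suppose `x ∉ range (dl S)`. Take a band orientation `κ` with `Nat.card (badFaces S κ) = faceDefect S` (`Nat.sInf_mem`,
`exists_band`), so `nf S (bad S κ) = faceDefect S` (a face is in `badFaces S κ` iff it has a corner `r` with `bad S κ r = 1`). If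
`x + bad S κ ∈ range (dl S)` then `width_rep` gives `3 ≤ faceDefect S ≤ nf S x ≤ 2`, contradiction. Otherwise `y = x + bad S κ`
is in `orth (inc S)`, not in the range, and `x + y + bad S κ = 0` is in the range (characteristic 2), so
`faceDefect S + 5 ≤ nf S x + nf S y ≤ 2 + (2 + faceDefect S)` (`nf (x + z) ≤ nf x + nf z`), contradiction.
-/

set_option autoImplicit false

open Finset

namespace Pool.Agent.EXG

open Pool.Agent.Helper35.OG Pool.Agent.Helper58.OG

variable {V : Type} [Fintype V] [DecidableEq V] {G : SimpleGraph V} [DecidableRel G.Adj]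
variable (S : GMap G)

/-- The gap condition for functions on the corners. -/
def GapRep (n : ℤ) : Prop :=
  ∀ x ∈ orth (inc S), ∀ y ∈ orth (inc S), x ∉ LinearMap.range (dl S) → y ∉ LinearMap.range (dl S) →
    ∀ κ : Flag G → F2, IsBand κ → x + y + bad S κ ∈ LinearMap.range (dl S) → n ≤ (nf S x : ℤ) + nf S y

theorem gap_rep {n : ℤ} (h : SplitWidth S n) : GapRep S n := by
  intro x hx y hy hx0 hy0 κ hκ hmem
  have key := h (flagsOf S x) (flagsOf S y) (closed_of S hx) (closed_of S hy)
    (fun hn => hx0 (null_of S hn)) (fun hn => hy0 (null_of S hn)) (symm_of S hκ hmem)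
  rw [met_of, met_of] at key
  exact key

/-- every vertex has an even number of bad corners -/
private theorem bad_vertex {κ : Flag G → F2} (hκ : IsBand κ) (v : V) :
    ∑ r : S.Rep, bad S κ r * (if r.1.1.fst = v then 1 else 0) = 0 := by
  have h1 : wt κ (fun p => if p.1.fst = v then 1 else 0) = 0 := by
    apply wt_zero side side_side (fun p => (hκ p).2)
    intro p
    rw [side_fst]
  unfold wt at h1
  rw [sum_rep S] at h1
  choose z hz1 hz2 using wt_corner S κ
  have h2 : ∑ r : S.Rep, z r * (if r.1.1.fst = v then 1 else 0) = 0 := by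
    have h3 : 2 * ∑ r : S.Rep, z r * (if r.1.1.fst = v then 1 else 0) = 0 := by
      refine Eq.trans ?_ h1
      rw [Finset.mul_sum]
      apply Finset.sum_congr rfl
      intro r _
      show 2 * (z r * (if r.1.1.fst = v then 1 else 0)) =
        (if (if r.1.1.fst = v then (1 : F2) else 0) = 1 then sg κ r.1 else 0) +
        (if (if (S.nxt r.1).1.fst = v then (1 : F2) else 0) = 1 then sg κ (S.nxt r.1) else 0)
      rw [S.nxt_fst]
      by_cases h : r.1.1.fst = v
      · rw [if_pos h, if_pos h, if_pos rfl, if_pos rfl, hz1, mul_one]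
      · rw [if_neg h, if_neg h, if_neg zero_ne_one, if_neg zero_ne_one]; ring
    linarith
  have h4 := congrArg (Int.cast : ℤ → F2) h2
  push_cast at h4
  refine Eq.trans ?_ h4
  apply Finset.sum_congr rfl
  intro r _
  rw [hz2]

theorem bad_orth {κ : Flag G → F2} (hκ : IsBand κ) : bad S κ ∈ orth (inc S) := by
  rw [mem_orth]
  rintro (v | f)
  · exact bad_vertex S hκ v
  · exact bad_face S hκ f

private theorem nf_add (x z : S.Rep → F2) : nf S (x + z) ≤ nf S x + nf S z := by
  unfold nf
  refine le_trans (Finset.card_le_card ?_) (Finset.card_union_le _ _)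
  intro f hf
  rw [Finset.mem_filter] at hf
  obtain ⟨_, r, hr, hr'⟩ := hf
  rw [Finset.mem_union, Finset.mem_filter, Finset.mem_filter]
  by_cases h : x r = 0
  · right
    refine ⟨Finset.mem_univ _, r, hr, ?_⟩
    intro hz
    apply hr'
    rw [Pi.add_apply, h, hz, add_zero]
  · left
    exact ⟨Finset.mem_univ _, r, hr, h⟩

private theorem nf_bad (κ : Flag G → F2) : nf S (bad S κ) = Nat.card (badFaces S κ) := by
  have h1 : badFaces S κ = ↑(Finset.univ.filter fun f : S.Face =>
      ∃ r : S.Rep, S.face r.1 = f ∧ bad S κ r ≠ 0) := by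
    ext f
    rw [Finset.mem_coe, Finset.mem_filter]
    constructor
    · rintro ⟨p, hp, hp'⟩
      refine ⟨Finset.mem_univ _, S.rep p, ?_, ?_⟩
      · rw [inv_rep S S.face (face_nxt S) p]
        exact hp
      · have h3 : κ (S.nxt (S.rep p).1) = κ (S.rep p).1 := by
          rcases rep_eq S p with h | h
          · rw [h]; exact hp'
          · rw [h, S.nxt_nxt]; exact hp'.symm
        rw [(bad_eq_one S).2 h3]
        exact one_ne_zero
    · rintro ⟨_, r, hr, hr'⟩
      refine ⟨r.1, hr, ?_⟩
      rcases f2_cases (bad S κ r) with h | h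
      · exact absurd h hr'
      · exact (bad_eq_one S).1 h
  rw [Nat.card_coe_set_eq, h1, Set.ncard_coe_finset]
  rfl

theorem small_null {n : ℤ} (hgap : GapRep S n) (hn : (faceDefect S : ℤ) + 5 ≤ n) (h3 : 3 ≤ faceDefect S)
    {x : S.Rep → F2} (hx : x ∈ orth (inc S)) (h2 : nf S x ≤ 2) : x ∈ LinearMap.range (dl S) := by
  by_contra hx0
  obtain ⟨κ0, hκ0⟩ := exists_band (G := G)
  have hne : {n | ∃ κ : Flag G → F2, IsBand κ ∧ Nat.card (badFaces S κ) = n}.Nonempty :=
    ⟨_, κ0, hκ0, rfl⟩
  obtain ⟨κ, hκ, hκn⟩ := Nat.sInf_mem hne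
  have hfd : nf S (bad S κ) = faceDefect S := by
    rw [nf_bad, hκn]
    rfl
  by_cases h : x + bad S κ ∈ LinearMap.range (dl S)
  · have h4 := width_rep S hκ h
    omega
  · have hy : x + bad S κ ∈ orth (inc S) := Submodule.add_mem _ hx (bad_orth S hκ)
    have h0 : x + (x + bad S κ) + bad S κ = 0 := by
      funext r
      have e1 := f2_add_self (x r)
      have e2 := f2_add_self (bad S κ r)
      show x r + (x r + bad S κ r) + bad S κ r = 0
      linear_combination e1 + e2
    have h5 := hgap x hx (x + bad S κ) hy hx0 h κ hκ (by rw [h0]; exact Submodule.zero_mem _)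
    have h6 := nf_add S x (bad S κ)
    rw [hfd] at h6
    omega

end Pool.Agent.EXG
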