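import Pool.Agent.EXG.GpB
import Pool.Agent.EXG.Dual

/-!
# EXG-GpB2: the dimension of the homology, and the gap condition in Euler genus one
-/

set_option autoImplicit false

open Finset

namespace Pool.Agent.EXG

open Pool.Agent.Helper35.OG Pool.Agent.Helper58.OG

variable {V : Type} [Fintype V] [DecidableEq V] {G : SimpleGraph V} [DecidableRel G.Adj]
variable (S : GMap G)

theorem finrank_hom [Nontrivial V] (hG : G.Connected) :
    ((Module.finrank F2 ((orth (inc S)).map (LinearMap.range (dl S)).mkQ) : ℕ) : ℤ) ≤ S.eg := by
  let f := ((LinearMap.range (dl S)).mkQ).domRestrict (orth (inc S))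
  have h3 := LinearMap.finrank_range_add_finrank_ker f
  have h4 : LinearMap.range f = (orth (inc S)).map (LinearMap.range (dl S)).mkQ := LinearMap.range_domRestrict _ _
  have h5 : Module.finrank F2 (LinearMap.range (dl S)) ≤ Module.finrank F2 (LinearMap.ker f) := by
    let g : (LinearMap.range (dl S)) →ₗ[F2] LinearMap.ker f :=
      { toFun := fun x => ⟨⟨x.1, dl_le_orth S x.2⟩, by
          rw [LinearMap.mem_ker]
          show (LinearMap.range (dl S)).mkQ x.1 = 0
          rw [Submodule.mkQ_apply, Submodule.Quotient.mk_eq_zero]
          exact x.2⟩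
        map_add' := by intro x y; rfl
        map_smul' := by intro c x; rfl }
    apply LinearMap.finrank_le_finrank_of_injective (f := g)
    intro x y hxy
    have := congrArg (fun z => z.1.1) hxy
    exact Subtype.ext this
  rw [h4] at h3
  have h6 := finrank_dl S hG
  have h7 := finrank_orth_inc S hG
  have h8 := card_flag S
  have h9 : Fintype.card (Flag G) = 4 * Nat.card G.edgeSet := by
    rw [Fintype.card_prod, Fintype.card_bool, G.dart_card_eq_twice_card_edges, Nat.card_eq_fintype_card,
      ← SimpleGraph.edgeFinset_card]
    ring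
  unfold GMap.eg
  omega

theorem gap_one [Nontrivial V] (hG : G.Connected) (hS : ¬ S.Orientable) (h1 : S.eg = 1) (n : ℤ) : GapRep S n := by
  intro x hx y hy hxn hyn κ hκ hsum
  exfalso
  have hd : Module.finrank F2 ((orth (inc S)).map (LinearMap.range (dl S)).mkQ) ≤ 1 := by
    have h := finrank_hom S hG
    rw [h1] at h
    exact_mod_cast h
  have key : (LinearMap.range (dl S)).mkQ x = (LinearMap.range (dl S)).mkQ y := by
    obtain ⟨v, hv⟩ := finrank_le_one_iff.mp hd
    obtain ⟨c, hc⟩ := hv ⟨(LinearMap.range (dl S)).mkQ x, ⟨x, hx, rfl⟩⟩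
    obtain ⟨d, hd⟩ := hv ⟨(LinearMap.range (dl S)).mkQ y, ⟨y, hy, rfl⟩⟩
    have hc' : c • v.1 = (LinearMap.range (dl S)).mkQ x := congrArg Subtype.val hc
    have hd' : d • v.1 = (LinearMap.range (dl S)).mkQ y := congrArg Subtype.val hd
    have c1 : c = 1 := by
      rcases f2_cases c with h | h
      · exfalso
        apply hxn
        rw [h, zero_smul] at hc'
        rw [Submodule.mkQ_apply] at hc'
        exact (Submodule.Quotient.mk_eq_zero _).mp hc'.symm
      · exact h
    have d1 : d = 1 := by
      rcases f2_cases d with h | h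
      · exfalso
        apply hyn
        rw [h, zero_smul] at hd'
        rw [Submodule.mkQ_apply] at hd'
        exact (Submodule.Quotient.mk_eq_zero _).mp hd'.symm
      · exact h
    rw [← hc', ← hd', c1, d1]
  rw [Submodule.mkQ_apply, Submodule.mkQ_apply, Submodule.Quotient.eq] at key
  have hxy : x + y ∈ LinearMap.range (dl S) := by
    have e : x + y = x - y := by
      funext r
      show x r + y r = x r - y r
      have := f2_add_self (y r)
      linear_combination this
    rw [e]
    exact key
  exact bad_notMem S hS hκ ((Submodule.add_mem_iff_right _ hxy).mp hsum)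

end Pool.Agent.EXG
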