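import Pool.Agent.EXG.Base

/-!
# EXG-Hf: the form of a pair of maps as a sum over the arcs
-/

set_option autoImplicit false

open Finset

namespace Pool.Agent.EXG

open Pool.Agent.Helper35.OG Pool.Agent.Helper58.OG

variable {V : Type} [Fintype V] [DecidableEq V] {G : SimpleGraph V} [DecidableRel G.Adj]
variable (S T : GMap G)

private theorem hf_expand {P : Flag G → F2} (hP : NInv S P) :
    P = fun p => ∑ r : S.Rep, P r.1 * cor S r p := by
  funext p
  unfold cor
  simp only [mul_ite, mul_one, mul_zero]
  rw [Finset.sum_ite_eq, if_pos (Finset.mem_univ _)]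
  exact (inv_rep S P hP p).symm

theorem hf_arcs {P Q : Flag G → F2} (hP : NInv S P) (hQ : NInv S Q) :
    hf T P Q = ∑ j : Arc S T, xx S T P j * xx S T Q j := by
  have h1 : hf T P Q = ∑ r : S.Rep, ∑ s : S.Rep, be S T r s * (P r.1 * Q s.1) := by
    have eP := hf_expand S hP
    have eQ := hf_expand S hQ
    have h2 : hf T P Q = hf T (fun p => ∑ r : S.Rep, P r.1 * cor S r p) Q := by rw [← eP]
    rw [h2, hf_sum_left S T Finset.univ _ _ (fun i _ => cor_inv S i) hQ]
    apply Finset.sum_congr rfl
    intro r _
    have h3 : hf T (cor S r) Q = hf T (cor S r) (fun p => ∑ s : S.Rep, Q s.1 * cor S s p) := by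
      rw [← eQ]
    rw [h3, hf_sum_right, Finset.mul_sum]
    apply Finset.sum_congr rfl
    intro s _
    unfold be
    ring
  have h2 : ∑ j : Arc S T, xx S T P j * xx S T Q j =
      ∑ q : Arc S T, ((fun r s : S.Rep => P r.1 * Q r.1 + P r.1 * Q s.1) (a0 S T q) (b0 S T q) +
        (fun r s : S.Rep => P r.1 * Q r.1 + P r.1 * Q s.1) (b0 S T q) (a0 S T q)) := by
    apply Finset.sum_congr rfl
    intro q _
    show (P (a0 S T q).1 + P (b0 S T q).1) * (Q (a0 S T q).1 + Q (b0 S T q).1) =
      P (a0 S T q).1 * Q (a0 S T q).1 + P (a0 S T q).1 * Q (b0 S T q).1 +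
      (P (b0 S T q).1 * Q (b0 S T q).1 + P (b0 S T q).1 * Q (a0 S T q).1)
    ring
  rw [h2, sum_arc S T (fun r s => P r.1 * Q r.1 + P r.1 * Q s.1), h1]
  apply Finset.sum_congr rfl
  intro r _
  have h3 : ∀ s : S.Rep, (if r = s then 0 else be S T r s * (P r.1 * Q r.1 + P r.1 * Q s.1)) =
      be S T r s * (P r.1 * Q r.1) + be S T r s * (P r.1 * Q s.1) := by
    intro s
    by_cases hrs : r = s
    · rw [if_pos hrs, ← hrs, f2_add_self]
    · rw [if_neg hrs, mul_add]
  rw [Finset.sum_congr rfl (fun s _ => h3 s), Finset.sum_add_distrib, ← Finset.sum_mul, be_sum,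
    zero_mul, zero_add]

theorem pr_tt (u : Arc S T → F2) (P : Flag G → F2) : pr S (tt S T u) P = ∑ j, u j * xx S T P j := by
  unfold pr
  show ∑ r : S.Rep, (∑ e : Arc S T, u e * ((if a0 S T e = r then 1 else 0) +
    (if b0 S T e = r then 1 else 0))) * P r.1 = ∑ j, u j * (P (a0 S T j).1 + P (b0 S T j).1)
  simp only [Finset.sum_mul]
  rw [Finset.sum_comm]
  apply Finset.sum_congr rfl
  intro e _
  simp only [mul_assoc]
  rw [← Finset.mul_sum]
  congr 1
  simp only [add_mul, ite_mul, one_mul, zero_mul, Finset.sum_add_distrib, Finset.sum_ite_eq,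
    Finset.mem_univ, if_true]

theorem pr_dl (ε : ERep G → F2) {P : Flag G → F2} (hP : Ch S P) : pr S (dl S ε) P = 0 := by
  have h1 : pr S (dl S ε) P = ∑ p : Flag G, pull ε p * P p := by
    rw [sum_rep S (fun p => pull ε p * P p)]
    unfold pr
    apply Finset.sum_congr rfl
    intro r _
    show (pull ε r.1 + pull ε (S.nxt r.1)) * P r.1 = pull ε r.1 * P r.1 + pull ε (S.nxt r.1) * P (S.nxt r.1)
    rw [hP.1 r.1, add_mul]
  rw [h1, Fintype.sum_prod_type]
  apply sum_inv (fun x : G.Dart => x.symm) (fun x => x.symm_symm) symm_ne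
  intro x
  rw [Fintype.sum_bool, Fintype.sum_bool]
  have h2 : P (x.symm, false) + P (x.symm, true) = P (x, true) + P (x, false) := hP.2 (x, true)
  show ε (erep x.symm) * P (x.symm, true) + ε (erep x.symm) * P (x.symm, false) =
    ε (erep x) * P (x, true) + ε (erep x) * P (x, false)
  rw [erep_symm, ← mul_add, ← mul_add, ← h2, add_comm (P (x.symm, false))]

theorem pr_add (x y : S.Rep → F2) (P : Flag G → F2) : pr S (x + y) P = pr S x P + pr S y P := by
  unfold pr
  rw [← Finset.sum_add_distrib]
  exact Finset.sum_congr rfl (fun r _ => by rw [Pi.add_apply, add_mul])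

theorem pr_range {x : S.Rep → F2} (hx : x ∈ LinearMap.range (dl S)) {P : Flag G → F2} (hP : Ch S P) : pr S x P = 0 := by
  obtain ⟨ε, rfl⟩ := hx
  exact pr_dl S ε hP

/-- the sum over an even set depends on its class only -/
theorem sum_cls {u u' : Arc S T → F2} (h : cls S T u = cls S T u') {P : Flag G → F2} (hP : Ch S P) :
    ∑ j, u j * xx S T P j = ∑ j, u' j * xx S T P j := by
  have h1 : tt S T u - tt S T u' ∈ LinearMap.range (dl S) := by
    rw [← Submodule.Quotient.eq]
    exact h
  have h2 : tt S T u = (tt S T u - tt S T u') + tt S T u' := by rw [sub_add_cancel]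
  rw [← pr_tt, ← pr_tt, h2, pr_add, pr_range S h1 hP, zero_add]

theorem xx_fac (A : S.Face → F2) (j : Arc S T) :
    xx S T (fun p => A (S.face p)) j = A (fa S T j) + A (fb S T j) := rfl

theorem ch_fac (A : S.Face → F2) : Ch S (fun p => A (S.face p)) := by
  constructor
  · intro p
    show A (S.face (S.nxt p)) = A (S.face p)
    rw [face_nxt]
  · intro p
    have h : side (across p) = across (side p) := rfl
    show A (S.face (across p)) + A (S.face (side (across p))) = A (S.face p) + A (S.face (side p))
    rw [h, face_across, face_across]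

theorem ch_vtx (D : V → F2) : Ch S (fun p => D p.1.fst) := by
  constructor
  · intro p
    show D (S.nxt p).1.fst = D p.1.fst
    rw [S.nxt_fst]
  · intro p
    show D (across p).1.fst + D (side (across p)).1.fst = D p.1.fst + D (side p).1.fst
    rw [side_fst, side_fst, f2_add_self, f2_add_self]

theorem ch_add {P Q : Flag G → F2} (hP : Ch S P) (hQ : Ch S Q) : Ch S (fun p => P p + Q p) := by
  constructor
  · intro p
    show P (S.nxt p) + Q (S.nxt p) = P p + Q p
    rw [hP.1 p, hQ.1 p]
  · intro p
    show P (across p) + Q (across p) + (P (side (across p)) + Q (side (across p))) =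
      P p + Q p + (P (side p) + Q (side p))
    have h1 := hP.2 p
    have h2 := hQ.2 p
    calc P (across p) + Q (across p) + (P (side (across p)) + Q (side (across p))) =
        (P (across p) + P (side (across p))) + (Q (across p) + Q (side (across p))) := by ring
      _ = (P p + P (side p)) + (Q p + Q (side p)) := by rw [h1, h2]
      _ = _ := by ring

end Pool.Agent.EXG
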