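import Pool.Agent.EXG.CStr

/-!
# EXG-MinC: a smallest even set of class `ω` is an induced circuit

PLAN. For an even set `D`: `(vts D).card ≤ D.card` (`sum_dg_vts`, `two_le_dg`). Let `C` be of smallest cardinality among the
even subsets of `lam` of class `ω` (`Set.exists_min_image`; `mu` is one); `C.card ≤ mu.card`, `C` is nonempty as `ω ≠ 0`.
* Circuit (`U = ∅`; `EvenOff a b ∅ D` is `bd a b (ind D) = 0`): let `D ⊆ C` be even, `D ≠ ∅`, `D ≠ C`. `c D + c (C \ D) = ω`
  (`ind_sdiff`). If `c D = 0` then `C \ D` has class `ω` and is smaller; if `c (C \ D) = 0` then `D` has class `ω` and is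
  smaller; otherwise `W2` gives `Ng ≤ D.card + (C \ D).card = C.card ≤ mu.card`, contradicting `hcard`.
* `circ_str` with `U = ∅` (the second case is impossible: no end in `∅`): `(vts C).card = C.card`.
* `N ≤ C.card`: `W1`.
* Induced: let `e ∈ lam`, `e ∉ C`, with both ends `u = a e`, `v = b e` in `vts C` (`u ≠ v` by `Simp`). `circ_pair`: `D ⊆ C` with
  boundary `u + v`. `D' = C \ D` has the same boundary. `D ≠ ∅` (boundary nonzero at `u`), and `D.card ≠ 1` (if `D = {e'}` then
  `par a b e e'` by the boundary, so `e = e' ∈ C`); the same for `D'`. So `D.card ≥ 2`, `D'.card ≥ 2`, and the even sets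
  `insert e D`, `insert e D'` have `D.card + 1 < C.card`, `D'.card + 1 < C.card` elements; their classes have sum
  `c C + 2 c e = ω`. If one of the classes is `0` the other is `ω`, contradicting the minimality; otherwise `W2` gives
  `Ng ≤ D.card + 1 + D'.card + 1 = C.card + 2 ≤ mu.card + 2`, contradicting `hcard`. (In characteristic 2: `h + h = 0` in `H`
  since `H` is a module over `F2`: `(2 : F2) • h = 0`.)
-/

set_option autoImplicit false

open Finset

namespace Pool.Agent.EXG

open Pool.Agent.Helper35.OG Pool.Agent.Helper58.OG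

variable {X E : Type} [Fintype X] [DecidableEq X] [Fintype E] [DecidableEq E] (a b : E → X)
variable {H : Type} [AddCommGroup H] [Module F2 H] (c : (E → F2) →ₗ[F2] H)

theorem vts_card_le {D : Finset E} (h : bd a b (ind D) = 0) : (vts a b D).card ≤ D.card := by
  have h1 := sum_dg_vts a b D
  have h2 : ∑ v ∈ vts a b D, 2 ≤ ∑ v ∈ vts a b D, dg a b D v := Finset.sum_le_sum fun v hv => two_le_dg a b h hv
  rw [Finset.sum_const, smul_eq_mul] at h2
  omega

private theorem h_add (x : H) : x + x = 0 := by
  rw [← two_smul F2 x]
  have : (2 : F2) = 0 := by decide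
  rw [this, zero_smul]

private theorem ind_ins {D : Finset E} {e : E} (he : e ∉ D) : ind (insert e D) = Pi.single e 1 + ind D := by
  funext x
  rw [Pi.add_apply]
  unfold ind
  by_cases hx : x = e
  · subst hx
    simp [he]
  · simp [hx]

private theorem bd_ins {D : Finset E} {e : E} (he : e ∉ D)
    (hb : ∀ x, bd a b (ind D) x = (if x = a e then 1 else 0) + (if x = b e then 1 else 0)) :
    bd a b (ind (insert e D)) = 0 := by
  rw [ind_ins he, map_add]
  funext x
  rw [Pi.add_apply, bd_single, hb x]
  have e1 : (if a e = x then (1 : F2) else 0) = if x = a e then 1 else 0 := if_congr eq_comm rfl rfl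
  have e2 : (if b e = x then (1 : F2) else 0) = if x = b e then 1 else 0 := if_congr eq_comm rfl rfl
  rw [e1, e2]
  exact f2_add_self _

private theorem two_le {lam D : Finset E} (hs : Simp a b lam) (hD : D ⊆ lam) {e : E} (hel : e ∈ lam) (he : e ∉ D)
    (hb : ∀ x, bd a b (ind D) x = (if x = a e then 1 else 0) + (if x = b e then 1 else 0)) : 2 ≤ D.card := by
  have hne : a e ≠ b e := hs.1 e hel
  have h0 : D.card ≠ 0 := by
    intro h0
    rw [Finset.card_eq_zero] at h0
    have h1 := hb (a e)
    rw [if_pos rfl, if_neg hne, h0] at h1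
    have h2 : ind (∅ : Finset E) = 0 := by
      funext x
      simp [ind]
    rw [h2, map_zero, Pi.zero_apply, add_zero] at h1
    exact zero_ne_one h1
  have h1 : D.card ≠ 1 := by
    intro h1
    obtain ⟨e', he'⟩ := Finset.card_eq_one.1 h1
    have h2 : ind D = Pi.single e' 1 := by
      funext x
      rw [he']
      unfold ind
      by_cases hx : x = e'
      · subst hx; simp
      · simp [hx]
    have hb' : ∀ x, (if a e' = x then (1 : F2) else 0) + (if b e' = x then 1 else 0) =
        (if x = a e then 1 else 0) + (if x = b e then 1 else 0) := by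
      intro x
      rw [← bd_single, ← h2, hb]
    have hpar : par a b e e' := by
      have hu := hb' (a e)
      have hv := hb' (b e)
      rw [if_pos rfl, if_neg hne] at hu
      rw [if_neg hne.symm, if_pos rfl] at hv
      by_cases h3 : a e' = a e
      · left
        refine ⟨h3.symm, ?_⟩
        by_contra h4
        rw [if_neg (fun h => hne (h3.symm.trans h)), if_neg (fun h => h4 h.symm)] at hv
        revert hv
        decide
      · right
        have h4 : b e' = a e := by
          by_contra h4
          rw [if_neg h3, if_neg h4] at hu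
          revert hu
          decide
        refine ⟨h4.symm, ?_⟩
        by_contra h5
        rw [if_neg (fun h => h5 h.symm), if_neg (fun h => hne (h4.symm.trans h))] at hv
        revert hv
        decide
    have : e = e' := hs.2 e hel e' (hD (by rw [he']; exact Finset.mem_singleton_self _)) hpar
    exact he (by rw [he', this]; exact Finset.mem_singleton_self _)
  omega

theorem minC {lam : Finset E} (hs : Simp a b lam) {ω : H} (hω : ω ≠ 0) {N Ng : ℕ} (h1 : W1 a b c lam ω N)
    (h2 : W2 a b c lam ω Ng) {mu : Finset E} (hmu : mu ⊆ lam) (hmu0 : bd a b (ind mu) = 0) (hmuc : c (ind mu) = ω)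
    (hcard : mu.card + 2 < Ng) :
    ∃ C ⊆ lam, Circ a b ∅ C ∧ c (ind C) = ω ∧ N ≤ C.card ∧ C.card ≤ mu.card ∧ (vts a b C).card = C.card ∧
      ∀ e ∈ lam, a e ∈ vts a b C → b e ∈ vts a b C → e ∈ C := by
  classical
  obtain ⟨C, hC, hmin⟩ := Finset.exists_min_image (lam.powerset.filter fun D => bd a b (ind D) = 0 ∧ c (ind D) = ω)
    Finset.card ⟨mu, by simp [hmu, hmu0, hmuc]⟩
  rw [Finset.mem_filter, Finset.mem_powerset] at hC
  obtain ⟨hCl, hC0, hCc⟩ := hC
  have hmin' : ∀ D ⊆ lam, bd a b (ind D) = 0 → c (ind D) = ω → C.card ≤ D.card := by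
    intro D hD hD0 hDc
    exact hmin D (by rw [Finset.mem_filter, Finset.mem_powerset]; exact ⟨hD, hD0, hDc⟩)
  have hCmu : C.card ≤ mu.card := hmin' mu hmu hmu0 hmuc
  have hCne : C.Nonempty := by
    rw [Finset.nonempty_iff_ne_empty]
    intro h
    apply hω
    rw [← hCc, h]
    have h2 : ind (∅ : Finset E) = 0 := by
      funext x
      simp [ind]
    rw [h2, map_zero]
  have hcirc : Circ a b ∅ C := by
    refine ⟨hCne, fun v _ => by rw [hC0]; rfl, ?_⟩
    intro D hD hDe
    have hD0 : bd a b (ind D) = 0 := by
      funext v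
      exact hDe v (by simp)
    by_contra hcon
    push Not at hcon
    obtain ⟨hDn, hDC⟩ := hcon
    have hD' : bd a b (ind (C \ D)) = 0 := by
      rw [ind_sdiff hD, map_add, hC0, hD0, add_zero]
    have hDc' : c (ind (C \ D)) = ω + c (ind D) := by
      rw [ind_sdiff hD, map_add, hCc]
    have hcd : (C \ D).card = C.card - D.card := Finset.card_sdiff_of_subset hD
    have hDle : D.card ≤ C.card := Finset.card_le_card hD
    have hDpos : 0 < D.card := Finset.card_pos.2 hDn
    by_cases k1 : c (ind D) = 0
    · have := hmin' (C \ D) (Finset.sdiff_subset.trans hCl) hD' (by rw [hDc', k1, add_zero])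
      omega
    · by_cases k2 : c (ind (C \ D)) = 0
      · have h3 : c (ind D) = ω := by
          have h4 : ω + c (ind D) = 0 := by rw [← hDc', k2]
          calc c (ind D) = (ω + ω) + c (ind D) := by rw [h_add, zero_add]
            _ = ω + (ω + c (ind D)) := by abel
            _ = ω := by rw [h4, add_zero]
        have := hmin' D (hD.trans hCl) hD0 h3
        exact hDC (Finset.eq_of_subset_of_card_le hD this)
      · have h3 := h2 D (hD.trans hCl) (C \ D) (Finset.sdiff_subset.trans hCl) hD0 hD' k1 k2 (by
          rw [hDc']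
          calc c (ind D) + (ω + c (ind D)) = ω + (c (ind D) + c (ind D)) := by abel
            _ = ω := by rw [h_add, add_zero])
        have h4 := vts_card_le a b hD0
        have h5 := vts_card_le a b hD'
        omega
  have hv : (vts a b C).card = C.card := by
    rcases circ_str a b hcirc with h3 | h3
    · simpa using h3.1
    · obtain ⟨e, -, he⟩ := h3.2.1
      simp at he
  refine ⟨C, hCl, hcirc, hCc, ?_, hCmu, hv, ?_⟩
  · rw [← hv]
    exact h1 C hCl hC0 hCc
  · intro e hel hea heb
    by_contra heC
    obtain ⟨D, hDC, hDb⟩ := circ_pair a b hcirc (a e) (by simpa using hea) (b e) (by simpa using heb)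
    have hDb' : ∀ x, bd a b (ind D) x = (if x = a e then 1 else 0) + (if x = b e then 1 else 0) :=
      fun x => hDb x (by simp)
    have hD'b : ∀ x, bd a b (ind (C \ D)) x = (if x = a e then 1 else 0) + (if x = b e then 1 else 0) := by
      intro x
      rw [ind_sdiff hDC, map_add, hC0, zero_add, hDb']
    have heD : e ∉ D := fun h => heC (hDC h)
    have heD' : e ∉ C \ D := fun h => heC (Finset.mem_sdiff.1 h).1
    have hDl : D ⊆ lam := hDC.trans hCl
    have hD'l : C \ D ⊆ lam := Finset.sdiff_subset.trans hCl
    have n1 := two_le a b hs hDl hel heD hDb'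
    have n2 := two_le a b hs hD'l hel heD' hD'b
    have hcd : (C \ D).card = C.card - D.card := Finset.card_sdiff_of_subset hDC
    have hDle : D.card ≤ C.card := Finset.card_le_card hDC
    have m1 : (insert e D).card = D.card + 1 := Finset.card_insert_of_notMem heD
    have m2 : (insert e (C \ D)).card = (C \ D).card + 1 := Finset.card_insert_of_notMem heD'
    have b1 := bd_ins a b heD hDb'
    have b2 := bd_ins a b heD' hD'b
    have l1 : insert e D ⊆ lam := Finset.insert_subset hel hDl
    have l2 : insert e (C \ D) ⊆ lam := Finset.insert_subset hel hD'l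
    have hsum : c (ind (insert e D)) + c (ind (insert e (C \ D))) = ω := by
      rw [ind_ins heD, ind_ins heD', ind_sdiff hDC, map_add, map_add, map_add, hCc]
      calc c (Pi.single e 1) + c (ind D) + (c (Pi.single e 1) + (ω + c (ind D)))
          = ω + (c (Pi.single e 1) + c (Pi.single e 1)) + (c (ind D) + c (ind D)) := by abel
        _ = ω := by rw [h_add, h_add, add_zero, add_zero]
    by_cases k1 : c (ind (insert e D)) = 0
    · rw [k1, zero_add] at hsum
      have := hmin' _ l2 b2 hsum
      omega
    · by_cases k2 : c (ind (insert e (C \ D))) = 0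
      · rw [k2, add_zero] at hsum
        have := hmin' _ l1 b1 hsum
        omega
      · have h3 := h2 _ l1 _ l2 b1 b2 k1 k2 hsum
        have h4 := vts_card_le a b b1
        have h5 := vts_card_le a b b2
        omega

end Pool.Agent.EXG
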