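import Pool.Agent.EXG.Cut

/-!
# EXG-NdgA: every cycle is the boundary of a chain

PLAN. `exists_chain`: let `y p = z (erep p.1)` (a `side`-invariant function on the flags with `∑ x : G.Dart with x.fst = v, y = 0`
for every `v`: split the darts by `sum_half`, `einc`). We need `Q` with `NInv S Q` and `Q p + Q (side p) = y p`. Same duality
argument as in `exists_lift` (Helper35/OG/Form.lean): `N = {L | NInv S L}`, `A L p = L p + L (side p)`. If `y ∉ N.map A` there is a
functional `f = ∑ p, · p * u p` vanishing on `N.map A` with `f y ≠ 0`; `z' p = u p + u (side p)` satisfies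
`∑ p, L p * z' p = 0` for `L ∈ N`, hence `z' (S.nxt q) = z' q`, and `z' (side q) = z' q`, so `z' p` depends on `p.1.fst` only
(`vertex_const`). As `y` is `side`-invariant, `f y = ∑ p, y p * u p = ∑ x : G.Dart, y (x, true) * z' (x, true) =
∑ v, z'(v) * ∑ x with x.fst = v, y (x, true) = 0` (`Fintype.sum_prod_type`, `Finset.sum_fiberwise`), contradiction.
`Cyc Q`: `Q (across p) + Q (side (across p)) = y (across p) = y p` (`erep_symm`).
-/

set_option autoImplicit false

open Finset

namespace Pool.Agent.EXG

open Pool.Agent.Helper35.OG Pool.Agent.Helper58.OG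

variable {V : Type} [Fintype V] [DecidableEq V] {G : SimpleGraph V} [DecidableRel G.Adj]
variable (S : GMap G)

theorem exists_chain (z : ERep G → F2) (hz : z ∈ orth (einc (G := G))) :
    ∃ Q, Ch S Q ∧ ∀ p, Q p + Q (side p) = z (erep p.1) := by
  classical
  let Y : Flag G → F2 := fun p => z (erep p.1)
  let N : Submodule F2 (Flag G → F2) :=
    { carrier := {L | NInv S L}
      add_mem' := by
        intro x y hx hy p
        rw [Pi.add_apply, Pi.add_apply, hx p, hy p]
      zero_mem' := by intro p; rfl
      smul_mem' := by
        intro r x hx p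
        rw [Pi.smul_apply, Pi.smul_apply, hx p] }
  let A : (Flag G → F2) →ₗ[F2] (Flag G → F2) :=
    { toFun := fun L p => L p + L (side p)
      map_add' := by
        intro x y
        funext p
        simp only [Pi.add_apply]
        ring
      map_smul' := by
        intro r x
        funext p
        simp only [Pi.smul_apply, smul_eq_mul, RingHom.id_apply]
        ring }
  by_cases hx : Y ∈ N.map A
  · obtain ⟨L, hL, hLA⟩ := hx
    have h1 : ∀ p, L p + L (side p) = z (erep p.1) := fun p => congrFun hLA p
    refine ⟨L, ⟨hL, ?_⟩, h1⟩
    intro p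
    rw [h1, h1]
    show z (erep p.1.symm) = z (erep p.1)
    rw [erep_symm]
  · exfalso
    obtain ⟨f, hf1, hf2⟩ := Submodule.exists_dual_map_eq_bot_of_notMem hx inferInstance
    let u : Flag G → F2 := fun p => f (fun j => if p = j then 1 else 0)
    have hfy : ∀ w, f w = ∑ p, w p * u p := by
      intro w
      rw [LinearMap.pi_apply_eq_sum_univ f w]
      rfl
    let t : Flag G → F2 := fun p => u p + u (side p)
    have hAz : ∀ L, f (A L) = ∑ p, L p * t p := by
      intro L
      rw [hfy]
      show ∑ p, (L p + L (side p)) * u p = ∑ p, L p * (u p + u (side p))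
      simp only [add_mul, mul_add, Finset.sum_add_distrib]
      rw [sum_side_swap]
    have hvan : ∀ L, NInv S L → ∑ p, L p * t p = 0 := by
      intro L hL
      rw [← hAz]
      have h1 : f (A L) ∈ (N.map A).map f := Submodule.mem_map_of_mem (Submodule.mem_map_of_mem hL)
      rw [hf2] at h1
      exact (Submodule.mem_bot F2).1 h1
    have hz1 : ∀ q, t (S.nxt q) = t q := by
      intro q
      have h1 := hvan (fun p => (if p = q then 1 else 0) + (if p = S.nxt q then 1 else 0)) (by
        intro p
        have e1 : (S.nxt p = q) ↔ (p = S.nxt q) := by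
          constructor
          · intro h; rw [← h, S.nxt_nxt]
          · intro h; rw [h, S.nxt_nxt]
        have e2 : (S.nxt p = S.nxt q) ↔ (p = q) := ⟨fun h => nxt_inj S h, fun h => by rw [h]⟩
        simp only [e1, e2]
        rw [add_comm])
      simp only [add_mul, ite_mul, one_mul, zero_mul, Finset.sum_add_distrib, Finset.sum_ite_eq',
        Finset.mem_univ, if_true] at h1
      have h2 : t (S.nxt q) = t q + (t q + t (S.nxt q)) := by
        rw [← add_assoc, f2_add_self, zero_add]
      rw [h2, h1, add_zero]
    have hz2 : ∀ q, t (side q) = t q := by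
      intro q
      show u (side q) + u (side (side q)) = u q + u (side q)
      rw [side_side, add_comm]
    let W : V → F2 := fun v => if h : ∃ x : G.Dart, x.fst = v then t (h.choose, true) else 0
    have hW : ∀ x : G.Dart, t (x, true) = W x.fst := by
      intro x
      have h : ∃ y : G.Dart, y.fst = x.fst := ⟨x, rfl⟩
      show t (x, true) = if h : ∃ y : G.Dart, y.fst = x.fst then t (h.choose, true) else 0
      rw [dif_pos h]
      exact vertex_const S t hz1 hz2 h.choose_spec.symm
    apply hf1
    rw [hfy, Fintype.sum_prod_type]
    have e1 : ∀ x : G.Dart, ∑ s : Bool, Y (x, s) * u (x, s) = z (erep x) * W x.fst := by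
      intro x
      rw [Fintype.sum_bool, ← hW x]
      show z (erep x) * u (x, true) + z (erep x) * u (x, false) = z (erep x) * (u (x, true) + u (x, false))
      rw [mul_add]
    rw [Finset.sum_congr rfl (fun x _ => e1 x),
      sum_half (fun x : G.Dart => x.symm) (fun x => x.symm_symm) symm_ne dord dord_inj]
    have e2 : ∀ r : ERep G, z (erep r.1) * W r.1.fst + z (erep r.1.symm) * W r.1.symm.fst =
        ∑ v, (z r * einc r v) * W v := by
      intro r
      rw [erep_symm, erep_rep]
      unfold einc
      simp only [mul_add, add_mul, Finset.sum_add_distrib, mul_ite, mul_one, mul_zero, ite_mul, zero_mul,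
        Finset.sum_ite_eq, Finset.mem_univ, if_true]
      rfl
    rw [Finset.sum_congr rfl (fun r _ => e2 r), Finset.sum_comm]
    apply Finset.sum_eq_zero
    intro v _
    rw [← Finset.sum_mul, mem_orth.1 hz v, zero_mul]

end Pool.Agent.EXG
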