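import Pool.Agent.EXG.KDim

/-!
# EXG-QFa (theorem `qf_two`): a quadratic form on the kernel of the adjacency matrix

Let `Q A = φ (qq lam A)`, a quadratic form on `kerA` with polar form `J A B = φ (pol lam A B)` (`qq_add`, `pol_sum` in
Helper58/OG/Ker). `Q 1 = φ (ind lam) = 1` (`qq lam 1 = ind lam`). `hN` says: `Q A = 0` if `A` is supported on fewer than `N`
points.

PLAN. `exists_basis` (Helper58/OG/Ker) gives `B` and kernel vectors `a_x = A x` (`x ∉ B`), `a_x` supported on `B ∪ {x}`,
`a_x = 0` for `x ∈ B`; `basis_card`: `B.card + finrank = card X`. As in `lemmaP` (same file): `1 = ∑_x a_x`.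
Both statements are proved by contradiction.

`qf_two`: suppose `B.card + 3 ≤ N`. Then `Q (a_x) = 0` (support `≤ B.card + 1 < N`) and `Q (a_x + a_y) = 0` (support
`≤ B.card + 2 < N`), so `J (a_x) (a_y) = 0` (`qq_add`) for all `x, y`. By induction on a finset `s` (as in `qq_sum_mem`,
Helper58/OG/Ker) `Q (∑_{x ∈ s} a_x) = 0`. So `Q 1 = 0`, contradiction.

`qf_one`: suppose `B.card + 2 ≤ N`. `Q (a_x) = 0` as before. Choose a point `b0`: if `B` is nonempty `b0 ∈ B`, otherwise
any `b0` (if `X` is empty then `ind lam = 0` as `lam` is empty, contradiction). For `x ≠ y` not in `B` with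
`a_x b0 = a_y b0`: the sum `a_x + a_y` vanishes at `b0`, so (case `b0 ∈ B`) its support is in `(B \ {b0}) ∪ {x, y}`, of at most
`B.card + 1 < N` points, and in the case `B = ∅` the support has at most `2 < 3 ≤ N` points in any case; so
`Q (a_x + a_y) = 0` and `J (a_x) (a_y) = 0`. (For `x = y`: `J A A = φ (2 ...) = 0`: `pol lam A A = 0` in characteristic 2.) Let
`A1 = ∑_{x ∉ B, a_x b0 = 1} a_x`, `A0 = ∑_{x ∉ B, a_x b0 = 0} a_x`: `1 = A1 + A0`, `Q A1 = Q A0 = 0` by induction
(all the polar terms vanish), `Q 1 = Q A1 + Q A0 + J A1 A0 = J A1 A0 = J A1 1 + J A1 A1 = 0` by `hpol` and `pol lam A A = 0`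
(`J` is additive in the second variable: `pol_sum` or directly). Contradiction. (If `B = ∅` all `J (a_x) (a_y)` vanish, the same
computation works.)
-/

set_option autoImplicit false

open Finset

namespace Pool.Agent.EXG

open Pool.Agent.Helper35.OG Pool.Agent.Helper58.OG

variable {X E : Type} [Fintype X] [DecidableEq X] [Fintype E] [DecidableEq E] (a b : E → X)

theorem qf_two (lam : Finset E) (hlam : bd a b (ind lam) = 0) (φ : (E → F2) →ₗ[F2] F2) (hφ : φ (ind lam) = 1) (N : ℕ)
    (hN : ∀ A : X → F2, InKer a b lam A → φ (qq a b lam A) = 1 → N ≤ (supp A).card) :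
    Module.finrank F2 (kerA a b lam) + N ≤ Fintype.card X + 2 := by
  classical
  obtain ⟨B, hB, A, hA⟩ := exists_basis a b lam
  have hcard := basis_card a b lam B hB A (fun x => ⟨(hA x).1, (hA x).2.1, (hA x).2.2.2⟩)
  by_contra hcon
  have hBN : B.card + 3 ≤ N := by omega
  have hAsupp : ∀ x y, A x y ≠ 0 → y ∈ B ∨ y = x := by
    intro x y h
    by_contra hc
    rw [not_or] at hc
    exact h ((hA x).2.2.2 y hc.1 hc.2)
  have hzero : ∀ C : X → F2, InKer a b lam C → (supp C).card < N → φ (qq a b lam C) = 0 := by
    intro C hC hlt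
    rcases f2_cases (φ (qq a b lam C)) with h | h
    · exact h
    · have := hN C hC h
      omega
  have hq1 : ∀ x, φ (qq a b lam (A x)) = 0 := by
    intro x
    apply hzero _ (hA x).1
    have h1 : supp (A x) ⊆ insert x B := by
      intro y hy
      rw [mem_supp] at hy
      rw [Finset.mem_insert]
      exact (hAsupp x y hy).symm
    have h2 := Finset.card_le_card h1
    have h3 := Finset.card_insert_le x B
    omega
  have hq2 : ∀ x y, φ (pol a b lam (A x) (A y)) = 0 := by
    intro x y
    have h0 : φ (qq a b lam (fun z => A x z + A y z)) = 0 := by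
      apply hzero _ (inKer_add a b (hA x).1 (hA y).1)
      have h1 : supp (fun z => A x z + A y z) ⊆ insert x (insert y B) := by
        intro z hz
        rw [mem_supp] at hz
        rw [Finset.mem_insert, Finset.mem_insert]
        by_cases hx : A x z = 0
        · have hy : A y z ≠ 0 := by
            intro h
            apply hz
            rw [hx, h, add_zero]
          rcases hAsupp y z hy with h | h
          · exact Or.inr (Or.inr h)
          · exact Or.inr (Or.inl h)
        · rcases hAsupp x z hx with h | h
          · exact Or.inr (Or.inr h)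
          · exact Or.inl h
      have h2 := Finset.card_le_card h1
      have h3 := Finset.card_insert_le x (insert y B)
      have h4 := Finset.card_insert_le y B
      omega
    rw [qq_add, map_add, map_add, hq1, hq1, zero_add, zero_add] at h0
    exact h0
  have hsum : ∀ s : Finset X, φ (qq a b lam (fun y => ∑ x ∈ s, A x y)) = 0 := by
    intro s
    induction s using Finset.induction_on with
    | empty =>
      have h2 : qq a b lam (fun y => ∑ x ∈ (∅ : Finset X), A x y) = 0 := by
        funext e
        show ind lam e * ((∑ x ∈ (∅ : Finset X), A x (a e)) * (∑ x ∈ (∅ : Finset X), A x (b e))) = 0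
        rw [Finset.sum_empty, zero_mul, mul_zero]
      rw [h2, map_zero]
    | insert x s hx ih =>
      have h1 : (fun y => ∑ z ∈ insert x s, A z y) = fun y => A x y + ∑ z ∈ s, A z y := by
        funext y
        rw [Finset.sum_insert hx]
      rw [h1, qq_add, map_add, map_add, pol_sum, map_sum, hq1, ih, zero_add, zero_add]
      exact Finset.sum_eq_zero fun z _ => hq2 x z
  have hone : (fun _ : X => (1 : F2)) = fun y => ∑ x, A x y := by
    have h1 := hB (fun y => 1 + ∑ x, A x y) (inKer_add a b (inKer_one a b hlam)
      (inKer_sum a b Finset.univ (fun x _ => (hA x).1))) (by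
        intro y hy
        rw [Finset.sum_eq_single y, (hA y).2.1 hy]
        · rfl
        · intro x _ hxy
          exact (hA x).2.2.2 y hy hxy.symm
        · intro h; exact absurd (Finset.mem_univ _) h)
    funext y
    have h2 : 1 + ∑ x, A x y = 0 := congrFun h1 y
    calc (1 : F2) = 1 + (∑ x, A x y + ∑ x, A x y) := by rw [f2_add_self, add_zero]
      _ = (1 + ∑ x, A x y) + ∑ x, A x y := by ring
      _ = ∑ x, A x y := by rw [h2, zero_add]
  have hlamq : ind lam = qq a b lam (fun y => ∑ x, A x y) := by
    rw [← hone]
    funext e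
    show ind lam e = ind lam e * (1 * 1)
    rw [mul_one, mul_one]
  have h1 := hsum Finset.univ
  rw [← hlamq, hφ] at h1
  exact one_ne_zero h1

end Pool.Agent.EXG
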